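import Pool.Agent.Work.MP_31dc3b_ag.Final

/-!
Four independent points form a grid.
-/

set_option autoImplicit false
open scoped LinearAlgebra.Projectivization

namespace Pool.Agent.Work.MP_31dc3b_ag

/-- The line spanned by two basis vectors. -/
noncomputable def PP (B : Module.Basis (Fin 4) ℂ (Fin 4 → ℂ)) (a b : Fin 4) :
    Submodule ℂ (Fin 4 → ℂ) := Submodule.span ℂ (B '' {a, b})

theorem mem_PP {B : Module.Basis (Fin 4) ℂ (Fin 4 → ℂ)} {a b : Fin 4} {x : Fin 4 → ℂ} :
    x ∈ PP B a b ↔ ∀ k, k ≠ a → k ≠ b → B.repr x k = 0 := by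
  unfold PP
  rw [Module.Basis.mem_span_image]
  constructor
  · intro h k hka hkb
    by_contra hne
    have h1 : k ∈ ({a, b} : Set (Fin 4)) := h (by simpa using hne)
    rcases h1 with h1 | h1
    · exact hka h1
    · exact hkb h1
  · intro h k hk
    by_contra hne
    have hne' : k ≠ a ∧ k ≠ b := by simpa using hne
    have h1 := h k hne'.1 hne'.2
    have h2 : B.repr x k ≠ 0 := by simpa using hk
    exact h2 h1

theorem finrank_PP {B : Module.Basis (Fin 4) ℂ (Fin 4 → ℂ)} {a b : Fin 4} (hab : a ≠ b) :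
    Module.finrank ℂ (PP B a b) = 2 := by
  have hinj : Function.Injective ![a, b] := by
    intro i j hij
    fin_cases i <;> fin_cases j <;> simp_all
  have h1 := finrank_span_eq_card (B.linearIndependent.comp ![a, b] hinj)
  have h2 : Set.range (B ∘ ![a, b]) = B '' {a, b} := by
    rw [Set.range_comp]
    congr 1
    simp [Set.pair_comm]
  rw [h2] at h1
  unfold PP
  simpa using h1

theorem PP_inf {B : Module.Basis (Fin 4) ℂ (Fin 4 → ℂ)} {a b c d : Fin 4}
    (h : ∀ k, (k ≠ a ∧ k ≠ b) ∨ (k ≠ c ∧ k ≠ d)) : PP B a b ⊓ PP B c d = ⊥ := by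
  rw [eq_bot_iff]
  rintro x ⟨h1, h2⟩
  rw [SetLike.mem_coe, mem_PP] at h1 h2
  rw [Submodule.mem_bot]
  apply B.repr.map_eq_zero_iff.1
  ext k
  rcases h k with h3 | h3
  · exact h1 k h3.1 h3.2
  · exact h2 k h3.1 h3.2

theorem B_mem_PP {B : Module.Basis (Fin 4) ℂ (Fin 4 → ℂ)} {a b k : Fin 4}
    (h : k = a ∨ k = b) : B k ∈ PP B a b := by
  rw [mem_PP]
  intro l hla hlb
  have hne : l ≠ k := by
    rintro rfl
    rcases h with h | h
    · exact hla h
    · exact hlb h
  rw [Module.Basis.repr_self, Finsupp.single_eq_of_ne hne]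

theorem PP_inf_ne {B : Module.Basis (Fin 4) ℂ (Fin 4 → ℂ)} {a b c d k : Fin 4}
    (h : k = a ∨ k = b) (h' : k = c ∨ k = d) : PP B a b ⊓ PP B c d ≠ ⊥ := by
  intro h0
  have h1 : B k ∈ PP B a b ⊓ PP B c d := ⟨B_mem_PP h, B_mem_PP h'⟩
  rw [h0, Submodule.mem_bot] at h1
  exact B.ne_zero k h1

theorem mem_both {B : Module.Basis (Fin 4) ℂ (Fin 4 → ℂ)} {a b c d k : Fin 4}
    (h : ∀ l, l ≠ k → (l ≠ a ∧ l ≠ b) ∨ (l ≠ c ∧ l ≠ d)) {x : Fin 4 → ℂ}
    (h1 : x ∈ PP B a b) (h2 : x ∈ PP B c d) : ∃ t : ℂ, x = t • B k := by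
  rw [mem_PP] at h1 h2
  refine ⟨B.repr x k, ?_⟩
  apply B.repr.injective
  ext l
  rw [map_smul, Module.Basis.repr_self]
  by_cases hl : l = k
  · subst hl; simp
  · rw [Finsupp.smul_apply, Finsupp.single_eq_of_ne hl, smul_zero]
    rcases h l hl with h3 | h3
    · exact h1 l h3.1 h3.2
    · exact h2 l h3.1 h3.2

theorem rep_eq {z w : ℙ ℂ (Fin 4 → ℂ)} {t : ℂ} (h : z.rep = t • w.rep) : z = w := by
  rw [← Projectivization.mk_rep z, ← Projectivization.mk_rep w, Projectivization.mk_eq_mk_iff']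
  exact ⟨t, h.symm⟩

/-- Four points spanning three-space form a grid. -/
theorem grid_of_four (Z : Finset (ℙ ℂ (Fin 4 → ℂ)))
    (hspan : ∀ c : Fin 4 → ℂ, (∀ z ∈ Z, ∑ i, c i * z.rep i = 0) → c = 0)
    (hcard : Z.card ≤ 4) :
    (∃ (m n : ℕ) (L : Fin m → Submodule ℂ (Fin 4 → ℂ)) (M : Fin n → Submodule ℂ (Fin 4 → ℂ)),
        (∀ i, Module.finrank ℂ (L i) = 2) ∧ (∀ j, Module.finrank ℂ (M j) = 2) ∧
        (∀ i i', i ≠ i' → L i ⊓ L i' = ⊥) ∧ (∀ j j', j ≠ j' → M j ⊓ M j' = ⊥) ∧
        (∀ i j, L i ⊓ M j ≠ ⊥) ∧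
        ∀ z : ℙ ℂ (Fin 4 → ℂ), z ∈ Z ↔ ∃ i j, z.rep ∈ L i ∧ z.rep ∈ M j) := by
  classical
  -- the representatives span
  have htop : (⊤ : Submodule ℂ (Fin 4 → ℂ))
      ≤ Submodule.span ℂ (Set.range (fun z : Z => z.1.rep)) := by
    by_contra hcon
    have hlt : Submodule.span ℂ (Set.range (fun z : Z => z.1.rep)) < ⊤ := by
      rw [lt_top_iff_ne_top]
      intro h0
      exact hcon (by rw [h0])
    obtain ⟨f, hf0, hf⟩ := Submodule.exists_le_ker_of_lt_top _ hlt
    have h1 : ∀ u : Fin 4 → ℂ, f u = ∑ i, f (Pi.single i 1) * u i := by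
      intro u
      have h2 : u = ∑ i, u i • (Pi.single i 1 : Fin 4 → ℂ) := by
        funext j
        simp [Finset.sum_apply, Pi.single_apply]
      conv_lhs => rw [h2, map_sum]
      apply Finset.sum_congr rfl
      intro i _
      rw [map_smul, smul_eq_mul, mul_comm]
    have h3 : (fun i => f (Pi.single i 1)) = 0 := by
      apply hspan
      intro z hz
      rw [← h1]
      exact hf (Submodule.subset_span ⟨⟨z, hz⟩, rfl⟩)
    apply hf0
    ext u
    have h4 := h1 (Pi.single u 1)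
    simp only [LinearMap.coe_comp, Function.comp_apply, LinearMap.coe_single,
      LinearMap.zero_comp, LinearMap.zero_apply]
    exact congrFun h3 u
  have hfr : Fintype.card Z = 4 := by
    have h1 : Module.finrank ℂ (Fin 4 → ℂ) ≤ Fintype.card Z := by
      have h2 := finrank_range_le_card (R := ℂ) (fun z : Z => z.1.rep)
      rw [Set.finrank, top_le_iff.1 htop, finrank_top] at h2
      exact h2
    rw [Module.finrank_fintype_fun_eq_card, Fintype.card_fin] at h1
    rw [Fintype.card_coe] at h1 ⊢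
    omega
  have hli : LinearIndependent ℂ (fun z : Z => z.1.rep) := by
    apply linearIndependent_of_top_le_span_of_card_eq_finrank htop
    rw [hfr, Module.finrank_fintype_fun_eq_card, Fintype.card_fin]
  have e : Fin 4 ≃ Z := (Fintype.equivFinOfCardEq hfr).symm
  have hli2 : LinearIndependent ℂ (fun k : Fin 4 => (e k).1.rep) := hli.comp e e.injective
  let B : Module.Basis (Fin 4) ℂ (Fin 4 → ℂ) :=
    basisOfLinearIndependentOfCardEqFinrank hli2 (by simp)
  have hB : ∀ k, B k = (e k).1.rep := by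
    intro k
    simp [B]
  have hmem : ∀ (z : ℙ ℂ (Fin 4 → ℂ)) (k : Fin 4) (t : ℂ), z.rep = t • B k → z ∈ Z := by
    intro z k t h
    rw [hB] at h
    rw [rep_eq h]
    exact (e k).2
  refine ⟨2, 2, ![PP B 0 1, PP B 2 3], ![PP B 0 2, PP B 1 3], ?_, ?_, ?_, ?_, ?_, ?_⟩
  · intro i
    fin_cases i
    · exact finrank_PP (by decide)
    · exact finrank_PP (by decide)
  · intro i
    fin_cases i
    · exact finrank_PP (by decide)
    · exact finrank_PP (by decide)
  · intro i i' hne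
    fin_cases i <;> fin_cases i'
    · exact absurd rfl hne
    · exact PP_inf (by decide)
    · exact PP_inf (by decide)
    · exact absurd rfl hne
  · intro i i' hne
    fin_cases i <;> fin_cases i'
    · exact absurd rfl hne
    · exact PP_inf (by decide)
    · exact PP_inf (by decide)
    · exact absurd rfl hne
  · intro i j
    fin_cases i <;> fin_cases j
    · exact PP_inf_ne (k := 0) (by decide) (by decide)
    · exact PP_inf_ne (k := 1) (by decide) (by decide)
    · exact PP_inf_ne (k := 2) (by decide) (by decide)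
    · exact PP_inf_ne (k := 3) (by decide) (by decide)
  · intro z
    constructor
    · intro hz
      obtain ⟨k, hk⟩ := e.surjective ⟨z, hz⟩
      have h1 : z.rep = B k := by rw [hB, hk]
      rw [h1]
      fin_cases k
      · exact ⟨0, 0, B_mem_PP (by decide), B_mem_PP (by decide)⟩
      · exact ⟨0, 1, B_mem_PP (by decide), B_mem_PP (by decide)⟩
      · exact ⟨1, 0, B_mem_PP (by decide), B_mem_PP (by decide)⟩
      · exact ⟨1, 1, B_mem_PP (by decide), B_mem_PP (by decide)⟩
    · rintro ⟨i, j, h1, h2⟩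
      fin_cases i <;> fin_cases j
      · obtain ⟨t, ht⟩ := mem_both (k := 0) (by decide) h1 h2
        exact hmem z _ t ht
      · obtain ⟨t, ht⟩ := mem_both (k := 1) (by decide) h1 h2
        exact hmem z _ t ht
      · obtain ⟨t, ht⟩ := mem_both (k := 2) (by decide) h1 h2
        exact hmem z _ t ht
      · obtain ⟨t, ht⟩ := mem_both (k := 3) (by decide) h1 h2
        exact hmem z _ t ht

end Pool.Agent.Work.MP_31dc3b_ag
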