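import Mathlib

/-!
Basic objects for the collinear triples theorem on geproci sets: relations between
products of linear forms, the separation lemma, and the affine-linear polynomials
attached to points and planes of projective three-space.
-/

set_option autoImplicit false

open MvPolynomial

namespace Pool.Agent.Work.MP_31dc3b_ag

/-- The polynomial ring in the affine coordinates of the centre of projection. -/
abbrev R := MvPolynomial (Fin 3) ℂ

/-- `r` is a relation of degree `t` between the vectors `y z`. -/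
def Rel {A ι : Type*} [CommRing A] [Fintype ι] (t : ℕ) (y : ι → Fin 3 → A) (r : ι → A) : Prop :=
  ∀ u : Fin t → Fin 3 → A, ∑ z, r z * ∏ k, (∑ i, u k i * y z i) = 0

theorem Rel.of_words {A ι : Type*} [CommRing A] [Fintype ι] {t : ℕ} {y : ι → Fin 3 → A}
    {r : ι → A} (h : ∀ w : Fin t → Fin 3, ∑ z, r z * ∏ k, y z (w k) = 0) : Rel t y r := by
  classical
  intro u
  have h1 : ∀ z, ∏ k, (∑ i, u k i * y z i)
      = ∑ w : Fin t → Fin 3, (∏ k, u k (w k)) * ∏ k, y z (w k) := by
    intro z
    rw [Finset.prod_univ_sum]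
    simp [Finset.prod_mul_distrib]
  simp_rw [h1, Finset.mul_sum]
  rw [Finset.sum_comm]
  apply Finset.sum_eq_zero
  intro w _
  have := h w
  calc ∑ z, r z * ((∏ k, u k (w k)) * ∏ k, y z (w k))
      = (∏ k, u k (w k)) * ∑ z, r z * ∏ k, y z (w k) := by
        rw [Finset.mul_sum]; apply Finset.sum_congr rfl; intro z _; ring
    _ = 0 := by rw [this, mul_zero]

theorem Rel.words {A ι : Type*} [CommRing A] [Fintype ι] {t : ℕ} {y : ι → Fin 3 → A}
    {r : ι → A} (h : Rel t y r) (w : Fin t → Fin 3) : ∑ z, r z * ∏ k, y z (w k) = 0 := by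
  classical
  have := h (fun k => Pi.single (w k) 1)
  simpa [Pi.single_apply] using this

theorem Rel.map {A B ι : Type*} [CommRing A] [CommRing B] [Fintype ι] {t : ℕ}
    {y : ι → Fin 3 → A} {r : ι → A} (h : Rel t y r) (f : A →+* B) :
    Rel t (fun z i => f (y z i)) (fun z => f (r z)) := by
  apply Rel.of_words
  intro w
  have := congrArg f (h.words w)
  simpa [map_sum, map_mul, map_prod] using this

/-- Separation lemma: a nonzero relation of degree `t` between pairwise non-proportional vectors
over a domain involves at least `t + 2` of them. -/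
theorem Rel.card_le {A ι : Type*} [CommRing A] [IsDomain A] [Fintype ι] {t : ℕ}
    {y : ι → Fin 3 → A} {r : ι → A} (h : Rel t y r) (s : Finset ι)
    (hs : ∀ z, z ∉ s → r z = 0) (z0 : ι) (hz0 : r z0 ≠ 0) (hy0 : ∃ i, y z0 i ≠ 0)
    (hnp : ∀ z ∈ s, z ≠ z0 → ∃ i j, y z i * y z0 j ≠ y z j * y z0 i) : t + 2 ≤ s.card := by
  classical
  by_contra hcon
  push Not at hcon
  have hz0s : z0 ∈ s := by
    by_contra h0; exact hz0 (hs z0 h0)
  obtain ⟨i0, hi0⟩ := hy0
  have hcard : (s.erase z0).card ≤ t := by
    rw [Finset.card_erase_of_mem hz0s]; omega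
  have hU : ∀ z : ι, ∃ U : Fin 3 → A, (∑ i, U i * y z0 i ≠ 0) ∧
      (z ∈ s.erase z0 → ∑ i, U i * y z i = 0) := by
    intro z
    by_cases hz : z ∈ s.erase z0
    · obtain ⟨i, j, hij⟩ := hnp z (Finset.mem_of_mem_erase hz) (Finset.ne_of_mem_erase hz)
      refine ⟨Pi.single j (y z i) - Pi.single i (y z j), ?_, ?_⟩
      · simp only [Pi.sub_apply, sub_mul, Finset.sum_sub_distrib, Pi.single_apply, ite_mul,
          zero_mul, Finset.sum_ite_eq', Finset.mem_univ, if_true]
        exact sub_ne_zero.2 hij
      · intro _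
        simp only [Pi.sub_apply, sub_mul, Finset.sum_sub_distrib, Pi.single_apply, ite_mul,
          zero_mul, Finset.sum_ite_eq', Finset.mem_univ, if_true]
        ring
    · refine ⟨Pi.single i0 1, ?_, fun h => absurd h hz⟩
      simpa [Pi.single_apply] using hi0
  choose U hU0 hU1 using hU
  let l : List (Fin 3 → A) := (s.erase z0).toList.map U
  have hl : l.length ≤ t := by simp [l, Finset.length_toList]; omega
  let u : Fin t → Fin 3 → A := fun k => l.getD k (Pi.single i0 1)
  have hu0 : ∀ k, ∑ i, u k i * y z0 i ≠ 0 := by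
    intro k
    by_cases hk : (k : ℕ) < l.length
    · have hmem : l[(k:ℕ)] ∈ l := List.getElem_mem hk
      have : u k = l[(k:ℕ)] := by simp only [u]; exact List.getD_eq_getElem _ _ hk
      rw [this]
      simp only [l, List.mem_map] at hmem
      obtain ⟨z, _, hz⟩ := hmem
      rw [← hz]; exact hU0 z
    · have : u k = Pi.single i0 1 := by
        simp only [u]; exact List.getD_eq_default _ _ (not_lt.1 hk)
      rw [this]
      simpa [Pi.single_apply] using hi0
  have hu1 : ∀ z ∈ s.erase z0, ∃ k : Fin t, ∑ i, u k i * y z i = 0 := by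
    intro z hz
    have hmem : U z ∈ l := by
      simp only [l]; exact List.mem_map_of_mem (Finset.mem_toList.2 hz)
    obtain ⟨n, hn, hnz⟩ := List.getElem_of_mem hmem
    refine ⟨⟨n, lt_of_lt_of_le hn hl⟩, ?_⟩
    have : u ⟨n, lt_of_lt_of_le hn hl⟩ = U z := by
      simp only [u]; rw [List.getD_eq_getElem _ _ hn]; exact hnz
    rw [this]; exact hU1 z hz
  have hsum := h u
  rw [Finset.sum_eq_single z0] at hsum
  · rcases mul_eq_zero.1 hsum with h1 | h1
    · exact hz0 h1
    · rw [Finset.prod_eq_zero_iff] at h1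
      obtain ⟨k, _, hk⟩ := h1
      exact hu0 k hk
  · intro z _ hz
    by_cases hzs : z ∈ s
    · obtain ⟨k, hk⟩ := hu1 z (Finset.mem_erase.2 ⟨hz, hzs⟩)
      rw [Finset.prod_eq_zero (Finset.mem_univ k) hk, mul_zero]
    · rw [hs z hzs, zero_mul]
  · intro h0; exact absurd (Finset.mem_univ _) h0

end Pool.Agent.Work.MP_31dc3b_ag
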