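import Pool.Agent.Work.MP_31dc3b_ag.Forms

/-!
Consequences of being a reduced complete intersection for a finite set of vectors.
-/

set_option autoImplicit false

open MvPolynomial

namespace Pool.Agent.Work.MP_31dc3b_ag

/-- The vectors `y z` form a reduced complete intersection of type `(a, b)` in the plane. -/
structure CI {ι : Type*} (y : ι → Fin 3 → ℂ) (F G : R) (a b : ℕ) : Prop where
  hF : F.IsHomogeneous a
  hG : G.IsHomogeneous b
  hI : ∀ f : R, ∀ d, f.IsHomogeneous d → ((∀ z, eval (y z) f = 0) ↔ f ∈ Ideal.span {F, G})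
  np : ∀ z w, z ≠ w → ∃ i j, y z i * y w j ≠ y z j * y w i
  nz : ∀ z, ∃ i, y z i ≠ 0

theorem exists_generic {ι : Type*} [Fintype ι] {y : ι → Fin 3 → ℂ} (nz : ∀ z, ∃ i, y z i ≠ 0)
    {q : R} (hq : q ≠ 0) : ∃ u, eval u q ≠ 0 ∧ ∀ z, crossProduct u (y z) ≠ 0 := by
  classical
  have h1 : ∀ z, ∃ i j, i ≠ j ∧ y z i ≠ 0 := by
    intro z
    obtain ⟨i, hi⟩ := nz z
    obtain ⟨j, hj⟩ := exists_ne i
    exact ⟨i, j, hj.symm, hi⟩
  choose i j hij hi using h1
  have h2 : ∀ z, (C (y z (i z)) * X (j z) - C (y z (j z)) * X (i z) : R) ≠ 0 := by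
    intro z h
    have := congrArg (eval (Pi.single (j z) 1)) h
    simp [hij z] at this
    exact hi z this
  have h3 : q * ∏ z, (C (y z (i z)) * X (j z) - C (y z (j z)) * X (i z) : R) ≠ 0 :=
    mul_ne_zero hq (Finset.prod_ne_zero_iff.2 fun z _ => h2 z)
  obtain ⟨u, hu⟩ := exists_eval_ne h3
  rw [map_mul] at hu
  refine ⟨u, left_ne_zero_of_mul hu, ?_⟩
  intro z hz
  have h4 := right_ne_zero_of_mul hu
  rw [map_prod, Finset.prod_ne_zero_iff] at h4
  have h5 := h4 z (Finset.mem_univ z)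
  apply h5
  have h6 := cross_eq_zero hz (i z) (j z)
  simp only [map_sub, map_mul, eval_C, eval_X]
  linear_combination -h6

section
variable {ι : Type*} [Fintype ι] {y : ι → Fin 3 → ℂ} {F G : R} {a b : ℕ}

theorem CI.isRelPrime (h : CI y F G a b) : IsRelPrime F G := by
  classical
  intro d hdF hdG
  by_contra hd
  have hdiv : ∀ f ∈ Ideal.span {F, G}, d ∣ f := by
    intro f hf
    obtain ⟨A, B, rfl⟩ := Ideal.mem_span_pair.1 hf
    exact dvd_add (hdF.mul_left _) (hdG.mul_left _)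
  have key : ∀ u : Fin 3 → ℂ, d ∣ ∏ z, linf (crossProduct u (y z)) := by
    intro u
    apply hdiv
    have hh : (∏ z : ι, linf (crossProduct u (y z))).IsHomogeneous (∑ _z : ι, 1) :=
      IsHomogeneous.prod _ _ _ (fun z _ => linf_hom _)
    rw [← h.hI _ _ hh]
    intro z
    rw [map_prod]
    apply Finset.prod_eq_zero (Finset.mem_univ z)
    rw [eval_linf]
    exact dot_cross_right _ _
  by_cases hd0 : d = 0
  · obtain ⟨u, _, hu⟩ := exists_generic h.nz (q := 1) one_ne_zero
    have := key u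
    rw [hd0, zero_dvd_iff] at this
    exact Finset.prod_ne_zero_iff.2 (fun z _ => linf_ne (hu z)) this
  · obtain ⟨p, hp, hpd⟩ := WfDvdMonoid.exists_irreducible_factor hd hd0
    obtain ⟨u, hu1, hu2⟩ := exists_generic h.nz hp.ne_zero
    have h1 : p ∣ ∏ z, linf (crossProduct u (y z)) := hpd.trans (key u)
    obtain ⟨z, _, hz⟩ := (hp.prime.dvd_finsetProd_iff _).1 h1
    obtain ⟨c, hc, hc2⟩ := eq_C_mul_of_dvd hp (linf_ne (hu2 z)) (linf_hom _).totalDegree_le hz
    have h2 := congrArg (eval u) hc2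
    rw [eval_linf, dot_cross_left, map_mul, eval_C] at h2
    rcases mul_eq_zero.1 h2.symm with h3 | h3
    · exact hc h3
    · exact hu1 h3

/-- shifted forms -/
noncomputable def P (a t : ℕ) : Submodule ℂ R := if a ≤ t then S (t - a) else ⊥

theorem P_of_le {a t : ℕ} (h : a ≤ t) : P a t = S (t - a) := if_pos h

theorem P_of_not_le {a t : ℕ} (h : ¬ a ≤ t) : P a t = ⊥ := if_neg h

instance (a t : ℕ) : FiniteDimensional ℂ (P a t) := by
  by_cases h : a ≤ t
  · rw [P_of_le h]; infer_instance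
  · rw [P_of_not_le h]; infer_instance

theorem two_mul_finrank_P (a t : ℕ) :
    2 * Module.finrank ℂ (P a t) = (t + 1 - a) * (t + 2 - a) := by
  by_cases h : a ≤ t
  · rw [P_of_le h, two_mul_finrank_S]
    have h1 : t - a + 1 = t + 1 - a := by omega
    have h2 : t - a + 2 = t + 2 - a := by omega
    rw [h1, h2]
  · rw [P_of_not_le h, finrank_bot]
    have h1 : t + 1 - a = 0 := by omega
    rw [h1]; simp

theorem hc_mem_P {F A : R} {a t : ℕ} (hF : F.IsHomogeneous a) :
    ∃ A' ∈ P a t, homogeneousComponent t (A * F) = A' * F := by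
  rw [hc_mul hF]
  unfold P
  split_ifs with h
  · exact ⟨_, homogeneousComponent_isHomogeneous _ _, rfl⟩
  · exact ⟨0, Submodule.zero_mem _, by simp⟩

theorem exists_decomp (hF : F.IsHomogeneous a) (hG : G.IsHomogeneous b) {f : R} {t : ℕ}
    (hf : f.IsHomogeneous t) (hfI : f ∈ Ideal.span {F, G}) :
    ∃ A ∈ P a t, ∃ B ∈ P b t, A * F + B * G = f := by
  obtain ⟨A, B, hAB⟩ := Ideal.mem_span_pair.1 hfI
  obtain ⟨A', hA', hA'2⟩ := hc_mem_P (A := A) (t := t) hF
  obtain ⟨B', hB', hB'2⟩ := hc_mem_P (A := B) (t := t) hG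
  refine ⟨A', hA', B', hB', ?_⟩
  rw [← hA'2, ← hB'2, ← map_add, hAB, homogeneousComponent_eq_self hf]

theorem P_mul {F A : R} {a t : ℕ} (hF : F.IsHomogeneous a) (hA : A ∈ P a t) :
    (A * F).IsHomogeneous t := by
  unfold P at hA
  split_ifs at hA with h
  · have : (t - a) + a = t := by omega
    rw [← this]
    exact IsHomogeneous.mul hA hF
  · rw [Submodule.mem_bot] at hA
    rw [hA, zero_mul]
    exact isHomogeneous_zero _ _ _

/-- The evaluation map. -/
noncomputable def EV (y : ι → Fin 3 → ℂ) : R →ₗ[ℂ] (ι → ℂ) :=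
  LinearMap.pi (fun z => (aeval (y z)).toLinearMap)

omit [Fintype ι] in
theorem EV_apply (f : R) (z : ι) : EV y f z = eval (y z) f := by
  simp [EV, aeval_eq_eval]

/-- The map `(A, B) ↦ A F + B G`. -/
noncomputable def Phi (F G : R) (M N : Submodule ℂ R) : (M × N) →ₗ[ℂ] R :=
  LinearMap.coprod ((LinearMap.mulRight ℂ F).comp M.subtype)
    ((LinearMap.mulRight ℂ G).comp N.subtype)

theorem Phi_apply (F G : R) (M N : Submodule ℂ R) (x : M × N) :
    Phi F G M N x = (x.1 : R) * F + (x.2 : R) * G := by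
  simp [Phi]

/-- forms of degree t vanishing at all the points, as a subspace of `R` -/
noncomputable def K (y : ι → Fin 3 → ℂ) (t : ℕ) : Submodule ℂ R :=
  (LinearMap.ker ((EV y).domRestrict (S t))).map (S t).subtype

omit [Fintype ι] in
theorem mem_K {t : ℕ} {f : R} : f ∈ K y t ↔ f.IsHomogeneous t ∧ ∀ z, eval (y z) f = 0 := by
  unfold K
  simp only [Submodule.mem_map, LinearMap.mem_ker, Submodule.subtype_apply]
  constructor
  · rintro ⟨g, hg, rfl⟩
    refine ⟨g.2, fun z => ?_⟩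
    rw [← EV_apply]
    exact congrFun hg z
  · rintro ⟨hf, hz⟩
    refine ⟨⟨f, hf⟩, ?_, rfl⟩
    funext z
    exact (EV_apply f z).trans (hz z)

omit [Fintype ι] in
theorem finrank_K (t : ℕ) : Module.finrank ℂ ((S t).map (EV y)) + Module.finrank ℂ (K y t)
    = Module.finrank ℂ (S t) := by
  unfold K
  rw [Submodule.finrank_map_subtype_eq,
    ← LinearMap.finrank_range_add_finrank_ker ((EV y).domRestrict (S t)),
    LinearMap.range_domRestrict]

omit [Fintype ι] in
theorem CI.K_eq (h : CI y F G a b) (t : ℕ) :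
    K y t = LinearMap.range (Phi F G (P a t) (P b t)) := by
  ext f
  rw [mem_K, LinearMap.mem_range]
  constructor
  · rintro ⟨hf, hz⟩
    obtain ⟨A, hA, B, hB, hAB⟩ := exists_decomp h.hF h.hG hf ((h.hI f t hf).1 hz)
    exact ⟨(⟨A, hA⟩, ⟨B, hB⟩), by rw [Phi_apply]; exact hAB⟩
  · rintro ⟨x, rfl⟩
    rw [Phi_apply]
    have h1 : ((x.1 : R) * F + (x.2 : R) * G).IsHomogeneous t :=
      (P_mul h.hF x.1.2).add (P_mul h.hG x.2.2)
    refine ⟨h1, ?_⟩
    rw [h.hI _ _ h1]
    exact Ideal.mem_span_pair.2 ⟨_, _, rfl⟩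

omit [Fintype ι] in
theorem CI.finrank_K_le (h : CI y F G a b) (t : ℕ) :
    Module.finrank ℂ (K y t) ≤ Module.finrank ℂ (P a t) + Module.finrank ℂ (P b t) := by
  rw [h.K_eq, ← Module.finrank_prod]
  exact LinearMap.finrank_range_le _

/-- Relations of degree `t`, as a subspace. -/
noncomputable def RelS (y : ι → Fin 3 → ℂ) (t : ℕ) : Submodule ℂ (ι → ℂ) := by
  classical
  exact ((S t).map (EV y)).dualAnnihilator.comap (dotProductEquiv ℂ ι).toLinearMap

theorem mem_RelS {t : ℕ} {c : ι → ℂ} :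
    c ∈ RelS y t ↔ ∀ f : R, f.IsHomogeneous t → ∑ z, c z * eval (y z) f = 0 := by
  classical
  unfold RelS
  rw [Submodule.mem_comap, Submodule.mem_dualAnnihilator]
  constructor
  · intro h f hf
    have := h (EV y f) (Submodule.mem_map_of_mem hf)
    simpa [dotProduct, EV_apply] using this
  · rintro h w ⟨f, hf, rfl⟩
    simpa [dotProduct, EV_apply] using h f hf

theorem finrank_RelS (t : ℕ) :
    Module.finrank ℂ ((S t).map (EV y)) + Module.finrank ℂ (RelS y t) = Fintype.card ι := by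
  classical
  have h1 := Subspace.finrank_add_finrank_dualAnnihilator_eq ((S t).map (EV y))
  rw [Module.finrank_fintype_fun_eq_card] at h1
  rw [← h1]
  congr 1
  unfold RelS
  have := LinearEquiv.finrank_eq
    ((dotProductEquiv ℂ ι).submoduleMap ((((S t).map (EV y)).dualAnnihilator).comap
      (dotProductEquiv ℂ ι).toLinearMap))
  have h3 : Submodule.map (dotProductEquiv ℂ ι).toLinearMap
      (Submodule.comap (dotProductEquiv ℂ ι).toLinearMap ((S t).map (EV y)).dualAnnihilator)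
      = ((S t).map (EV y)).dualAnnihilator :=
    Submodule.map_comap_eq_of_surjective (dotProductEquiv ℂ ι).surjective _
  rw [this]
  exact (LinearEquiv.ofEq _ _ h3).finrank_eq

end

end Pool.Agent.Work.MP_31dc3b_ag
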