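import Pool.Agent.Work.MP_31dc3b_ag.CI

/-!
Numerical consequences of the complete intersection property, and the
Cayley-Bacharach property.
-/

set_option autoImplicit false

open MvPolynomial

namespace Pool.Agent.Work.MP_31dc3b_ag

theorem exists_word (t : ℕ) (m : Fin 3 →₀ ℕ) (hm : m.degree = t) :
    ∃ w : Fin t → Fin 3, ∀ x : Fin 3 → ℂ, ∏ k, x (w k) = ∏ i, x i ^ m i := by
  induction t generalizing m with
  | zero =>
    have : m = 0 := by
      rwa [Finsupp.degree_eq_zero_iff] at hm
    subst this
    exact ⟨Fin.elim0, fun x => by simp⟩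
  | succ t ih =>
    have hne : m ≠ 0 := by
      rintro rfl
      simp at hm
    obtain ⟨i, hi⟩ := Finsupp.ne_iff.1 hne
    have hi' : 1 ≤ m i := Nat.one_le_iff_ne_zero.2 hi
    have hle : Finsupp.single i 1 ≤ m := by
      rw [Finsupp.single_le_iff]; exact hi'
    obtain ⟨m', rfl⟩ := exists_add_of_le hle
    have hdeg : m'.degree = t := by
      rw [map_add, Finsupp.degree_single] at hm
      omega
    obtain ⟨w, hw⟩ := ih m' hdeg
    refine ⟨Fin.cons i w, fun x => ?_⟩
    rw [Fin.prod_univ_succ]
    simp only [Fin.cons_zero, Fin.cons_succ]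
    rw [hw]
    simp only [Finsupp.add_apply, pow_add, Finset.prod_mul_distrib]
    congr 1
    rw [Finset.prod_eq_single i]
    · simp
    · intro j _ hj
      rw [Finsupp.single_eq_of_ne hj, pow_zero]
    · intro h; exact absurd (Finset.mem_univ _) h

theorem mem_P {a t : ℕ} (h : a ≤ t) {A : R} : A ∈ P a t ↔ A.IsHomogeneous (t - a) := by
  rw [P_of_le h]
  exact Iff.rfl

section
variable {ι : Type*} [Fintype ι] {y : ι → Fin 3 → ℂ} {F G : R} {a b : ℕ}

theorem mem_RelS_iff {t : ℕ} {c : ι → ℂ} : c ∈ RelS y t ↔ Rel t y c := by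
  rw [mem_RelS]
  constructor
  · intro h u
    have hh : (∏ k : Fin t, linf (u k)).IsHomogeneous (∑ _k : Fin t, 1) :=
      IsHomogeneous.prod _ _ _ (fun z _ => linf_hom _)
    have h1 : (∑ _k : Fin t, 1) = t := by simp
    rw [h1] at hh
    have := h _ hh
    simpa [map_prod, eval_linf] using this
  · intro h f hf
    have h1 : ∀ z, eval (y z) f = ∑ m ∈ f.support, coeff m f * ∏ i, y z i ^ m i := by
      intro z
      rw [eval_eq']
    simp_rw [h1, Finset.mul_sum]
    rw [Finset.sum_comm]
    apply Finset.sum_eq_zero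
    intro m hm
    have hd : m.degree = t := by
      by_contra hne
      exact (mem_support_iff.1 hm) (hf.coeff_eq_zero hne)
    obtain ⟨w, hw⟩ := exists_word t m hd
    have h2 := h.words w
    calc ∑ z, c z * (coeff m f * ∏ i, y z i ^ m i)
        = coeff m f * ∑ z, c z * ∏ k, y z (w k) := by
          rw [Finset.mul_sum]
          apply Finset.sum_congr rfl
          intro z _
          rw [hw]; ring
      _ = 0 := by rw [h2, mul_zero]

theorem RelS_eq_bot (np : ∀ z w, z ≠ w → ∃ i j, y z i * y w j ≠ y z j * y w i)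
    (nz : ∀ z, ∃ i, y z i ≠ 0) {t : ℕ} (ht : Fintype.card ι ≤ t + 1) : RelS y t = ⊥ := by
  rw [eq_bot_iff]
  intro c hc
  rw [mem_RelS_iff] at hc
  rw [Submodule.mem_bot]
  by_contra hne
  obtain ⟨z0, hz0⟩ := Function.ne_iff.1 hne
  have := hc.card_le Finset.univ (fun z hz => absurd (Finset.mem_univ z) hz) z0 hz0 (nz z0)
    (fun z _ hz => np z z0 hz)
  rw [Finset.card_univ] at this
  omega

theorem CI.ne_zero_left (h : CI y F G a b) (hb : 1 ≤ b) : F ≠ 0 := by
  rintro rfl
  have h1 : IsUnit G := h.isRelPrime (dvd_zero _) dvd_rfl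
  have h2 : G ≠ 0 := h1.ne_zero
  have h3 := h.hG.totalDegree h2
  have h4 : G.totalDegree = 0 := by
    obtain ⟨r, _, hr⟩ := (isUnit_iff_eq_C_of_isReduced).1 h1
    rw [hr, totalDegree_C]
  omega

omit [Fintype ι] in
theorem CI.symm (h : CI y F G a b) : CI y G F b a where
  hF := h.hG
  hG := h.hF
  hI := fun f d hf => by rw [h.hI f d hf, Ideal.span_pair_comm]
  np := h.np
  nz := h.nz

theorem CI.card_le (h : CI y F G a b) (ha : 1 ≤ a) (hb : 1 ≤ b) : Fintype.card ι ≤ a * b := by
  have hF0 : F ≠ 0 := h.ne_zero_left hb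
  have hG0 : G ≠ 0 := h.symm.ne_zero_left ha
  set n := Fintype.card ι with hn
  set t := a + b + n with ht
  have h1 := finrank_RelS (y := y) t
  rw [RelS_eq_bot h.np h.nz (by omega : Fintype.card ι ≤ t + 1), finrank_bot, add_zero] at h1
  have h2 := finrank_K (y := y) t
  rw [h1, h.K_eq] at h2
  have h3 := LinearMap.finrank_range_add_finrank_ker (Phi F G (P a t) (P b t))
  rw [Module.finrank_prod] at h3
  have h4 : Module.finrank ℂ (LinearMap.ker (Phi F G (P a t) (P b t)))
      ≤ Module.finrank ℂ (S n) := by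
    set L : (P a t × P b t) →ₗ[ℂ] R := (P a t).subtype.comp (LinearMap.fst ℂ _ _) with hL
    have hinj : Function.Injective
        (L.domRestrict (LinearMap.ker (Phi F G (P a t) (P b t)))) := by
      refine (injective_iff_map_eq_zero _).2 ?_
      rintro ⟨x, hx⟩ hx2
      rw [LinearMap.mem_ker, Phi_apply] at hx
      have hx3 : (x.1 : R) = 0 := hx2
      rw [hx3, zero_mul, zero_add] at hx
      have hx4 : (x.2 : R) = 0 := by
        rcases mul_eq_zero.1 hx with h5 | h5
        · exact h5
        · exact absurd h5 hG0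
      apply Subtype.ext
      apply Prod.ext
      · exact Subtype.ext hx3
      · exact Subtype.ext hx4
    have hle : LinearMap.range (L.domRestrict (LinearMap.ker (Phi F G (P a t) (P b t))))
        ≤ (S n).map (LinearMap.mulRight ℂ G) := by
      rintro _ ⟨⟨x, hx⟩, rfl⟩
      rw [LinearMap.mem_ker, Phi_apply] at hx
      have hdvd : G ∣ (x.1 : R) := by
        have h5 : G ∣ (x.1 : R) * F := by
          refine ⟨-(x.2 : R), ?_⟩
          linear_combination hx
        exact h.isRelPrime.symm.dvd_of_dvd_mul_right h5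
      obtain ⟨Q, hQ⟩ := hdvd
      refine ⟨homogeneousComponent n Q, homogeneousComponent_isHomogeneous _ _, ?_⟩
      have h6 : (x.1 : R).IsHomogeneous (b + n) := by
        have h9 : t - a = b + n := by omega
        rw [← h9]
        exact (mem_P (by omega)).1 x.1.2
      have h10 := homogeneousComponent_eq_self h6
      rw [hQ, mul_comm, hc_mul h.hG, if_pos (by omega)] at h10
      have h11 : b + n - b = n := by omega
      rw [h11] at h10
      change homogeneousComponent n Q * G = (x.1 : R)
      rw [h10, hQ, mul_comm]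
    rw [← LinearMap.finrank_range_of_inj hinj]
    exact (Submodule.finrank_mono hle).trans (Submodule.finrank_map_le _ _)
  have h5 := two_mul_finrank_S t
  have h6 := two_mul_finrank_S n
  have h7 := two_mul_finrank_P a t
  have h8 := two_mul_finrank_P b t
  have h9 : t + 1 - a = b + n + 1 := by omega
  have h10 : t + 2 - a = b + n + 2 := by omega
  have h11 : t + 1 - b = a + n + 1 := by omega
  have h12 : t + 2 - b = a + n + 2 := by omega
  rw [h9, h10] at h7
  rw [h11, h12] at h8
  have h13 : (t + 1) * (t + 2) + (n + 1) * (n + 2)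
      = (b + n + 1) * (b + n + 2) + (a + n + 1) * (a + n + 2) + 2 * (a * b) := by
    rw [ht]; ring
  omega

theorem CI.finrank_RelS_le (h : CI y F G a b) (ha : 2 ≤ a) (hb : 2 ≤ b) {e : ℕ}
    (he : e + 3 = a + b) : Module.finrank ℂ (RelS y e) ≤ 1 := by
  have h0 := h.card_le (by omega) (by omega)
  have h1 := finrank_RelS (y := y) e
  have h2 := finrank_K (y := y) e
  have h3 := h.finrank_K_le e
  have h5 := two_mul_finrank_S e
  have h7 := two_mul_finrank_P a e
  have h8 := two_mul_finrank_P b e
  obtain ⟨a, rfl⟩ := Nat.exists_eq_add_of_le' ha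
  obtain ⟨b, rfl⟩ := Nat.exists_eq_add_of_le' hb
  have he' : e = a + b + 1 := by omega
  subst he'
  have h9 : a + b + 1 + 1 - (a + 2) = b := by omega
  have h10 : a + b + 1 + 2 - (a + 2) = b + 1 := by omega
  have h11 : a + b + 1 + 1 - (b + 2) = a := by omega
  have h12 : a + b + 1 + 2 - (b + 2) = a + 1 := by omega
  rw [h9, h10] at h7
  rw [h11, h12] at h8
  have h13 : (a + b + 1 + 1) * (a + b + 1 + 2) + 2
      = b * (b + 1) + a * (a + 1) + 2 * ((a + 2) * (b + 2)) := by
    ring
  omega

theorem CI.finrank_RelS_le3 (h : CI y F G a b) (ha : 2 ≤ a) (hb : 2 ≤ b) {e : ℕ}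
    (he : e + 4 = a + b) : Module.finrank ℂ (RelS y e) ≤ 3 := by
  have h0 := h.card_le (by omega) (by omega)
  have h1 := finrank_RelS (y := y) e
  have h2 := finrank_K (y := y) e
  have h3 := h.finrank_K_le e
  have h5 := two_mul_finrank_S e
  have h7 := two_mul_finrank_P a e
  have h8 := two_mul_finrank_P b e
  obtain ⟨a, rfl⟩ := Nat.exists_eq_add_of_le' ha
  obtain ⟨b, rfl⟩ := Nat.exists_eq_add_of_le' hb
  have he' : e = a + b := by omega
  subst he'
  have h9 : a + b + 1 - (a + 2) = b - 1 := by omega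
  have h10 : a + b + 2 - (a + 2) = b := by omega
  have h11 : a + b + 1 - (b + 2) = a - 1 := by omega
  have h12 : a + b + 2 - (b + 2) = a := by omega
  rw [h9, h10] at h7
  rw [h11, h12] at h8
  have h14 : ∀ k : ℕ, (k - 1) * k + k = k * k := by
    intro k
    cases k with
    | zero => rfl
    | succ k => simp only [Nat.add_sub_cancel]; ring
  have h15 := h14 a
  have h16 := h14 b
  have h13 : (a + b + 1) * (a + b + 2) + 6 + a + b
      = b * b + a * a + 2 * ((a + 2) * (b + 2)) := by
    ring
  omega

end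

end Pool.Agent.Work.MP_31dc3b_ag
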