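import Pool.Agent.Work.MP_31dc3b_ag.CI2

/-!
The Cayley-Bacharach property of a reduced plane complete intersection.
-/

set_option autoImplicit false

open MvPolynomial

namespace Pool.Agent.Work.MP_31dc3b_ag

section
variable {ι : Type*} [Fintype ι] {y : ι → Fin 3 → ℂ} {F G : R} {a b : ℕ}

theorem linf_isRelPrime {u v : Fin 3 → ℂ} (hu : u ≠ 0) (hv : v ≠ 0)
    (h : ∀ c d : ℂ, c ≠ 0 → d ≠ 0 → ¬ ∀ i, c * u i = d * v i) : IsRelPrime (linf u) (linf v) := by
  intro d hd1 hd2
  by_contra hd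
  have hd0 : d ≠ 0 := by
    rintro rfl
    rw [zero_dvd_iff] at hd1
    exact linf_ne hu hd1
  obtain ⟨p, hp, hpd⟩ := WfDvdMonoid.exists_irreducible_factor hd hd0
  obtain ⟨c1, hc1, h1⟩ := eq_C_mul_of_dvd hp (linf_ne hu) (linf_hom u).totalDegree_le
    (hpd.trans hd1)
  obtain ⟨c2, hc2, h2⟩ := eq_C_mul_of_dvd hp (linf_ne hv) (linf_hom v).totalDegree_le
    (hpd.trans hd2)
  apply h c2 c1 hc2 hc1
  intro i
  have h3 := congrArg (eval (Pi.single i 1)) h1
  have h4 := congrArg (eval (Pi.single i 1)) h2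
  rw [eval_linf, map_mul, eval_C] at h3 h4
  simp only [Pi.single_apply, mul_ite, mul_one, mul_zero, Finset.sum_ite_eq',
    Finset.mem_univ, if_true] at h3 h4
  rw [h3, h4]; ring

theorem CI.exists_rel (h : CI y F G a b) (ha : 2 ≤ a) (hb : 2 ≤ b) {e : ℕ}
    (he : e + 3 = a + b) (z0 : ι) : ∃ c ∈ RelS y e, c z0 ≠ 0 := by
  classical
  by_contra hcon
  push Not at hcon
  have hF0 : F ≠ 0 := h.ne_zero_left (by omega)
  have hG0 : G ≠ 0 := h.symm.ne_zero_left (by omega)
  -- the coordinate vector is a value vector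
  have h1 : (Pi.single z0 1 : ι → ℂ) ∈ (S e).map (EV y) := by
    rw [← Subspace.forall_mem_dualAnnihilator_apply_eq_zero_iff]
    intro φ hφ
    have h2 : (dotProductEquiv ℂ ι).symm φ ∈ RelS y e := by
      unfold RelS
      rw [Submodule.mem_comap]
      have h3 : (dotProductEquiv ℂ ι).toLinearMap ((dotProductEquiv ℂ ι).symm φ) = φ :=
        (dotProductEquiv ℂ ι).apply_symm_apply φ
      rw [h3]
      exact hφ
    have h4 := hcon _ h2
    have h5 : φ = dotProductEquiv ℂ ι ((dotProductEquiv ℂ ι).symm φ) :=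
      ((dotProductEquiv ℂ ι).apply_symm_apply φ).symm
    rw [h5]
    rw [dotProductEquiv_apply_apply]
    rw [dotProduct_single, h4, zero_mul]
  obtain ⟨f, hf, hfe⟩ := h1
  have hf0 : ∀ z, eval (y z) f = if z = z0 then 1 else 0 := by
    intro z
    rw [← EV_apply, hfe, Pi.single_apply]
  obtain ⟨i, hi⟩ := h.nz z0
  have hjk : ∀ i : Fin 3, ∃ j k : Fin 3, j ≠ i ∧ k ≠ i ∧ j ≠ k := by decide
  obtain ⟨j, k, hji, hki, hjk⟩ := hjk i
  set u : Fin 3 → ℂ := Pi.single j (y z0 i) - Pi.single i (y z0 j) with hu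
  set v : Fin 3 → ℂ := Pi.single k (y z0 i) - Pi.single i (y z0 k) with hv
  have huj : u j = y z0 i := by simp [hu, hji]
  have hvj : v j = 0 := by simp [hv, hji, hjk]
  have hvk : v k = y z0 i := by simp [hv, hki]
  have hu0 : u ≠ 0 := by
    intro h0; rw [h0] at huj; exact hi huj.symm
  have hv0 : v ≠ 0 := by
    intro h0; rw [h0] at hvk; exact hi hvk.symm
  have hrp : IsRelPrime (linf u) (linf v) := by
    apply linf_isRelPrime hu0 hv0
    intro c d hc hd hcd
    have := hcd j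
    rw [huj, hvj, mul_zero] at this
    rcases mul_eq_zero.1 this with h2 | h2
    · exact hc h2
    · exact hi h2
  have huv : ∑ l, u l * y z0 l = 0 := by
    simp only [hu, Pi.sub_apply, sub_mul, Finset.sum_sub_distrib, Pi.single_apply, ite_mul,
      zero_mul, Finset.sum_ite_eq', Finset.mem_univ, if_true]
    ring
  have hvv : ∑ l, v l * y z0 l = 0 := by
    simp only [hv, Pi.sub_apply, sub_mul, Finset.sum_sub_distrib, Pi.single_apply, ite_mul,
      zero_mul, Finset.sum_ite_eq', Finset.mem_univ, if_true]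
    ring
  have hmem : ∀ w : Fin 3 → ℂ, ∑ l, w l * y z0 l = 0 →
      ∃ A ∈ P a (1 + e), ∃ B ∈ P b (1 + e), A * F + B * G = linf w * f := by
    intro w hw
    have hh : (linf w * f).IsHomogeneous (1 + e) := (linf_hom w).mul hf
    apply exists_decomp h.hF h.hG hh
    rw [← h.hI _ _ hh]
    intro z
    rw [map_mul, hf0]
    split_ifs with hz
    · rw [hz, eval_linf, hw, zero_mul]
    · rw [mul_zero]
  obtain ⟨A1, hA1, B1, hB1, h1⟩ := hmem u huv
  obtain ⟨A2, hA2, B2, hB2, h2⟩ := hmem v hvv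
  rw [mem_P (by omega)] at hA1 hA2
  rw [mem_P (by omega)] at hB1 hB2
  have key : (linf v * A1 - linf u * A2) * F + (linf v * B1 - linf u * B2) * G = 0 := by
    linear_combination linf v * h1 - linf u * h2
  have hX : linf v * A1 - linf u * A2 = 0 := by
    by_contra hX0
    have hdvd : G ∣ linf v * A1 - linf u * A2 := by
      have h3 : G ∣ (linf v * A1 - linf u * A2) * F :=
        ⟨-(linf v * B1 - linf u * B2), by linear_combination key⟩
      exact h.isRelPrime.symm.dvd_of_dvd_mul_right h3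
    have hXh : (linf v * A1 - linf u * A2).IsHomogeneous (1 + (1 + e - a)) :=
      ((linf_hom v).mul hA1).sub ((linf_hom u).mul hA2)
    have hXd := hXh.totalDegree hX0
    obtain ⟨Q, hQ⟩ := hdvd
    have hQ0 : Q ≠ 0 := by
      rintro rfl
      rw [mul_zero] at hQ
      exact hX0 hQ
    rw [hQ, totalDegree_mul_of_isDomain hG0 hQ0, h.hG.totalDegree hG0] at hXd
    omega
  have hY : linf v * B1 - linf u * B2 = 0 := by
    rw [hX, zero_mul, zero_add] at key
    rcases mul_eq_zero.1 key with h3 | h3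
    · exact h3
    · exact absurd h3 hG0
  have hA : linf u ∣ A1 := by
    have h3 : linf u ∣ linf v * A1 := ⟨A2, by linear_combination hX⟩
    exact hrp.dvd_of_dvd_mul_left h3
  have hB : linf u ∣ B1 := by
    have h3 : linf u ∣ linf v * B1 := ⟨B2, by linear_combination hY⟩
    exact hrp.dvd_of_dvd_mul_left h3
  obtain ⟨A, rfl⟩ := hA
  obtain ⟨B, rfl⟩ := hB
  have hff : f = A * F + B * G := by
    apply mul_left_cancel₀ (linf_ne hu0)
    linear_combination -h1
  have hfI : f ∈ Ideal.span {F, G} := Ideal.mem_span_pair.2 ⟨A, B, hff.symm⟩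
  have := (h.hI f e hf).2 hfI z0
  rw [hf0, if_pos rfl] at this
  exact one_ne_zero this

/-- Nonzero relations of degree `a + b - 3` involve all the points. -/
theorem CI.rel_full (h : CI y F G a b) (ha : 2 ≤ a) (hb : 2 ≤ b) {e : ℕ}
    (he : e + 3 = a + b) {c : ι → ℂ} (hc : Rel e y c) (hc0 : c ≠ 0) (z0 : ι) : c z0 ≠ 0 := by
  intro hz
  obtain ⟨d, hd, hdz⟩ := h.exists_rel ha hb he z0
  have hle := h.finrank_RelS_le ha hb he
  have hc' : c ∈ RelS y e := mem_RelS_iff.2 hc
  obtain ⟨v, hv⟩ := finrank_le_one_iff.1 hle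
  obtain ⟨x, hx⟩ := hv ⟨c, hc'⟩
  obtain ⟨x', hx'⟩ := hv ⟨d, hd⟩
  have h1 : x • (v : ι → ℂ) = c := congrArg Subtype.val hx
  have h2 : x' • (v : ι → ℂ) = d := congrArg Subtype.val hx'
  have hvz : (v : ι → ℂ) z0 ≠ 0 := by
    intro h0
    apply hdz
    rw [← h2, Pi.smul_apply, h0, smul_zero]
  rw [← h1, Pi.smul_apply, smul_eq_mul] at hz
  rcases mul_eq_zero.1 hz with h3 | h3
  · apply hc0
    rw [← h1, h3, zero_smul]
  · exact hvz h3

/-- Any four relations of degree `a + b - 4` are dependent. -/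
theorem CI.rel_dep (h : CI y F G a b) (ha : 2 ≤ a) (hb : 2 ≤ b) {e : ℕ}
    (he : e + 4 = a + b) (V : Fin 4 → ι → ℂ) (hV : ∀ k, Rel e y (V k)) :
    ∃ g : Fin 4 → ℂ, g ≠ 0 ∧ ∀ z, ∑ k, g k * V k z = 0 := by
  have hle := h.finrank_RelS_le3 ha hb he
  set W : Fin 4 → RelS y e := fun k => ⟨V k, mem_RelS_iff.2 (hV k)⟩ with hW
  have hnl : ¬ LinearIndependent ℂ W := by
    intro hl
    have := hl.fintype_card_le_finrank
    simp at this
    omega
  obtain ⟨g, hg, k, hk⟩ := Fintype.not_linearIndependent_iff.1 hnl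
  refine ⟨g, ?_, ?_⟩
  · rintro rfl; exact hk rfl
  · intro z
    have h1 := congrArg (fun w : RelS y e => (w : ι → ℂ) z) hg
    simpa [hW] using h1

end

end Pool.Agent.Work.MP_31dc3b_ag
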