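import Pool.Agent.Work.MP_31dc3b_ag.Mult3

/-!
Counting points on the planes through a point.
-/

set_option autoImplicit false

open MvPolynomial

namespace Pool.Agent.Work.MP_31dc3b_ag

theorem union_count {κ ι : Type*} [DecidableEq κ] [DecidableEq ι] (S : κ → Finset ι) (m : ℕ)
    (A : Finset κ) (h1 : ∀ p ∈ A, m ≤ (S p).card)
    (h2 : ∀ p ∈ A, ∀ p' ∈ A, p ≠ p' → (S p ∩ S p').card ≤ 1) :
    2 * m * A.card ≤ 2 * (A.biUnion S).card + A.card * (A.card - 1) := by
  induction A using Finset.induction_on with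
  | empty => simp
  | insert p A hp ih =>
    have ih' := ih (fun p' hp' => h1 p' (Finset.mem_insert_of_mem hp'))
      (fun p1 hp1 p2 hp2 => h2 p1 (Finset.mem_insert_of_mem hp1) p2 (Finset.mem_insert_of_mem hp2))
    have hm := h1 p (Finset.mem_insert_self _ _)
    rw [Finset.biUnion_insert, Finset.card_insert_of_notMem hp, Nat.add_sub_cancel]
    have h3 : (S p ∩ A.biUnion S).card ≤ A.card := by
      rw [Finset.inter_biUnion]
      refine (Finset.card_biUnion_le).trans ?_
      calc ∑ p' ∈ A, (S p ∩ S p').card ≤ ∑ _p' ∈ A, 1 := by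
            apply Finset.sum_le_sum
            intro p' hp'
            apply h2 p (Finset.mem_insert_self _ _) p' (Finset.mem_insert_of_mem hp')
            rintro rfl
            exact hp hp'
        _ = A.card := by simp
    have h4 := Finset.card_union_add_card_inter (S p) (A.biUnion S)
    have h5 : A.card * (A.card - 1) + A.card = A.card * A.card := by
      cases A.card with
      | zero => rfl
      | succ n => simp only [Nat.add_sub_cancel]; ring
    have h6 : 2 * m * (A.card + 1) = 2 * m * A.card + 2 * m := by ring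
    have h7 : (A.card + 1) * A.card = A.card * A.card + A.card := by ring
    rw [h6, h7]
    omega

section
variable {ι : Type*} [Fintype ι] {Z : ι → Fin 4 → ℂ} {e : ℕ} {H : R}
  {r : ι → R} {a0 : R} {b : Fin 4 → R}
variable {s : Finset R} {k : ℂ} {q : R → Fin 4 → ℂ} {c : R → ℕ}

/-- A configuration without collinear triples is large. -/
theorem Conf.card_ge (h : Conf Z e H) (two : ∀ z : ι, ∃ w, w ≠ z) :
    (e + 2) * (e + 3) + 2 ≤ 2 * Fintype.card ι := by
  classical
  obtain ⟨r, a0, b, d⟩ := h.exists_data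
  obtain ⟨s, k, q, c, P⟩ := h.exists_planes d two
  -- a point at finite distance
  have hex : ∃ z, Z z (Fin.last 3) ≠ 0 := by
    by_contra hcon
    push Not at hcon
    have h1 : (Pi.single (Fin.last 3) 1 : Fin 4 → ℂ) = 0 := by
      apply h.span
      intro z
      rw [← hcon z]
      simp [Pi.single_apply]
    have := congrFun h1 (Fin.last 3)
    simp at this
  obtain ⟨z, hz⟩ := hex
  obtain ⟨n, _, _, hn⟩ := P.shape h d z
  have hn := hn hz
  set A := s.filter (fun p => dt (q p) (Z z) = 0) with hA
  have hsum : ∑ p ∈ A, c p = A.card := by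
    rw [Finset.card_eq_sum_ones]
    apply Finset.sum_congr rfl
    intro p hp
    exact P.mult_one h d two (Finset.mem_filter.1 hp).1
  rw [hsum] at hn
  have hAcard : e + 3 ≤ A.card := by omega
  obtain ⟨A', hA'A, hA'c⟩ := Finset.exists_subset_card_eq hAcard
  let S : R → Finset ι := fun p => (Finset.univ.filter (fun w => ¬ p ∣ r w)).erase z
  have hS1 : ∀ p ∈ A', e + 2 ≤ (S p).card := by
    intro p hp
    have hps := (Finset.mem_filter.1 (hA'A hp)).1
    have h1 := P.card p hps (Finset.univ.filter (fun w => ¬ p ∣ r w)) (by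
      intro w hw
      simpa using hw)
    have h2 := Finset.pred_card_le_card_erase (s := Finset.univ.filter (fun w => ¬ p ∣ r w))
      (a := z)
    simp only [S]
    omega
  have hS2 : ∀ p ∈ A', ∀ p' ∈ A', p ≠ p' → (S p ∩ S p').card ≤ 1 := by
    intro p hp p' hp' hne
    have hp1 := Finset.mem_filter.1 (hA'A hp)
    have hp1' := Finset.mem_filter.1 (hA'A hp')
    by_contra hcon
    push Not at hcon
    obtain ⟨x, y, hx, hy, hxy⟩ := Finset.one_lt_card_iff.1 hcon
    simp only [S, Finset.mem_inter, Finset.mem_erase, Finset.mem_filter, Finset.mem_univ,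
      true_and] at hx hy
    obtain ⟨a, ha⟩ := prop_of_three (h.ind3 z x y hx.1.1.symm hy.1.1.symm hxy)
      hp1'.2 (P.dt_zero hp1'.1 hx.2.2) (P.dt_zero hp1'.1 hy.2.2)
      hp1.2 (P.dt_zero hp1.1 hx.1.2) (P.dt_zero hp1.1 hy.1.2) (P.q_ne hp1.1)
    exact P.not_prop hp1.1 hp1'.1 hne a ha
  have h1 := union_count S (e + 2) A' hS1 hS2
  rw [hA'c] at h1
  have h2 : (A'.biUnion S).card ≤ Fintype.card ι - 1 := by
    have h3 : A'.biUnion S ⊆ Finset.univ.erase z := by
      intro w hw
      rw [Finset.mem_biUnion] at hw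
      obtain ⟨p, _, hw⟩ := hw
      simp only [S] at hw
      exact Finset.mem_erase.2 ⟨Finset.ne_of_mem_erase hw, Finset.mem_univ w⟩
    have h4 := Finset.card_le_card h3
    rwa [Finset.card_erase_of_mem (Finset.mem_univ z), Finset.card_univ] at h4
  have h3 : 0 < Fintype.card ι := Fintype.card_pos_iff.2 ⟨z⟩
  have h4 : e + 3 - 1 = e + 2 := by omega
  rw [h4] at h1
  have h5 : 2 * (e + 2) * (e + 3) = (e + 2) * (e + 3) + (e + 3) * (e + 2) := by ring
  rw [h5] at h1
  omega

end

end Pool.Agent.Work.MP_31dc3b_ag
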