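import Pool.Agent.Work.MP_31dc3b_ag.Val

/-!
Degrees and the derivations `Dz`.
-/

set_option autoImplicit false

open MvPolynomial

namespace Pool.Agent.Work.MP_31dc3b_ag

theorem coeff_X_mul_pderiv (n : R) (i : Fin 3) (m : Fin 3 →₀ ℕ) :
    coeff m (X i * pderiv i n) = (m i : ℂ) * coeff m n := by
  classical
  rw [coeff_X_mul']
  split_ifs with h
  · rw [Finsupp.mem_support_iff] at h
    have hle : Finsupp.single i 1 ≤ m := by
      rw [Finsupp.single_le_iff]; omega
    obtain ⟨m', rfl⟩ := exists_add_of_le hle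
    rw [add_tsub_cancel_left, coeff_pderiv, add_comm m', mul_comm]
    simp [add_comm]
  · rw [Finsupp.notMem_support_iff] at h
    rw [h]; simp

theorem coeff_Dz (v : Fin 4 → ℂ) (n : R) (m : Fin 3 →₀ ℕ) :
    coeff m (Dz v n) = ∑ i : Fin 3, v i.castSucc *
        (coeff (m + Finsupp.single i 1) n * ((m i : ℂ) + 1))
      - v (Fin.last 3) * ((m.degree : ℂ) * coeff m n) := by
  rw [Dz_apply, coeff_sum]
  have h1 : ∀ i : Fin 3, coeff m (zb v i * pderiv i n)
      = v i.castSucc * (coeff (m + Finsupp.single i 1) n * ((m i : ℂ) + 1))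
        - v (Fin.last 3) * ((m i : ℂ) * coeff m n) := by
    intro i
    rw [zb, sub_mul, coeff_sub, coeff_C_mul, coeff_pderiv, mul_assoc, coeff_C_mul,
      coeff_X_mul_pderiv]
  simp_rw [h1]
  rw [Finset.sum_sub_distrib, ← Finset.mul_sum, ← Finset.sum_mul]
  congr 3
  rw [Finsupp.degree_eq_sum]
  push_cast
  rfl

theorem coeff_eq_zero_of_lt {n : R} {m : Fin 3 →₀ ℕ} (h : n.totalDegree < m.degree) :
    coeff m n = 0 := by
  apply coeff_eq_zero_of_totalDegree_lt
  rwa [Finsupp.degree_apply] at h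

theorem totalDegree_Dz_le (v : Fin 4 → ℂ) (n : R) : (Dz v n).totalDegree ≤ n.totalDegree := by
  rw [totalDegree]
  apply Finset.sup_le
  intro m hm
  by_contra hlt
  push Not at hlt
  rw [mem_support_iff] at hm
  apply hm
  have hd : n.totalDegree < m.degree := by
    rw [Finsupp.degree_apply]; exact hlt
  rw [coeff_Dz, coeff_eq_zero_of_lt hd]
  have h1 : ∀ i : Fin 3, coeff (m + Finsupp.single i 1) n = 0 := by
    intro i
    apply coeff_eq_zero_of_lt
    rw [map_add, Finsupp.degree_single]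
    omega
  simp [h1]

theorem totalDegree_of_Dz_eq {v : Fin 4 → ℂ} {n : R} (hn : n ≠ 0) {k : ℂ}
    (h : Dz v n = C (v (Fin.last 3) * k) * n) (hv : v (Fin.last 3) ≠ 0) :
    k + (n.totalDegree : ℂ) = 0 := by
  have hne : n.support.Nonempty := by
    rwa [Finset.nonempty_iff_ne_empty, Ne, support_eq_empty]
  obtain ⟨m, hm, hmd⟩ := Finset.exists_mem_eq_sup n.support hne
    (fun s => s.sum fun _ e => e)
  have hd : m.degree = n.totalDegree := by
    rw [Finsupp.degree_apply]; exact hmd.symm
  rw [mem_support_iff] at hm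
  have h1 := congrArg (coeff m) h
  rw [coeff_Dz, coeff_C_mul] at h1
  have h2 : ∀ i : Fin 3, coeff (m + Finsupp.single i 1) n = 0 := by
    intro i
    apply coeff_eq_zero_of_lt
    rw [map_add, Finsupp.degree_single]
    omega
  simp only [h2, zero_mul, mul_zero, Finset.sum_const_zero, zero_sub] at h1
  rw [hd] at h1
  have h3 : v (Fin.last 3) * coeff m n * (k + (n.totalDegree : ℂ)) = 0 := by
    linear_combination -h1
  rcases mul_eq_zero.1 h3 with h4 | h4
  · exact absurd h4 (mul_ne_zero hv hm)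
  · exact h4

end Pool.Agent.Work.MP_31dc3b_ag
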