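import Pool.Agent.Work.MP_31dc3b_ag.Count

/-!
From the geproci hypothesis to the abstract configuration, and the numerical conclusion.
-/

set_option autoImplicit false

open MvPolynomial

namespace Pool.Agent.Work.MP_31dc3b_ag

theorem eval_smul_hom {f : R} {d : ℕ} (hf : f.IsHomogeneous d) (t : ℂ) (x : Fin 3 → ℂ) :
    eval (t • x) f = t ^ d * eval x f := by
  rw [eval_eq', eval_eq', Finset.mul_sum]
  apply Finset.sum_congr rfl
  intro m hm
  have hd : m.degree = d := by
    by_contra hne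
    exact (mem_support_iff.1 hm) (hf.coeff_eq_zero hne)
  have h1 : ∏ i, (t • x) i ^ m i = t ^ d * ∏ i, x i ^ m i := by
    simp only [Pi.smul_apply, smul_eq_mul, mul_pow, Finset.prod_mul_distrib]
    rw [Finset.prod_pow_eq_pow_sum, ← hd, Finsupp.degree_eq_sum]
  rw [h1]; ring

section
variable {ι : Type*} [Fintype ι] {y : ι → Fin 3 → ℂ} {F G : R} {a b : ℕ}

omit [Fintype ι] in
theorem CI.not_isUnit_left [Nonempty ι] (h : CI y F G a b) : ¬ IsUnit F := by
  intro hu
  obtain ⟨z⟩ := ‹Nonempty ι›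
  have h1 : (1 : R) ∈ Ideal.span {F, G} := by
    have h2 : Ideal.span {F, G} = ⊤ :=
      Ideal.eq_top_of_isUnit_mem _ (Ideal.subset_span (by simp)) hu
    rw [h2]; trivial
  have h3 := (h.hI 1 0 (isHomogeneous_one _ _)).2 h1 z
  rw [map_one] at h3
  exact one_ne_zero h3

theorem CI.one_le_left [Nonempty ι] (h : CI y F G a b) : 1 ≤ a := by
  by_contra hcon
  have ha : a = 0 := by omega
  subst ha
  have h1 : F.totalDegree = 0 := (totalDegree_zero_iff_isHomogeneous _).2 h.hF
  rw [totalDegree_eq_zero_iff_eq_C] at h1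
  by_cases h0 : coeff 0 F = 0
  · rw [h0, map_zero] at h1
    apply h.symm.not_isUnit_left
    exact h.isRelPrime (by rw [h1]; exact dvd_zero _) dvd_rfl
  · apply h.not_isUnit_left
    rw [h1]
    exact (isUnit_iff_ne_zero.2 h0).map C

end

theorem exists_kill (v : Fin 4 → ℂ) : ∃ c : Fin 4 → ℂ, c ≠ 0 ∧ ∑ i, c i * v i = 0 := by
  by_cases h0 : v 0 = 0
  · refine ⟨Pi.single 0 1, ?_, ?_⟩
    · intro h
      have := congrFun h 0
      simp at this
    · simp [Pi.single_apply, h0]
  · refine ⟨Pi.single 0 (v 1) - Pi.single 1 (v 0), ?_, ?_⟩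
    · intro h
      have := congrFun h 1
      simp at this
      exact h0 this
    · simp only [Pi.sub_apply, sub_mul, Finset.sum_sub_distrib, Pi.single_apply, ite_mul,
        zero_mul, Finset.sum_ite_eq', Finset.mem_univ, if_true]
      ring

theorem hom_one {F : R} (hF : F.IsHomogeneous 1) : ∃ u, F = linf u := by
  have h1 : F ∈ homogeneousSubmodule (Fin 3) ℂ 1 := hF
  rw [homogeneousSubmodule_one_eq_span_X, Submodule.mem_span_range_iff_exists_fun] at h1
  obtain ⟨u, hu⟩ := h1
  refine ⟨u, ?_⟩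
  rw [← hu, linf]
  apply Finset.sum_congr rfl
  intro i _
  rw [smul_eq_C_mul]

/-- The numerical conclusion for a nondegenerate geproci configuration without collinear
triples. -/
theorem main_numeric {ι : Type*} [Fintype ι] (Z : ι → Fin 4 → ℂ) (a b : ℕ) (h : R) (h0 : h ≠ 0)
    (hgep : ∀ p : Fin 3 → ℂ, eval p h ≠ 0 →
      ∃ F G : R, F.IsHomogeneous a ∧ G.IsHomogeneous b ∧
        ∀ f : R, ((∀ z : ι, ∀ t : ℂ,
          eval (t • (fun i : Fin 3 => Z z (Fin.castSucc i) - Z z (Fin.last 3) * p i)) f = 0) ↔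
          f ∈ Ideal.span {F, G}))
    (hspan : ∀ c : Fin 4 → ℂ, (∀ z, ∑ i, c i * Z z i = 0) → c = 0)
    (ind2 : ∀ x y : ι, x ≠ y → LinearIndependent ℂ ![Z x, Z y])
    (ind3 : ∀ x y w : ι, x ≠ y → x ≠ w → y ≠ w → LinearIndependent ℂ ![Z x, Z y, Z w]) :
    Fintype.card ι ≤ 4 := by
  classical
  have hne : Nonempty ι := by
    by_contra hcon
    rw [not_nonempty_iff] at hcon
    have h1 : (Pi.single 0 1 : Fin 4 → ℂ) = 0 := hspan _ (fun z => isEmptyElim z)
    have := congrFun h1 0
    simp at this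
  have two : ∀ z : ι, ∃ w, w ≠ z := by
    intro z
    by_contra hcon
    push Not at hcon
    obtain ⟨c, hc0, hc⟩ := exists_kill (Z z)
    exact hc0 (hspan c (fun w => by rw [hcon w]; exact hc))
  -- the enlarged discriminant
  have hminor : ∀ z w : ι, z ≠ w → ∃ i j : Fin 3,
      zb (Z z) i * zb (Z w) j - zb (Z z) j * zb (Z w) i ≠ 0 := by
    intro z w hzw
    have hX : Irreducible (X 0 : R) := X_prime.irreducible
    obtain ⟨i, j, hij⟩ := exists_minor hX (ind2 z w hzw)
    exact ⟨i, j, fun h0 => hij (by rw [h0]; exact dvd_zero _)⟩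
  have hM : ∀ z w : ι, ∃ M : R, M ≠ 0 ∧ (z ≠ w → ∃ i j : Fin 3,
      M = zb (Z z) i * zb (Z w) j - zb (Z z) j * zb (Z w) i) := by
    intro z w
    by_cases hzw : z = w
    · exact ⟨1, one_ne_zero, fun h0 => absurd hzw h0⟩
    · obtain ⟨i, j, hij⟩ := hminor z w hzw
      exact ⟨_, hij, fun _ => ⟨i, j, rfl⟩⟩
  choose M hM0 hM1 using hM
  set H : R := h * ∏ z, ∏ w, M z w with hH
  have hH0 : H ≠ 0 := by
    apply mul_ne_zero h0
    rw [Finset.prod_ne_zero_iff]
    intro z _
    rw [Finset.prod_ne_zero_iff]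
    intro w _
    exact hM0 z w
  have hCI : ∀ p, eval p H ≠ 0 → ∃ F G : R,
      CI (fun (z : ι) i => eval p (zb (Z z) i)) F G a b := by
    intro p hp
    rw [hH, map_mul] at hp
    have hp1 := left_ne_zero_of_mul hp
    have hp2 := right_ne_zero_of_mul hp
    obtain ⟨F, G, hF, hG, hFG⟩ := hgep p hp1
    have hzb : ∀ z, (fun i : Fin 3 => Z z (Fin.castSucc i) - Z z (Fin.last 3) * p i)
        = fun i => eval p (zb (Z z) i) := by
      intro z
      funext i
      simp [zb]
    have np : ∀ z w : ι, z ≠ w → ∃ i j, eval p (zb (Z z) i) * eval p (zb (Z w) j)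
        ≠ eval p (zb (Z z) j) * eval p (zb (Z w) i) := by
      intro z w hzw
      obtain ⟨i, j, hij⟩ := hM1 z w hzw
      refine ⟨i, j, fun heq => ?_⟩
      rw [map_prod, Finset.prod_ne_zero_iff] at hp2
      have h1 := hp2 z (Finset.mem_univ z)
      rw [map_prod, Finset.prod_ne_zero_iff] at h1
      apply h1 w (Finset.mem_univ w)
      rw [hij, map_sub, map_mul, map_mul, heq, sub_self]
    refine ⟨F, G, hF, hG, ?_, np, ?_⟩
    · intro f d hf
      rw [← hFG f]
      constructor
      · intro h1 z t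
        rw [hzb, eval_smul_hom hf, h1 z, mul_zero]
      · intro h1 z
        have h2 := h1 z 1
        rw [hzb, one_smul] at h2
        exact h2
    · intro z
      obtain ⟨w, hw⟩ := two z
      obtain ⟨i, j, hij⟩ := np w z hw
      by_contra hcon
      push Not at hcon
      apply hij
      rw [hcon i, hcon j, mul_zero, mul_zero]
  -- degrees at least two
  obtain ⟨p0, hp0⟩ := exists_eval_ne hH0
  obtain ⟨F0, G0, hFG0⟩ := hCI p0 hp0
  have ha1 : 1 ≤ a := hFG0.one_le_left
  have hb1 : 1 ≤ b := hFG0.symm.one_le_left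
  have hdeg : ∀ (F : R), F ≠ 0 → F.IsHomogeneous 1 →
      (∀ z, eval (fun i => eval p0 (zb (Z z) i)) F = 0) → False := by
    intro F hF0 hF hz
    obtain ⟨u, rfl⟩ := hom_one hF
    set c : Fin 4 → ℂ := Fin.snoc (α := fun _ => ℂ) u (-∑ i, u i * p0 i) with hc
    have hc1 : ∀ i : Fin 3, c i.castSucc = u i :=
      fun i => Fin.snoc_castSucc (α := fun _ => ℂ) _ _ i
    have hc2 : c (Fin.last 3) = -∑ i, u i * p0 i := Fin.snoc_last (α := fun _ => ℂ) _ _
    have hc0 : c = 0 := by
      apply hspan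
      intro z
      have h1 := hz z
      rw [eval_linf] at h1
      rw [Fin.sum_univ_castSucc, hc2]
      simp only [hc1, zb, map_sub, map_mul, eval_C, eval_X, Fin.sum_univ_three] at h1 ⊢
      linear_combination h1
    apply hF0
    have hu : u = 0 := by
      funext i
      rw [← hc1, hc0]; rfl
    rw [hu]
    simp [linf]
  have ha2 : 2 ≤ a := by
    by_contra hcon
    have ha : a = 1 := by omega
    subst ha
    refine hdeg F0 (hFG0.ne_zero_left hb1) hFG0.hF ?_
    rw [hFG0.hI F0 1 hFG0.hF]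
    exact Ideal.subset_span (by simp)
  have hb2 : 2 ≤ b := by
    by_contra hcon
    have hb : b = 1 := by omega
    subst hb
    refine hdeg G0 (hFG0.symm.ne_zero_left ha1) hFG0.hG ?_
    rw [hFG0.hI G0 1 hFG0.hG]
    exact Ideal.subset_span (by simp)
  have hcard := hFG0.card_le ha1 hb1
  obtain ⟨a, rfl⟩ := Nat.exists_eq_add_of_le' ha2
  obtain ⟨b, rfl⟩ := Nat.exists_eq_add_of_le' hb2
  -- the configuration
  have hconf : Conf Z (a + b) H := by
    refine ⟨hH0, hspan, ind3, ind2, ?_, ?_, ?_⟩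
    · intro p hp
      obtain ⟨F, G, hFG⟩ := hCI p hp
      obtain ⟨z0⟩ := hne
      obtain ⟨c, hc, hcz⟩ := hFG.exists_rel ha2 hb2 (e := a + b + 1) (by omega) z0
      refine ⟨c, ?_, mem_RelS_iff.1 hc⟩
      rintro rfl
      exact hcz rfl
    · intro p hp c hc0 hc z
      obtain ⟨F, G, hFG⟩ := hCI p hp
      exact hFG.rel_full ha2 hb2 (e := a + b + 1) (by omega) hc hc0 z
    · intro p hp V hV
      obtain ⟨F, G, hFG⟩ := hCI p hp
      exact hFG.rel_dep ha2 hb2 (e := a + b) (by omega) V hV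
  have hge := hconf.card_ge two
  have hab : a = 0 ∧ b = 0 := by
    have h1 : (a + b + 2) * (a + b + 3) + 2 ≤ 2 * ((a + 2) * (b + 2)) := by omega
    constructor <;> nlinarith
  obtain ⟨rfl, rfl⟩ := hab
  simpa using hcard

end Pool.Agent.Work.MP_31dc3b_ag
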