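import Pool.Agent.Work.MP_31dc3b_ag.Basic

/-!
Linear algebra of ternary forms over the complex numbers.
-/

set_option autoImplicit false

open MvPolynomial

namespace Pool.Agent.Work.MP_31dc3b_ag

/-- Forms of degree `t` in three variables. -/
abbrev S (t : ℕ) : Submodule ℂ R := homogeneousSubmodule (Fin 3) ℂ t

noncomputable def equivS (t : ℕ) :
    S t ≃ₗ[ℂ] ((Finset.univ : Finset (Fin 3)).finsuppAntidiag t →₀ ℂ) :=
  (LinearEquiv.ofEq _ _ (homogeneousSubmodule_eq_finsupp_supported (Fin 3) ℂ t)).trans
  ((AddMonoidAlgebra.supportedEquivFinsupp (R := ℂ) (S := ℂ) _).trans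
  (Finsupp.domLCongr (Equiv.subtypeEquivRight (by
  intro d
  simp [Finsupp.degree_eq_sum]))))

theorem two_mul_finrank_S (t : ℕ) : 2 * Module.finrank ℂ (S t) = (t + 1) * (t + 2) := by
  rw [(equivS t).finrank_eq, Module.finrank_finsupp_self, Fintype.card_coe,
    Finset.card_finsuppAntidiag_nat_eq_choose]
  simp only [Finset.card_univ, Fintype.card_fin]
  have : 3 + t - 1 = t + 2 := by omega
  rw [this]
  have h2 : t ≤ t + 2 := by omega
  rw [← Nat.choose_symm h2]
  have : t + 2 - t = 2 := by omega
  rw [this, Nat.choose_two_right]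
  have h3 : (t + 2) * (t + 2 - 1) = (t + 1) * (t + 2) := by
    have : t + 2 - 1 = t + 1 := by omega
    rw [this]; ring
  rw [h3]
  exact Nat.mul_div_cancel' (even_iff_two_dvd.1 (Nat.even_mul_succ_self (t+1)))

instance (t : ℕ) : FiniteDimensional ℂ (S t) := Module.Finite.equiv (equivS t).symm

theorem hc_mul {F : R} {a : ℕ} (hF : F.IsHomogeneous a) (A : R) (t : ℕ) :
    homogeneousComponent t (A * F) = if a ≤ t then homogeneousComponent (t - a) A * F else 0 := by
  classical
  have h1 : A * F = ∑ i ∈ Finset.range (A.totalDegree + 1), homogeneousComponent i A * F := by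
    rw [← Finset.sum_mul, sum_homogeneousComponent]
  have h2 : ∀ i, homogeneousComponent t (homogeneousComponent i A * F)
      = if i + a = t then homogeneousComponent i A * F else 0 := by
    intro i
    have hm : (homogeneousComponent i A * F) ∈ homogeneousSubmodule (Fin 3) ℂ (i + a) :=
      (homogeneousComponent_isHomogeneous i A).mul hF
    rw [homogeneousComponent_of_mem hm]
    by_cases h : i + a = t
    · simp [h]
    · rw [if_neg h, if_neg (fun h' => h h'.symm)]
  conv_lhs => rw [h1, map_sum]
  simp_rw [h2]
  split_ifs with h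
  · by_cases h3 : t - a < A.totalDegree + 1
    · rw [Finset.sum_eq_single (t - a)]
      · rw [if_pos (by omega)]
      · intro i _ hi
        rw [if_neg (by omega)]
      · intro h4; exact absurd (Finset.mem_range.2 h3) h4
    · rw [homogeneousComponent_eq_zero (t - a) A (by omega), zero_mul]
      apply Finset.sum_eq_zero
      intro i hi
      rw [if_neg]
      have := Finset.mem_range.1 hi
      omega
  · apply Finset.sum_eq_zero
    intro i hi
    rw [if_neg (by omega)]

/-- The linear form with coefficient vector `u`. -/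
noncomputable def linf (u : Fin 3 → ℂ) : R := ∑ i, C (u i) * X i

theorem eval_linf (u x : Fin 3 → ℂ) : eval x (linf u) = ∑ i, u i * x i := by
  simp [linf]

theorem linf_hom (u : Fin 3 → ℂ) : (linf u).IsHomogeneous 1 := by
  unfold linf
  apply IsHomogeneous.sum
  intro i _
  exact isHomogeneous_C_mul_X _ _

theorem linf_ne {u : Fin 3 → ℂ} (hu : u ≠ 0) : linf u ≠ 0 := by
  intro h
  apply hu
  funext i
  have := congrArg (eval (Pi.single i 1)) h
  rw [eval_linf] at this
  simpa [Pi.single_apply] using this

theorem exists_eval_ne {q : R} (hq : q ≠ 0) : ∃ u, eval u q ≠ 0 := by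
  by_contra h
  push Not at h
  exact hq (MvPolynomial.funext (by simpa using h))

/-- Irreducible polynomials have positive degree. -/
theorem one_le_totalDegree {p : R} (hp : Irreducible p) : 1 ≤ p.totalDegree := by
  by_contra h
  have h0 : p.totalDegree = 0 := by omega
  rw [totalDegree_eq_zero_iff_eq_C] at h0
  apply hp.not_isUnit
  rw [h0]
  have : coeff 0 p ≠ 0 := by
    intro h1
    rw [h1, map_zero] at h0
    exact hp.ne_zero h0
  exact (isUnit_iff_ne_zero.2 this).map C

/-- An irreducible divisor of an affine-linear polynomial is proportional to it. -/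
theorem eq_C_mul_of_dvd {p f : R} (hp : Irreducible p) (hf : f ≠ 0) (hd : f.totalDegree ≤ 1)
    (h : p ∣ f) : ∃ c : ℂ, c ≠ 0 ∧ f = C c * p := by
  obtain ⟨k, rfl⟩ := h
  have hk : k ≠ 0 := by rintro rfl; simp at hf
  rw [totalDegree_mul_of_isDomain hp.ne_zero hk] at hd
  have := one_le_totalDegree hp
  have h0 : k.totalDegree = 0 := by omega
  rw [totalDegree_eq_zero_iff_eq_C] at h0
  refine ⟨coeff 0 k, ?_, ?_⟩
  · intro h1
    rw [h1, map_zero] at h0
    exact hk h0
  · rw [← h0, mul_comm]

theorem cross_eq_zero {u v : Fin 3 → ℂ} (h : crossProduct u v = 0) (i j : Fin 3) :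
    u i * v j = u j * v i := by
  rw [cross_apply] at h
  have h0 := congrFun h 0
  have h1 := congrFun h 1
  have h2 := congrFun h 2
  simp only [Matrix.cons_val_zero, Matrix.cons_val_one, Matrix.cons_val, Pi.zero_apply] at h0 h1 h2
  fin_cases i <;> fin_cases j <;> simp <;>
    first
    | linear_combination h0
    | linear_combination h1
    | linear_combination h2
    | linear_combination -h0
    | linear_combination -h1
    | linear_combination -h2

theorem dot_cross_left (u v : Fin 3 → ℂ) : ∑ i, crossProduct u v i * u i = 0 := by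
  rw [cross_apply]
  simp [Fin.sum_univ_three]
  ring

theorem dot_cross_right (u v : Fin 3 → ℂ) : ∑ i, crossProduct u v i * v i = 0 := by
  rw [cross_apply]
  simp [Fin.sum_univ_three]
  ring

end Pool.Agent.Work.MP_31dc3b_ag
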