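import Pool.Agent.Work.MP_31dc3b_ag.Forms

/-!
Generic linear dependence: if a matrix of polynomials has dependent columns at every
general point, then its columns are dependent over the polynomial ring.
-/

set_option autoImplicit false

open MvPolynomial

namespace Pool.Agent.Work.MP_31dc3b_ag

theorem exists_rel_of_generic {I J : Type*} [Fintype I] [Fintype J] (M : I → J → R) (h : R)
    (hh : h ≠ 0)
    (H : ∀ p : Fin 3 → ℂ, eval p h ≠ 0 →
      ∃ c : J → ℂ, c ≠ 0 ∧ ∀ i, ∑ j, c j * eval p (M i j) = 0) :
    ∃ r : J → R, r ≠ 0 ∧ ∀ i, ∑ j, r j * M i j = 0 := by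
  classical
  by_contra hcon
  push Not at hcon
  let Q := FractionRing R
  let f : (J → Q) →ₗ[Q] (I → Q) :=
    LinearMap.pi (fun i => ∑ j, (algebraMap R Q (M i j)) • LinearMap.proj j)
  have hf : ∀ c i, f c i = ∑ j, algebraMap R Q (M i j) * c j := by
    intro c i
    simp [f, Algebra.smul_def]
  have hinj : LinearMap.ker f = ⊥ := by
    rw [eq_bot_iff]
    intro c hc
    rw [LinearMap.mem_ker] at hc
    obtain ⟨b, hb⟩ := IsLocalization.exist_integer_multiples_of_finite (nonZeroDivisors R) c
    choose r hr using hb
    have hb0 : (algebraMap R Q (b : R)) ≠ 0 := by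
      have := nonZeroDivisors.ne_zero b.2
      exact fun h0 => this ((IsFractionRing.injective R Q) (by rw [h0, map_zero]))
    by_cases hr0 : r = 0
    · rw [Submodule.mem_bot]
      funext j
      have h1 := hr j
      rw [hr0, Pi.zero_apply, map_zero, Algebra.smul_def] at h1
      rcases mul_eq_zero.1 h1.symm with h2 | h2
      · exact absurd h2 hb0
      · exact h2
    · obtain ⟨i, hi⟩ := hcon r hr0
      exfalso
      apply hi
      apply IsFractionRing.injective R Q
      rw [map_zero, map_sum]
      have h2 := congrFun hc i
      rw [hf, Pi.zero_apply] at h2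
      calc ∑ j, algebraMap R Q (r j * M i j)
          = algebraMap R Q (b : R) * ∑ j, algebraMap R Q (M i j) * c j := by
            rw [Finset.mul_sum]
            apply Finset.sum_congr rfl
            intro j _
            rw [map_mul, hr j, Algebra.smul_def]
            ring
        _ = 0 := by rw [h2, mul_zero]
  obtain ⟨g, hg⟩ := LinearMap.exists_leftInverse_of_injective f hinj
  let N : J × I → Q := fun x => g (Pi.single x.2 1) x.1
  have hN : ∀ j0 j, ∑ i, algebraMap R Q (M i j0) * N (j, i) = if j = j0 then 1 else 0 := by
    intro j0 j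
    have h1 : g (f (Pi.single j0 1)) = Pi.single j0 1 := by
      have := congrArg (fun l => l (Pi.single j0 1)) hg
      simpa using this
    have h2 : f (Pi.single j0 1) = ∑ i, (algebraMap R Q (M i j0)) • (Pi.single i 1 : I → Q) := by
      funext i
      rw [hf]
      simp [Pi.single_apply, Algebra.smul_def]
    rw [h2, map_sum] at h1
    have h3 := congrFun h1 j
    rw [Finset.sum_apply] at h3
    simp only [map_smul, Pi.smul_apply, smul_eq_mul] at h3
    rw [Pi.single_apply] at h3
    exact h3
  obtain ⟨b, hb⟩ := IsLocalization.exist_integer_multiples_of_finite (nonZeroDivisors R) N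
  choose N' hN' using hb
  have hN2 : ∀ j0 j, ∑ i, M i j0 * N' (j, i) = if j = j0 then (b : R) else 0 := by
    intro j0 j
    apply IsFractionRing.injective R Q
    rw [map_sum]
    calc ∑ i, algebraMap R Q (M i j0 * N' (j, i))
        = algebraMap R Q (b : R) * ∑ i, algebraMap R Q (M i j0) * N (j, i) := by
          rw [Finset.mul_sum]
          apply Finset.sum_congr rfl
          intro i _
          rw [map_mul, hN' (j, i), Algebra.smul_def]
          ring
      _ = _ := by
          rw [hN]
          split_ifs <;> simp
  have hb0 : (b : R) ≠ 0 := nonZeroDivisors.ne_zero b.2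
  obtain ⟨p, hp⟩ := exists_eval_ne (mul_ne_zero hh hb0)
  rw [map_mul] at hp
  obtain ⟨c, hc0, hc⟩ := H p (left_ne_zero_of_mul hp)
  apply hc0
  funext j
  have h1 : eval p (b : R) * c j = 0 := by
    have h2 : ∀ j0, eval p (if j = j0 then (b : R) else 0)
        = ∑ i, eval p (M i j0) * eval p (N' (j, i)) := by
      intro j0
      rw [← hN2, map_sum]
      apply Finset.sum_congr rfl
      intro i _
      rw [map_mul]
    calc eval p (b : R) * c j
        = ∑ j0, c j0 * eval p (if j = j0 then (b : R) else 0) := by
          rw [Finset.sum_eq_single j]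
          · rw [if_pos rfl, mul_comm]
          · intro j0 _ hj0
            rw [if_neg hj0.symm, map_zero, mul_zero]
          · intro h0; exact absurd (Finset.mem_univ _) h0
      _ = ∑ i, eval p (N' (j, i)) * ∑ j0, c j0 * eval p (M i j0) := by
          simp_rw [h2, Finset.mul_sum]
          rw [Finset.sum_comm]
          apply Finset.sum_congr rfl
          intro i _
          apply Finset.sum_congr rfl
          intro j0 _
          ring
      _ = 0 := by
          apply Finset.sum_eq_zero
          intro i _
          rw [hc, mul_zero]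
  rcases mul_eq_zero.1 h1 with h2 | h2
  · exact absurd h2 (right_ne_zero_of_mul hp)
  · exact h2

end Pool.Agent.Work.MP_31dc3b_ag
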