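import Pool.Agent.Work.MP_31dc3b_ag.CI3
import Pool.Agent.Work.MP_31dc3b_ag.Spec

/-!
The generic relation and its derivative.
-/

set_option autoImplicit false

open MvPolynomial

namespace Pool.Agent.Work.MP_31dc3b_ag

/-- Projection of the point `v` from the generic affine point. -/
noncomputable def zb (v : Fin 4 → ℂ) : Fin 3 → R :=
  fun i => C (v i.castSucc) - C (v (Fin.last 3)) * X i

/-- The affine-linear polynomial of the plane `q`. -/
noncomputable def pl (q : Fin 4 → ℂ) : R :=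
  ∑ i : Fin 3, C (q i.castSucc) * X i + C (q (Fin.last 3))

/-- Pairing of a vector over `R` with a complex vector. -/
noncomputable def pair (b : Fin 4 → R) (v : Fin 4 → ℂ) : R := ∑ i, b i * C (v i)

/-- The derivation moving the centre towards the point `v`. -/
noncomputable def Dz (v : Fin 4 → ℂ) : Derivation ℂ R R :=
  zb v 0 • pderiv 0 + zb v 1 • pderiv 1 + zb v 2 • pderiv 2

theorem Dz_apply (v : Fin 4 → ℂ) (f : R) : Dz v f = ∑ i, zb v i * pderiv i f := by
  simp [Dz, Fin.sum_univ_three]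

theorem Dz_X (v : Fin 4 → ℂ) (j : Fin 3) : Dz v (X j) = zb v j := by
  rw [Dz_apply]
  simp [pderiv_X, Pi.single_apply]

theorem Dz_C (v : Fin 4 → ℂ) (c : ℂ) : Dz v (C c) = 0 := by
  rw [Dz_apply]
  simp

theorem Dz_zb (v : Fin 4 → ℂ) (j : Fin 3) : Dz v (zb v j) = -C (v (Fin.last 3)) * zb v j := by
  conv_lhs => rw [zb]
  rw [map_sub, Derivation.leibniz, Dz_C, Dz_C, Dz_X]
  simp

theorem Derivation.prod_eq {κ : Type*} (D : Derivation ℂ R R) (s : Finset κ) (f β : κ → R)
    (h : ∀ k ∈ s, D (f k) = β k * f k) :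
    D (∏ k ∈ s, f k) = (∑ k ∈ s, β k) * ∏ k ∈ s, f k := by
  classical
  induction s using Finset.induction_on with
  | empty => simp
  | insert a s ha ih =>
    rw [Finset.prod_insert ha, Finset.sum_insert ha, Derivation.leibniz,
      ih (fun k hk => h k (Finset.mem_insert_of_mem hk)), h a (Finset.mem_insert_self _ _)]
    simp only [smul_eq_mul]
    ring

theorem deriv_rel {ι : Type*} [Fintype ι] {Z : ι → Fin 4 → ℂ} {e : ℕ} {r : ι → R}
    (h : Rel (e + 1) (fun z => zb (Z z)) r) :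
    Rel e (fun z => zb (Z z))
      (fun z => Dz (Z z) (r z) - C (((e : ℂ) + 3) * Z z (Fin.last 3)) * r z) := by
  apply Rel.of_words
  intro w
  set H : ι → R := fun z => ∏ k, zb (Z z) (w k) with hH
  have h1 : ∀ i, ∑ z, r z * (zb (Z z) i * H z) = 0 := by
    intro i
    have := h.words (Fin.cons i w)
    simpa [Fin.prod_univ_succ, hH] using this
  have h2 : ∀ i, ∑ z, (pderiv i (r z) * (zb (Z z) i * H z)
      + r z * (-C (Z z (Fin.last 3)) * H z + zb (Z z) i * pderiv i (H z))) = 0 := by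
    intro i
    have h3 := congrArg (pderiv i) (h1 i)
    rw [map_sum, map_zero] at h3
    rw [← h3]
    apply Finset.sum_congr rfl
    intro z _
    rw [Derivation.leibniz, Derivation.leibniz]
    have h4 : pderiv i (zb (Z z) i) = -C (Z z (Fin.last 3)) := by
      simp [zb, Derivation.leibniz]
    rw [h4]
    simp only [smul_eq_mul]
    ring
  have h5 : ∀ z, Dz (Z z) (H z) = -C ((e : ℂ) * Z z (Fin.last 3)) * H z := by
    intro z
    have h6 := Derivation.prod_eq (Dz (Z z)) Finset.univ (fun k => zb (Z z) (w k))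
      (fun _ => -C (Z z (Fin.last 3))) (fun k _ => Dz_zb _ _)
    simp only [Finset.sum_const, Finset.card_univ, Fintype.card_fin] at h6
    rw [hH]
    simp only
    rw [h6, C_mul]
    simp
  have h7 : ∑ i, ∑ z, (pderiv i (r z) * (zb (Z z) i * H z)
      + r z * (-C (Z z (Fin.last 3)) * H z + zb (Z z) i * pderiv i (H z))) = 0 :=
    Finset.sum_eq_zero (fun i _ => h2 i)
  rw [Finset.sum_comm] at h7
  rw [← h7]
  apply Finset.sum_congr rfl
  intro z _
  have h8 := h5 z
  rw [Dz_apply] at h8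
  rw [Dz_apply]
  rw [Fin.sum_univ_three] at h8 ⊢
  rw [Fin.sum_univ_three]
  simp only [C_mul, C_add] at h8 ⊢
  change (_ : R) * H z = _
  have h9 : (C (3 : ℂ) : R) = 3 := map_ofNat C 3
  rw [h9]
  linear_combination (-r z) * h8

theorem exists_primitive {ι : Type*} (r : ι → R) (z1 : ι) (h : r z1 ≠ 0) :
    ∃ g : R, g ≠ 0 ∧ ∃ r' : ι → R, (∀ z, r z = g * r' z) ∧
      ∀ p, Irreducible p → ∃ z, ¬ p ∣ r' z := by
  induction hn : (r z1).totalDegree using Nat.strong_induction_on generalizing r with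
  | _ n ih =>
    by_cases hp : ∃ p, Irreducible p ∧ ∀ z, p ∣ r z
    · obtain ⟨p, hp, hdiv⟩ := hp
      choose s hs using hdiv
      have hs1 : s z1 ≠ 0 := by
        intro h0
        apply h
        rw [hs, h0, mul_zero]
      have hlt : (s z1).totalDegree < n := by
        rw [← hn, hs, totalDegree_mul_of_isDomain hp.ne_zero hs1]
        have := one_le_totalDegree hp
        omega
      obtain ⟨g, hg, r', hr', hr2⟩ := ih _ hlt s hs1 rfl
      exact ⟨p * g, mul_ne_zero hp.ne_zero hg, r', fun z => by rw [hs, hr', mul_assoc], hr2⟩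
    · push Not at hp
      exact ⟨1, one_ne_zero, r, fun z => (one_mul _).symm, hp⟩

/-- The hypotheses on the configuration extracted from the geproci property. -/
structure Conf {ι : Type*} [Fintype ι] (Z : ι → Fin 4 → ℂ) (e : ℕ) (H : R) : Prop where
  H0 : H ≠ 0
  span : ∀ c : Fin 4 → ℂ, (∀ z, ∑ i, c i * Z z i = 0) → c = 0
  ind3 : ∀ x y w : ι, x ≠ y → x ≠ w → y ≠ w → LinearIndependent ℂ ![Z x, Z y, Z w]
  ind2 : ∀ x y : ι, x ≠ y → LinearIndependent ℂ ![Z x, Z y]
  exrel : ∀ p, eval p H ≠ 0 → ∃ c : ι → ℂ, c ≠ 0 ∧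
    Rel (e + 1) (fun z i => eval p (zb (Z z) i)) c
  full : ∀ p, eval p H ≠ 0 → ∀ c : ι → ℂ, c ≠ 0 →
    Rel (e + 1) (fun z i => eval p (zb (Z z) i)) c → ∀ z, c z ≠ 0
  dep4 : ∀ p, eval p H ≠ 0 → ∀ V : Fin 4 → ι → ℂ,
    (∀ k, Rel e (fun z i => eval p (zb (Z z) i)) (V k)) →
    ∃ g : Fin 4 → ℂ, g ≠ 0 ∧ ∀ z, ∑ k, g k * V k z = 0

section
variable {ι : Type*} [Fintype ι] {Z : ι → Fin 4 → ℂ} {e : ℕ} {H : R}

theorem Conf.spanR (h : Conf Z e H) (c : Fin 4 → R) (hc : ∀ z, pair c (Z z) = 0) : c = 0 := by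
  have h1 : ∀ m, (fun i => coeff m (c i)) = 0 := by
    intro m
    apply h.span
    intro z
    have h2 := congrArg (coeff m) (hc z)
    rw [pair, coeff_sum, coeff_zero] at h2
    rw [← h2]
    apply Finset.sum_congr rfl
    intro i _
    rw [mul_comm (c i), coeff_C_mul, mul_comm]
  funext i
  ext m
  exact congrFun (h1 m) i

theorem Conf.exists_r (h : Conf Z e H) : ∃ r : ι → R, Rel (e + 1) (fun z => zb (Z z)) r ∧
    (∀ z, r z ≠ 0) ∧ ∀ p, Irreducible p → ∃ z, ¬ p ∣ r z := by
  obtain ⟨r, hr0, hr⟩ := exists_rel_of_generic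
    (fun (w : Fin (e + 1) → Fin 3) (z : ι) => ∏ k, zb (Z z) (w k)) H h.H0 (by
      intro p hp
      obtain ⟨c, hc0, hc⟩ := h.exrel p hp
      refine ⟨c, hc0, fun w => ?_⟩
      have := hc.words w
      simpa [map_prod] using this)
  obtain ⟨z1, hz1⟩ := Function.ne_iff.1 hr0
  obtain ⟨g, hg, r', hr', hprim⟩ := exists_primitive r z1 hz1
  have hrel : Rel (e + 1) (fun z => zb (Z z)) r' := by
    apply Rel.of_words
    intro w
    have h1 := hr w
    have h2 : g * ∑ z, r' z * ∏ k, zb (Z z) (w k) = 0 := by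
      rw [← h1, Finset.mul_sum]
      apply Finset.sum_congr rfl
      intro z _
      rw [hr' z]; ring
    rcases mul_eq_zero.1 h2 with h3 | h3
    · exact absurd h3 hg
    · exact h3
  refine ⟨r', hrel, ?_, hprim⟩
  have hz1' : r' z1 ≠ 0 := by
    intro h0
    apply hz1
    rw [hr', h0, mul_zero]; rfl
  obtain ⟨p, hp⟩ := exists_eval_ne (mul_ne_zero h.H0 hz1')
  rw [map_mul] at hp
  intro z hz
  have h2 := h.full p (left_ne_zero_of_mul hp) (fun z => eval p (r' z))
    (fun h0 => right_ne_zero_of_mul hp (congrFun h0 z1)) (hrel.map (eval p)) z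
  apply h2
  rw [hz, map_zero]

/-- The data attached to the generic relation. -/
structure Data (Z : ι → Fin 4 → ℂ) (e : ℕ) (r : ι → R) (a0 : R) (b : Fin 4 → R) : Prop where
  rel : Rel (e + 1) (fun z => zb (Z z)) r
  rne : ∀ z, r z ≠ 0
  prim : ∀ p, Irreducible p → ∃ z, ¬ p ∣ r z
  a0ne : a0 ≠ 0
  eqn : ∀ z, a0 * Dz (Z z) (r z) = pair b (Z z) * r z
  bsum : ∑ i : Fin 3, b i.castSucc * X i + b (Fin.last 3) = C ((e : ℂ) + 3) * a0
  prim2 : ∀ p, Irreducible p → p ∣ a0 → ∃ i, ¬ p ∣ b i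

theorem Conf.exists_data (h : Conf Z e H) : ∃ r a0 b, Data Z e r a0 b := by
  obtain ⟨r, hrel, hrne, hprim⟩ := h.exists_r
  let V : Fin 4 → ι → R := Fin.cons
    (fun z => Dz (Z z) (r z) - C (((e : ℂ) + 3) * Z z (Fin.last 3)) * r z)
    (fun i z => zb (Z z) i * r z)
  have hV : ∀ k, Rel e (fun z => zb (Z z)) (V k) := by
    intro k
    refine Fin.cases ?_ (fun i => ?_) k
    · exact deriv_rel hrel
    · apply Rel.of_words
      intro w
      have := hrel.words (Fin.cons i w)
      rw [← this]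
      apply Finset.sum_congr rfl
      intro z _
      rw [Fin.prod_univ_succ]
      simp only [V, Fin.cons_succ, Fin.cons_zero]
      ring
  obtain ⟨g0, hg0, hg0V⟩ := exists_rel_of_generic (fun (z : ι) (k : Fin 4) => V k z) H h.H0 (by
    intro p hp
    obtain ⟨c, hc0, hc⟩ := h.dep4 p hp (fun k z => eval p (V k z))
      (fun k => (hV k).map (eval p))
    exact ⟨c, hc0, hc⟩)
  obtain ⟨k1, hk1⟩ := Function.ne_iff.1 hg0
  obtain ⟨q, hq, g, hg, hgprim⟩ := exists_primitive g0 k1 hk1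
  have hgk1 : g k1 ≠ 0 := by
    intro h0
    apply hk1
    rw [hg, h0, mul_zero]; rfl
  have hgV : ∀ z, ∑ k, g k * V k z = 0 := by
    intro z
    have h1 := hg0V z
    have h2 : q * ∑ k, g k * V k z = 0 := by
      rw [← h1, Finset.mul_sum]
      apply Finset.sum_congr rfl
      intro k _
      rw [hg k]; ring
    rcases mul_eq_zero.1 h2 with h3 | h3
    · exact absurd h3 hq
    · exact h3
  let b : Fin 4 → R := Fin.snoc (fun i : Fin 3 => - g i.succ)
    (C ((e : ℂ) + 3) * g 0 + ∑ i : Fin 3, g i.succ * X i)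
  have hb1 : ∀ i : Fin 3, b i.castSucc = - g i.succ := by
    intro i; simp [b]
  have hb2 : b (Fin.last 3) = C ((e : ℂ) + 3) * g 0 + ∑ i : Fin 3, g i.succ * X i :=
    Fin.snoc_last (α := fun _ => R) _ _
  have heqn : ∀ z, g 0 * Dz (Z z) (r z) = pair b (Z z) * r z := by
    intro z
    have h1 := hgV z
    rw [Fin.sum_univ_succ] at h1
    simp only [V, Fin.cons_zero, Fin.cons_succ] at h1
    rw [pair, Fin.sum_univ_castSucc, hb2]
    simp only [hb1]
    simp only [Fin.sum_univ_three, zb, C_mul] at h1 ⊢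
    linear_combination h1
  refine ⟨r, g 0, b, hrel, hrne, hprim, ?_, heqn, ?_, ?_⟩
  · intro h0
    apply hgk1
    have hb : b = 0 := by
      apply h.spanR
      intro z
      have h1 := heqn z
      rw [h0, zero_mul] at h1
      rcases mul_eq_zero.1 h1.symm with h2 | h2
      · exact h2
      · exact absurd h2 (hrne z)
    refine Fin.cases h0 (fun i => ?_) k1
    have h1 := hb1 i
    rw [hb, Pi.zero_apply] at h1
    exact neg_eq_zero.1 h1.symm
  · rw [hb2]
    simp only [hb1, Fin.sum_univ_three]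
    ring
  · intro p hp hpa
    by_contra hcon
    push Not at hcon
    obtain ⟨k, hk⟩ := hgprim p hp
    apply hk
    refine Fin.cases hpa (fun i => ?_) k
    have h1 := hcon i.castSucc
    rw [hb1] at h1
    exact (dvd_neg).1 h1

end

end Pool.Agent.Work.MP_31dc3b_ag
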