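import Pool.Agent.Work.MP_31dc3b_ag.Mult1

/-!
Restriction of polynomials to a line, and linear algebra of planes.
-/

set_option autoImplicit false

open MvPolynomial

namespace Pool.Agent.Work.MP_31dc3b_ag

/-- Restriction to the line through `x0` with direction `v`. -/
noncomputable def chi (x0 v : Fin 3 → ℂ) : R →ₐ[ℂ] Polynomial ℂ :=
  aeval (fun i => Polynomial.C (x0 i) + Polynomial.C (v i) * Polynomial.X)

theorem eval_chi (x0 v : Fin 3 → ℂ) (s : ℂ) (f : R) :
    (chi x0 v f).eval s = eval (fun i => x0 i + v i * s) f := by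
  have h : (Polynomial.aeval s).comp (chi x0 v)
      = (aeval (fun i => x0 i + v i * s) : R →ₐ[ℂ] ℂ) := by
    apply MvPolynomial.algHom_ext
    intro i
    simp [chi]
  have h2 := congrArg (fun g => g f) h
  simpa [Polynomial.coe_aeval_eq_eval, aeval_eq_eval] using h2

theorem chi_C (x0 v : Fin 3 → ℂ) (c : ℂ) : chi x0 v (C c) = Polynomial.C c := by
  unfold chi
  rw [aeval_C]
  rfl

theorem natDegree_chi_le (x0 v : Fin 3 → ℂ) (f : R) :
    (chi x0 v f).natDegree ≤ f.totalDegree := by
  have := aeval_natDegree_le (m := f.totalDegree) (n := 1) f le_rfl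
    (fun i => Polynomial.C (x0 i) + Polynomial.C (v i) * Polynomial.X) (by
      intro i
      refine (Polynomial.natDegree_add_le _ _).trans (max_le (by simp) ?_)
      exact (Polynomial.natDegree_C_mul_le _ _).trans Polynomial.natDegree_X_le)
  rw [mul_one] at this
  exact this

theorem pl_sub (q q' : Fin 4 → ℂ) : pl (q - q') = pl q - pl q' := by
  unfold pl
  simp only [Pi.sub_apply, C_sub, Fin.sum_univ_three]
  ring

theorem pl_last (c : ℂ) : pl (c • Pi.single (Fin.last 3) 1) = C c := by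
  rw [pl_smul]
  unfold pl
  have h5 : ∀ i : Fin 3, i.castSucc ≠ Fin.last 3 := fun i => (Fin.castSucc_lt_last i).ne
  simp only [Pi.single_apply, h5, if_false, if_true, map_zero, zero_mul, Finset.sum_const_zero,
    zero_add, C_1, mul_one]

theorem pl_injective {q q' : Fin 4 → ℂ} (h : pl q = pl q') : q = q' := by
  by_contra hne
  apply pl_ne_zero (sub_ne_zero.2 hne)
  rw [pl_sub, h, sub_self]

theorem chi_pl (x0 x1 : Fin 3 → ℂ) (w : Fin 4 → ℂ) :
    chi x0 (fun i => x1 i - x0 i) (pl w)
      = Polynomial.C (eval x0 (pl w))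
        + Polynomial.C (eval x1 (pl w) - eval x0 (pl w)) * Polynomial.X := by
  rw [eval_pl, eval_pl]
  unfold pl
  rw [map_add, map_sum]
  simp only [map_mul, chi_C]
  unfold chi
  simp only [aeval_X, Fin.sum_univ_three, map_add, map_sub, map_mul]
  ring

theorem dvd_pl {p : R} (hp : Irreducible p) {Q w : Fin 4 → ℂ} (hQ : pl Q = p) (h : p ∣ pl w) :
    ∃ c : ℂ, w = c • Q := by
  by_cases hw : w = 0
  · exact ⟨0, by rw [hw, zero_smul]⟩
  · obtain ⟨c, _, hc⟩ := eq_C_mul_of_dvd hp (pl_ne_zero hw) (totalDegree_pl w) h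
    refine ⟨c, pl_injective ?_⟩
    rw [pl_smul, hQ, hc]

theorem dt_add_right (q v w : Fin 4 → ℂ) : dt q (v + w) = dt q v + dt q w := by
  unfold dt
  rw [← Finset.sum_add_distrib]
  apply Finset.sum_congr rfl
  intro i _
  rw [Pi.add_apply, mul_add]

theorem dt_smul_right (q v : Fin 4 → ℂ) (c : ℂ) : dt q (c • v) = c * dt q v := by
  unfold dt
  rw [Finset.mul_sum]
  apply Finset.sum_congr rfl
  intro i _
  rw [Pi.smul_apply, smul_eq_mul]
  ring

theorem dt_add_left (q q' v : Fin 4 → ℂ) : dt (q + q') v = dt q v + dt q' v := by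
  unfold dt
  rw [← Finset.sum_add_distrib]
  apply Finset.sum_congr rfl
  intro i _
  rw [Pi.add_apply, add_mul]

theorem dt_single (q : Fin 4 → ℂ) (i : Fin 4) : dt q (Pi.single i 1) = q i := by
  simp [dt, Pi.single_apply]

/-- Two linear forms vanishing on three independent vectors are proportional. -/
theorem prop_of_three {x y w : Fin 4 → ℂ} (h : LinearIndependent ℂ ![x, y, w])
    {q1 q2 : Fin 4 → ℂ} (h1x : dt q1 x = 0) (h1y : dt q1 y = 0) (h1w : dt q1 w = 0)
    (h2x : dt q2 x = 0) (h2y : dt q2 y = 0) (h2w : dt q2 w = 0) (hq2 : q2 ≠ 0) :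
    ∃ c : ℂ, q1 = c • q2 := by
  obtain ⟨q, v, hqv, hspan⟩ := exists_normal h
  have key : ∀ q' : Fin 4 → ℂ, dt q' x = 0 → dt q' y = 0 → dt q' w = 0 →
      q' = dt q' v • q := by
    intro q' hx hy hw
    have hP : ∀ u ∈ Submodule.span ℂ (Set.range ![x, y, w]), dt q' u = 0 := by
      intro u hu
      refine Submodule.span_induction ?_ ?_ ?_ ?_ hu
      · rintro _ ⟨k, rfl⟩
        fin_cases k
        · exact hx
        · exact hy
        · exact hw
      · simp [dt]
      · intro u1 u2 _ _ h1 h2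
        rw [dt_add_right, h1, h2, add_zero]
      · intro c u1 _ h1
        rw [dt_smul_right, h1, mul_zero]
    funext i
    have h3 := hP _ (hspan (Pi.single i 1))
    have h4 : Pi.single i 1 = (Pi.single i 1 - dt q (Pi.single i 1) • v)
        + dt q (Pi.single i 1) • v := by rw [sub_add_cancel]
    have h5 : dt q' (Pi.single i 1) = q i * dt q' v := by
      rw [h4, dt_add_right, h3, dt_smul_right, dt_single, zero_add]
    rw [dt_single] at h5
    rw [h5, Pi.smul_apply, smul_eq_mul, mul_comm]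
  have h1 := key q1 h1x h1y h1w
  have h2 := key q2 h2x h2y h2w
  have h3 : dt q2 v ≠ 0 := by
    intro h0
    apply hq2
    rw [h2, h0, zero_smul]
  have h4 : (dt q1 v / dt q2 v) • (dt q2 v • q) = dt q1 v • q := by
    rw [smul_smul, div_mul_cancel₀ _ h3]
  refine ⟨dt q1 v / dt q2 v, ?_⟩
  rw [← h2, ← h1] at h4
  exact h4.symm

end Pool.Agent.Work.MP_31dc3b_ag
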