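import Pool.Agent.Work.MP_31dc3b_ag.Struct2

/-!
Relations on a plane, and the exclusion of very large multiplicities.
-/

set_option autoImplicit false

open MvPolynomial

namespace Pool.Agent.Work.MP_31dc3b_ag

theorem exists_zero {p f : R} (hp : Irreducible p) (hf : ¬ p ∣ f) :
    ∃ x, eval x p = 0 ∧ eval x f ≠ 0 := by
  by_contra hcon
  push Not at hcon
  apply hf
  have hpi : (Ideal.span {p}).IsPrime := (Ideal.span_singleton_prime hp.ne_zero).2 hp.prime
  have h1 : f ∈ vanishingIdeal ℂ (zeroLocus ℂ (Ideal.span {p})) := by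
    rw [mem_vanishingIdeal_iff]
    intro x hx
    rw [mem_zeroLocus_iff] at hx
    have h2 := hx p (Ideal.mem_span_singleton_self p)
    rw [aeval_eq_eval] at h2 ⊢
    exact hcon x h2
  rw [vanishingIdeal_zeroLocus_eq_radical, hpi.radical] at h1
  exact Ideal.mem_span_singleton.1 h1

theorem exists_zero_set {p : R} (hp : Irreducible p) {S : Set R} (hS : S.Finite)
    (h : ∀ f ∈ S, ¬ p ∣ f) : ∃ x, eval x p = 0 ∧ ∀ f ∈ S, eval x f ≠ 0 := by
  classical
  have h1 : ¬ p ∣ ∏ f ∈ hS.toFinset, f := by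
    intro h2
    obtain ⟨f, hf, hpf⟩ := (hp.prime.dvd_finsetProd_iff _).1 h2
    exact h f ((Set.Finite.mem_toFinset hS).1 hf) hpf
  obtain ⟨x, hx1, hx2⟩ := exists_zero hp h1
  refine ⟨x, hx1, fun f hf => ?_⟩
  rw [map_prod, Finset.prod_ne_zero_iff] at hx2
  exact hx2 f ((Set.Finite.mem_toFinset hS).2 hf)

theorem Rel.finset {A ι κ : Type*} [CommRing A] [Fintype ι] {t : ℕ} {y : ι → Fin 3 → A}
    {r : ι → A} (h : Rel t y r) (T : Finset κ) (hT : T.card = t) (u : κ → Fin 3 → A) :
    ∑ z, r z * ∏ k ∈ T, (∑ i, u k i * y z i) = 0 := by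
  subst hT
  have h1 := h (fun k => u (T.equivFin.symm k))
  rw [← h1]
  apply Finset.sum_congr rfl
  intro z _
  congr 1
  rw [← Finset.prod_coe_sort]
  exact (Equiv.prod_comp T.equivFin.symm (fun k : T => ∑ i, u k i * y z i)).symm

theorem lam_zb (q v : Fin 4 → ℂ) :
    ∑ l : Fin 3, C (q l.castSucc) * zb v l = C (dt q v) - C (v (Fin.last 3)) * pl q := by
  unfold pl dt zb
  rw [Fin.sum_univ_castSucc (f := fun i => q i * v i)]
  simp only [Fin.sum_univ_three, C_add, C_mul]
  ring

section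
variable {ι : Type*} [Fintype ι] {Z : ι → Fin 4 → ℂ} {e : ℕ} {H : R}
  {r : ι → R} {a0 : R} {b : Fin 4 → R}
variable {s : Finset R} {k : ℂ} {q : R → Fin 4 → ℂ} {c : R → ℕ}

open Classical in
/-- Relations between the points in a plane, from divisibility off the plane. -/
theorem plane_rel {p : R} (hp : Irreducible p) {Q : Fin 4 → ℂ} (hQ : pl Q = p) {m : ℕ}
    (hrel : Rel (e + 1) (fun z => zb (Z z)) r)
    (hdvd : ∀ z, dt Q (Z z) ≠ 0 → p ^ m ∣ r z) {i t : ℕ} (hit : i + t = e + 1) (him : i < m)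
    (u : Fin t → Fin 3 → R) :
    p ∣ ∑ z ∈ Finset.univ.filter (fun z => dt Q (Z z) = 0),
      r z * C (Z z (Fin.last 3)) ^ i * ∏ k, (∑ l, u k l * zb (Z z) l) := by
  rw [← hit] at hrel
  have h1 := hrel (Fin.append (fun _ l => C (Q l.castSucc)) u)
  simp_rw [Fin.prod_univ_add, Fin.append_left, Fin.append_right] at h1
  simp_rw [lam_zb, hQ, Finset.prod_const, Finset.card_univ, Fintype.card_fin] at h1
  rw [← Finset.sum_filter_add_sum_filter_not Finset.univ (fun z => dt Q (Z z) = 0)] at h1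
  have h2 : p ^ (i + 1) ∣ ∑ z ∈ Finset.univ.filter (fun z => ¬ dt Q (Z z) = 0),
      r z * ((C (dt Q (Z z)) - C (Z z (Fin.last 3)) * p) ^ i
        * ∏ k, (∑ l, u k l * zb (Z z) l)) := by
    apply Finset.dvd_sum
    intro z hz
    rw [Finset.mem_filter] at hz
    exact ((pow_dvd_pow p him).trans (hdvd z hz.2)).mul_right _
  have h3 : ∑ z ∈ Finset.univ.filter (fun z => dt Q (Z z) = 0),
      r z * ((C (dt Q (Z z)) - C (Z z (Fin.last 3)) * p) ^ i
        * ∏ k, (∑ l, u k l * zb (Z z) l))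
      = p ^ i * ((-1) ^ i * ∑ z ∈ Finset.univ.filter (fun z => dt Q (Z z) = 0),
      r z * C (Z z (Fin.last 3)) ^ i * ∏ k, (∑ l, u k l * zb (Z z) l)) := by
    rw [Finset.mul_sum, Finset.mul_sum]
    apply Finset.sum_congr rfl
    intro z hz
    rw [Finset.mem_filter] at hz
    rw [hz.2, map_zero, zero_sub, neg_pow, mul_pow]
    ring
  rw [h3] at h1
  have h4 : p ^ (i + 1) ∣ p ^ i * ((-1) ^ i * ∑ z ∈ Finset.univ.filter
      (fun z => dt Q (Z z) = 0),
      r z * C (Z z (Fin.last 3)) ^ i * ∏ k, (∑ l, u k l * zb (Z z) l)) := by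
    rw [eq_neg_of_add_eq_zero_left h1]
    exact (dvd_neg).2 h2
  rw [pow_succ] at h4
  have h5 := (mul_dvd_mul_iff_left (pow_ne_zero i hp.ne_zero)).1 h4
  have h6 : IsUnit ((-1 : R) ^ i) := (isUnit_one.neg).pow i
  exact (h6.dvd_mul_left).1 h5

/-- Multiplicities are at most `e + 1`. -/
theorem Planes.mult_le (h : Conf Z e H) (d : Data Z e r a0 b) (P : Planes Z e r a0 b s k q c)
    {p : R} (hp : p ∈ s) : c p ≤ e + 1 := by
  classical
  by_contra hcon
  push Not at hcon
  have hirr := P.irr p hp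
  obtain ⟨z1, hz1⟩ := d.prim p hirr
  have hdt1 : dt (q p) (Z z1) = 0 := by
    by_contra hne
    exact hz1 ((dvd_pow_self p (by have := P.c1 p hp; omega)).trans (P.dvd p hp z1 hne))
  obtain ⟨x, hx1, hx2⟩ := exists_zero hirr hz1
  set cc : ι → ℂ := fun z => if dt (q p) (Z z) = 0 then eval x (r z) else 0 with hcc
  -- relations at x in the plane with powers of the last coordinate
  have hrx : ∀ i t, i + t = e + 1 →
      Rel t (fun z l => eval x (zb (Z z) l)) (fun z => cc z * (Z z (Fin.last 3)) ^ i) := by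
    intro i t hit u
    obtain ⟨f, hf⟩ := plane_rel hirr (P.hpl p hp) d.rel (P.dvd p hp) hit (by omega)
      (fun k l => C (u k l))
    have h1 := congrArg (eval x) hf
    rw [map_mul, hx1, zero_mul, map_sum, Finset.sum_filter] at h1
    rw [← h1]
    apply Finset.sum_congr rfl
    intro z _
    simp only [hcc]
    split_ifs with h2
    · simp [map_prod]
    · simp
  -- hence relations at every point
  have hall : ∀ x', Rel (e + 1) (fun z l => eval x' (zb (Z z) l)) cc := by
    intro x' u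
    have h1 : ∀ z, ∏ k, (∑ l, u k l * eval x' (zb (Z z) l))
        = ∑ T : Finset (Fin (e + 1)), (∏ k ∈ T, (∑ l, u k l * eval x (zb (Z z) l)))
          * ((Z z (Fin.last 3)) ^ (Tᶜ.card) * ∏ k ∈ Tᶜ, ∑ l, u k l * (x l - x' l)) := by
      intro z
      have h2 : ∀ k, (∑ l, u k l * eval x' (zb (Z z) l))
          = (∑ l, u k l * eval x (zb (Z z) l))
            + Z z (Fin.last 3) * ∑ l, u k l * (x l - x' l) := by
        intro k
        rw [Finset.mul_sum, ← Finset.sum_add_distrib]
        apply Finset.sum_congr rfl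
        intro l _
        simp only [zb, map_sub, map_mul, eval_C, eval_X]
        ring
      simp_rw [h2]
      rw [Fintype.prod_add]
      apply Finset.sum_congr rfl
      intro T _
      rw [Finset.prod_mul_distrib, Finset.prod_const]
    simp_rw [h1, Finset.mul_sum]
    rw [Finset.sum_comm]
    apply Finset.sum_eq_zero
    intro T _
    have hT : Tᶜ.card + T.card = e + 1 := by
      rw [add_comm, Finset.card_add_card_compl, Fintype.card_fin]
    have h3 := (hrx Tᶜ.card T.card hT).finset T rfl u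
    calc ∑ z, cc z * ((∏ k ∈ T, (∑ l, u k l * eval x (zb (Z z) l)))
          * ((Z z (Fin.last 3)) ^ (Tᶜ.card) * ∏ k ∈ Tᶜ, ∑ l, u k l * (x l - x' l)))
        = (∏ k ∈ Tᶜ, ∑ l, u k l * (x l - x' l)) *
          ∑ z, cc z * (Z z (Fin.last 3)) ^ (Tᶜ.card)
            * ∏ k ∈ T, (∑ l, u k l * eval x (zb (Z z) l)) := by
          rw [Finset.mul_sum]
          apply Finset.sum_congr rfl
          intro z _
          ring
      _ = 0 := by rw [h3, mul_zero]
  obtain ⟨x', hx'⟩ := exists_eval_ne h.H0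
  have hcc0 : cc ≠ 0 := by
    intro h0
    have := congrFun h0 z1
    simp only [hcc, hdt1, if_true, Pi.zero_apply] at this
    exact hx2 this
  have hfull := h.full x' hx' cc hcc0 (hall x')
  have hq0 : q p ≠ 0 := by
    intro h0
    apply hirr.ne_zero
    rw [← P.hpl p hp, h0]
    simp [pl]
  apply hq0
  apply h.span
  intro z
  by_contra hne
  apply hfull z
  have hne' : dt (q p) (Z z) ≠ 0 := hne
  simp only [hcc, hne', if_false]

end

end Pool.Agent.Work.MP_31dc3b_ag
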