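import Pool.Agent.Work.MP_31dc3b_ag.Line

/-!
A general line in a plane of the configuration.
-/

set_option autoImplicit false

open MvPolynomial

namespace Pool.Agent.Work.MP_31dc3b_ag

section
variable {ι : Type*} [Fintype ι] {Z : ι → Fin 4 → ℂ} {e : ℕ} {H : R}
  {r : ι → R} {a0 : R} {b : Fin 4 → R}
variable {s : Finset R} {k : ℂ} {q : R → Fin 4 → ℂ} {c : R → ℕ}

theorem Planes.q_ne (P : Planes Z e r a0 b s k q c) {p : R} (hp : p ∈ s) : q p ≠ 0 := by
  intro h0
  apply (P.irr p hp).ne_zero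
  rw [← P.hpl p hp, h0]
  simp [pl]

theorem Planes.not_const (P : Planes Z e r a0 b s k q c) {p : R} (hp : p ∈ s) (a : ℂ) :
    p ≠ C a := by
  intro h0
  have := one_le_totalDegree (P.irr p hp)
  rw [h0, totalDegree_C] at this
  omega

theorem Planes.not_prop (P : Planes Z e r a0 b s k q c) {p p' : R} (hp : p ∈ s) (hp' : p' ∈ s)
    (hne : p ≠ p') (a : ℂ) : q p' ≠ a • q p := by
  intro h0
  apply P.ndvd p hp p' hp' hne
  rw [← P.hpl p' hp', h0, pl_smul, P.hpl p hp]
  exact dvd_mul_left _ _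

theorem Planes.dt_zero (P : Planes Z e r a0 b s k q c) {p : R} (hp : p ∈ s) {z : ι}
    (hz : ¬ p ∣ r z) : dt (q p) (Z z) = 0 := by
  by_contra hne
  exact hz ((dvd_pow_self p (by have := P.c1 p hp; omega)).trans (P.dvd p hp z hne))

theorem Planes.exists_z1 (h : Conf Z e H) (P : Planes Z e r a0 b s k q c) {p : R} (hp : p ∈ s) :
    ∃ z1, ¬ p ∣ r z1 ∧ Z z1 (Fin.last 3) ≠ 0 := by
  classical
  have hcard := P.card p hp (Finset.univ.filter (fun z => ¬ p ∣ r z)) (by
    intro z hz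
    simpa using hz)
  have h3 : 2 < (Finset.univ.filter (fun z => ¬ p ∣ r z)).card := by omega
  obtain ⟨x, y, w, hx, hy, hw, hxy, hxw, hyw⟩ := Finset.two_lt_card_iff.1 h3
  rw [Finset.mem_filter] at hx hy hw
  by_contra hcon
  push Not at hcon
  have hlast : ∀ z, ¬ p ∣ r z → dt (Pi.single (Fin.last 3) 1) (Z z) = 0 := by
    intro z hz
    rw [← hcon z hz]
    simp [dt, Pi.single_apply]
  obtain ⟨a, ha⟩ := prop_of_three (h.ind3 x y w hxy hxw hyw)
    (P.dt_zero hp hx.2) (P.dt_zero hp hy.2) (P.dt_zero hp hw.2)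
    (hlast x hx.2) (hlast y hy.2) (hlast w hw.2)
    (by
      intro h0
      have := congrFun h0 (Fin.last 3)
      simp at this)
  apply P.not_const hp a
  rw [← pl_last, ← ha, P.hpl p hp]

/-- A sufficiently general line in the plane of `p`, given by two points. -/
structure GoodLine (Z : ι → Fin 4 → ℂ) (r : ι → R) (s : Finset R) (q : R → Fin 4 → ℂ)
    (p : R) (z1 : ι) (x0 x1 : Fin 3 → ℂ) : Prop where
  hx0 : eval x0 p = 0
  hx1 : eval x1 p = 0
  g1 : ∀ z, ¬ p ∣ r z → eval x0 (r z) ≠ 0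
  g2 : ∀ p' ∈ s, p' ≠ p → eval x0 p' ≠ 0
  g3 : ∀ p' ∈ s, p' ≠ p → dt (q p') (Z z1) = 0 → eval x1 p' - eval x0 p' ≠ 0
  g4 : ∀ p' ∈ s, ∀ p'' ∈ s, p' ≠ p → p'' ≠ p → (¬ ∃ a b : ℂ, q p'' = a • q p' + b • q p) →
    eval x0 p' * eval x1 p'' - eval x0 p'' * eval x1 p' ≠ 0
  g5 : ∀ z, ∀ t : ℂ, ∃ l, eval (fun i => x0 i + (x1 i - x0 i) * t) (zb (Z z) l) ≠ 0

theorem Planes.exists_line (h : Conf Z e H) (P : Planes Z e r a0 b s k q c)
    (two : ∀ z : ι, ∃ w, w ≠ z) {p : R} (hp : p ∈ s) {z1 : ι} (hz1 : ¬ p ∣ r z1)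
    (hz1' : Z z1 (Fin.last 3) ≠ 0) : ∃ x0 x1, GoodLine Z r s q p z1 x0 x1 := by
  classical
  have hirr := P.irr p hp
  have hl : ∀ z, ∃ l, ¬ p ∣ zb (Z z) l := by
    intro z
    obtain ⟨w, hw⟩ := two z
    obtain ⟨i, j, hij⟩ := exists_minor hirr (h.ind2 w z hw)
    by_contra hcon
    push Not at hcon
    exact hij (dvd_sub ((hcon j).mul_left _) ((hcon i).mul_left _))
  choose l hl using hl
  -- the first point
  obtain ⟨x0, hx0, hx0'⟩ := exists_zero_set hirr
    (S := ↑((Finset.univ.filter (fun z => ¬ p ∣ r z)).image r ∪ s.erase p ∪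
      Finset.univ.image (fun z => zb (Z z) (l z)))) (Finset.finite_toSet _) (by
    intro f hf
    rw [Finset.mem_coe, Finset.mem_union, Finset.mem_union] at hf
    rcases hf with (hf | hf) | hf
    · obtain ⟨z, hz, rfl⟩ := Finset.mem_image.1 hf
      exact (Finset.mem_filter.1 hz).2
    · exact P.ndvd p hp f (Finset.mem_of_mem_erase hf) (Finset.ne_of_mem_erase hf).symm
    · obtain ⟨z, _, rfl⟩ := Finset.mem_image.1 hf
      exact hl z)
  have g1 : ∀ z, ¬ p ∣ r z → eval x0 (r z) ≠ 0 := by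
    intro z hz
    apply hx0'
    rw [Finset.mem_coe, Finset.mem_union, Finset.mem_union]
    exact Or.inl (Or.inl (Finset.mem_image.2 ⟨z, by simpa using hz, rfl⟩))
  have g2 : ∀ p' ∈ s, p' ≠ p → eval x0 p' ≠ 0 := by
    intro p' hp' hne
    apply hx0'
    rw [Finset.mem_coe, Finset.mem_union, Finset.mem_union]
    exact Or.inl (Or.inr (Finset.mem_erase.2 ⟨hne, hp'⟩))
  have g0 : ∀ z, eval x0 (zb (Z z) (l z)) ≠ 0 := by
    intro z
    apply hx0'
    rw [Finset.mem_coe, Finset.mem_union, Finset.mem_union]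
    exact Or.inr (Finset.mem_image.2 ⟨z, Finset.mem_univ z, rfl⟩)
  set pt : Fin 4 → ℂ := Fin.snoc (α := fun _ => ℂ) x0 1 with hpt
  have hpt1 : ∀ i : Fin 3, pt i.castSucc = x0 i := fun i => Fin.snoc_castSucc (α := fun _ => ℂ) _ _ i
  have hpt2 : pt (Fin.last 3) = 1 := Fin.snoc_last (α := fun _ => ℂ) _ _
  have hind : ∀ z, LinearIndependent ℂ ![pt, Z z] := by
    intro z
    rw [LinearIndependent.pair_iff]
    intro a b hab
    have h1 := congrFun hab (Fin.last 3)
    have h2 := congrFun hab (l z).castSucc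
    simp only [Pi.add_apply, Pi.smul_apply, smul_eq_mul, Pi.zero_apply, hpt1, hpt2] at h1 h2
    have h3 : b * eval x0 (zb (Z z) (l z)) = 0 := by
      simp only [zb, map_sub, map_mul, eval_C, eval_X]
      linear_combination h2 - x0 (l z) * h1
    have hb : b = 0 := by
      rcases mul_eq_zero.1 h3 with h4 | h4
      · exact h4
      · exact absurd h4 (g0 z)
    rw [hb] at h1
    refine ⟨by linear_combination h1, hb⟩
  have hm : ∀ z, ∃ i j, ¬ p ∣ zb pt i * zb (Z z) j - zb pt j * zb (Z z) i :=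
    fun z => exists_minor hirr (hind z)
  choose i j hm using hm
  have heps : ∀ a : ℂ, dt (a • Pi.single (Fin.last 3) 1) (Z z1) = a * Z z1 (Fin.last 3) := by
    intro a
    rw [dt_smul]
    congr 1
    simp [dt, Pi.single_apply]
  -- the second point
  obtain ⟨x1, hx1, hx1'⟩ := exists_zero_set hirr
    (S := ↑(((s.erase p).filter (fun p' => dt (q p') (Z z1) = 0)).image
        (fun p' => p' - C (eval x0 p')) ∪
      ((s.erase p ×ˢ s.erase p).filter
        (fun t => ¬ ∃ a b : ℂ, q t.2 = a • q t.1 + b • q p)).image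
          (fun t => C (eval x0 t.1) * t.2 - C (eval x0 t.2) * t.1) ∪
      Finset.univ.image (fun z => zb pt (i z) * zb (Z z) (j z) - zb pt (j z) * zb (Z z) (i z))))
      (Finset.finite_toSet _) (by
    intro f hf
    rw [Finset.mem_coe, Finset.mem_union, Finset.mem_union] at hf
    rcases hf with (hf | hf) | hf
    · obtain ⟨p', hp', rfl⟩ := Finset.mem_image.1 hf
      rw [Finset.mem_filter] at hp'
      have hp's := Finset.mem_of_mem_erase hp'.1
      have hne := Finset.ne_of_mem_erase hp'.1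
      intro hdvd
      have h1 : p' - C (eval x0 p')
          = pl (q p' - (eval x0 p') • Pi.single (Fin.last 3) 1) := by
        rw [pl_sub, pl_last, P.hpl p' hp's]
      rw [h1] at hdvd
      obtain ⟨a, ha⟩ := dvd_pl hirr (P.hpl p hp) hdvd
      have h2 : q p' = a • q p + (eval x0 p') • Pi.single (Fin.last 3) 1 := by
        rw [← ha, sub_add_cancel]
      have h3 := hp'.2
      rw [h2, dt_add_left, dt_smul, P.dt_zero hp hz1, mul_zero, zero_add, heps] at h3
      have h4 : eval x0 p' = 0 := by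
        rcases mul_eq_zero.1 h3 with h4 | h4
        · exact h4
        · exact absurd h4 hz1'
      exact g2 p' hp's hne h4
    · obtain ⟨t, ht, rfl⟩ := Finset.mem_image.1 hf
      rw [Finset.mem_filter, Finset.mem_product] at ht
      obtain ⟨⟨ht1, ht2⟩, ht3⟩ := ht
      have h1s := Finset.mem_of_mem_erase ht1
      have h2s := Finset.mem_of_mem_erase ht2
      have hne1 := Finset.ne_of_mem_erase ht1
      intro hdvd
      have h1 : C (eval x0 t.1) * t.2 - C (eval x0 t.2) * t.1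
          = pl ((eval x0 t.1) • q t.2 - (eval x0 t.2) • q t.1) := by
        rw [pl_sub, pl_smul, pl_smul, P.hpl _ h1s, P.hpl _ h2s]
      rw [h1] at hdvd
      obtain ⟨a, ha⟩ := dvd_pl hirr (P.hpl p hp) hdvd
      have hne0 := g2 t.1 h1s hne1
      apply ht3
      refine ⟨eval x0 t.2 / eval x0 t.1, a / eval x0 t.1, ?_⟩
      have h2 : (eval x0 t.1) • q t.2 = (eval x0 t.2) • q t.1 + a • q p := by
        rw [← ha]; abel
      funext j
      have h3 := congrFun h2 j
      simp only [Pi.add_apply, Pi.smul_apply, smul_eq_mul] at h3 ⊢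
      field_simp
      linear_combination h3
    · obtain ⟨z, _, rfl⟩ := Finset.mem_image.1 hf
      exact hm z)
  refine ⟨x0, x1, hx0, hx1, g1, g2, ?_, ?_, ?_⟩
  · intro p' hp' hne hdt
    have := hx1' (p' - C (eval x0 p')) (by
      rw [Finset.mem_coe, Finset.mem_union, Finset.mem_union]
      exact Or.inl (Or.inl (Finset.mem_image.2
        ⟨p', Finset.mem_filter.2 ⟨Finset.mem_erase.2 ⟨hne, hp'⟩, hdt⟩, rfl⟩)))
    simpa using this
  · intro p' hp' p'' hp'' hne hne' hnot
    have := hx1' (C (eval x0 p') * p'' - C (eval x0 p'') * p') (by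
      rw [Finset.mem_coe, Finset.mem_union, Finset.mem_union]
      exact Or.inl (Or.inr (Finset.mem_image.2
        ⟨(p', p''), Finset.mem_filter.2 ⟨Finset.mem_product.2 ⟨Finset.mem_erase.2 ⟨hne, hp'⟩,
          Finset.mem_erase.2 ⟨hne', hp''⟩⟩, hnot⟩, rfl⟩)))
    simpa using this
  · intro z t
    by_contra hcon
    push Not at hcon
    have h1 := hx1' (zb pt (i z) * zb (Z z) (j z) - zb pt (j z) * zb (Z z) (i z)) (by
      rw [Finset.mem_coe, Finset.mem_union, Finset.mem_union]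
      exact Or.inr (Finset.mem_image.2 ⟨z, Finset.mem_univ z, rfl⟩))
    apply h1
    have h2 := hcon (i z)
    have h3 := hcon (j z)
    simp only [zb, map_sub, map_mul, eval_C, eval_X, hpt1, hpt2] at h2 h3 ⊢
    linear_combination (x0 (i z) - x1 (i z)) * h3 - (x0 (j z) - x1 (j z)) * h2

end

end Pool.Agent.Work.MP_31dc3b_ag
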