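import Pool.Agent.Work.MP_31dc3b_ag.Mult2

/-!
All multiplicities are equal to one.
-/

set_option autoImplicit false

open MvPolynomial

namespace Pool.Agent.Work.MP_31dc3b_ag

theorem exists_rootMultiplicity_lt {f Q : Polynomial ℂ} (hf : f ≠ 0) (hQ : Q ≠ 0)
    (h : ¬ Q ∣ f) : ∃ a, f.rootMultiplicity a < Q.rootMultiplicity a := by
  classical
  by_contra hcon
  push Not at hcon
  apply h
  rw [IsAlgClosed.dvd_iff_roots_le_roots hQ hf, Multiset.le_iff_count]
  intro a
  rw [Polynomial.count_roots, Polynomial.count_roots]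
  exact hcon a

section
variable {ι : Type*} [Fintype ι] {Z : ι → Fin 4 → ℂ} {e : ℕ} {H : R}
  {r : ι → R} {a0 : R} {b : Fin 4 → R}
variable {s : Finset R} {k : ℂ} {q : R → Fin 4 → ℂ} {c : R → ℕ}

open Classical in
/-- The product of the other planes restricted to the line. -/
noncomputable def QQ (s : Finset R) (c : R → ℕ) (p : R) (x0 x1 : Fin 3 → ℂ) : Polynomial ℂ :=
  ∏ p' ∈ s.erase p, (chi x0 (fun i => x1 i - x0 i) p') ^ c p'

omit [Fintype ι] in
theorem GoodLine.chi_ne {p : R} {z1 : ι} {x0 x1 : Fin 3 → ℂ} (L : GoodLine Z r s q p z1 x0 x1)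
    {p' : R} (hp' : p' ∈ s) (hne : p' ≠ p) : chi x0 (fun i => x1 i - x0 i) p' ≠ 0 := by
  intro h0
  have := eval_chi x0 (fun i => x1 i - x0 i) 0 p'
  rw [h0] at this
  simp only [Polynomial.eval_zero, mul_zero, add_zero] at this
  exact L.g2 p' hp' hne this.symm

omit [Fintype ι] in
theorem GoodLine.chi_r_ne {p : R} {z1 : ι} {x0 x1 : Fin 3 → ℂ} (L : GoodLine Z r s q p z1 x0 x1)
    {z : ι} (hz : ¬ p ∣ r z) : chi x0 (fun i => x1 i - x0 i) (r z) ≠ 0 := by
  intro h0
  have := eval_chi x0 (fun i => x1 i - x0 i) 0 (r z)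
  rw [h0] at this
  simp only [Polynomial.eval_zero, mul_zero, add_zero] at this
  exact L.g1 z hz this.symm

theorem GoodLine.chi_p {p : R} (P : Planes Z e r a0 b s k q c) (hp : p ∈ s) {z1 : ι}
    {x0 x1 : Fin 3 → ℂ} (L : GoodLine Z r s q p z1 x0 x1) :
    chi x0 (fun i => x1 i - x0 i) p = 0 := by
  have h := chi_pl x0 x1 (q p)
  rw [P.hpl p hp, L.hx0, L.hx1] at h
  rw [h]; simp

/-- Existence of a point of the line at which the coefficient of `z1` vanishes to lower order
than the product of the other planes. -/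
theorem Planes.exists_t (h : Conf Z e H) (d : Data Z e r a0 b) (P : Planes Z e r a0 b s k q c)
    {p : R} (hp : p ∈ s) (hc : c p ≤ e + 2)
    {z1 : ι} (hz1 : ¬ p ∣ r z1) (hz1' : Z z1 (Fin.last 3) ≠ 0) {x0 x1 : Fin 3 → ℂ}
    (L : GoodLine Z r s q p z1 x0 x1) :
    ∃ t, (chi x0 (fun i => x1 i - x0 i) (r z1)).rootMultiplicity t
      < (QQ s c p x0 x1).rootMultiplicity t := by
  classical
  obtain ⟨n, hn0, hn, hdeg⟩ := P.shape h d z1
  have hdeg := hdeg hz1'
  set χ := chi x0 (fun i => x1 i - x0 i) with hχ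
  have hr0 : χ (r z1) ≠ 0 := L.chi_r_ne hz1
  have hQ0 : QQ s c p x0 x1 ≠ 0 := by
    unfold QQ
    rw [Finset.prod_ne_zero_iff]
    intro p' hp'
    exact pow_ne_zero _ (L.chi_ne (Finset.mem_of_mem_erase hp') (Finset.ne_of_mem_erase hp'))
  apply exists_rootMultiplicity_lt hr0 hQ0
  intro hdvd
  have hdtp : dt (q p) (Z z1) = 0 := P.dt_zero hp hz1
  -- split the product
  set A := (s.erase p).filter (fun p' => dt (q p') (Z z1) = 0) with hA
  set B := s.filter (fun p' => dt (q p') (Z z1) ≠ 0) with hB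
  have hB' : (s.erase p).filter (fun p' => ¬ dt (q p') (Z z1) = 0) = B := by
    ext p'
    simp only [hB, Finset.mem_filter, Finset.mem_erase]
    constructor
    · rintro ⟨⟨_, h1⟩, h2⟩; exact ⟨h1, h2⟩
    · rintro ⟨h1, h2⟩
      refine ⟨⟨?_, h1⟩, h2⟩
      rintro rfl
      exact h2 hdtp
  have hQ : QQ s c p x0 x1 = (∏ p' ∈ A, (χ p') ^ c p') * ∏ p' ∈ B, (χ p') ^ c p' := by
    unfold QQ
    rw [← Finset.prod_filter_mul_prod_filter_not (s.erase p) (fun p' => dt (q p') (Z z1) = 0),
      hB']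
  have hr : χ (r z1) = χ n * ∏ p' ∈ B, (χ p') ^ c p' := by
    rw [hn, map_mul, map_prod]
    simp_rw [map_pow]
  rw [hQ, hr] at hdvd
  have hB0 : ∏ p' ∈ B, (χ p') ^ c p' ≠ 0 := by
    intro h0
    rw [h0, mul_zero] at hr
    exact hr0 hr
  have hn1 : χ n ≠ 0 := by
    intro h0
    rw [h0, zero_mul] at hr
    exact hr0 hr
  have hdvd2 := (mul_dvd_mul_iff_right hB0).1 hdvd
  have h1 := Polynomial.natDegree_le_of_dvd hdvd2 hn1
  have h2 : (∏ p' ∈ A, (χ p') ^ c p').natDegree = ∑ p' ∈ A, c p' := by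
    rw [Polynomial.natDegree_prod]
    · apply Finset.sum_congr rfl
      intro p' hp'
      rw [hA, Finset.mem_filter] at hp'
      have hs := Finset.mem_of_mem_erase hp'.1
      have hne := Finset.ne_of_mem_erase hp'.1
      rw [Polynomial.natDegree_pow]
      have h3 := chi_pl x0 x1 (q p')
      rw [P.hpl p' hs] at h3
      rw [hχ, h3, Polynomial.natDegree_C_add, Polynomial.natDegree_C_mul_X _ (L.g3 p' hs hne hp'.2),
        mul_one]
    · intro p' hp'
      rw [hA, Finset.mem_filter] at hp'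
      exact pow_ne_zero _ (L.chi_ne (Finset.mem_of_mem_erase hp'.1)
        (Finset.ne_of_mem_erase hp'.1))
  have h3 : (χ n).natDegree ≤ n.totalDegree := natDegree_chi_le _ _ _
  have h4 : ∑ p' ∈ s.filter (fun p' => dt (q p') (Z z1) = 0), c p' = c p + ∑ p' ∈ A, c p' := by
    have h5 : s.filter (fun p' => dt (q p') (Z z1) = 0) = insert p A := by
      ext p'
      simp only [hA, Finset.mem_filter, Finset.mem_erase, Finset.mem_insert]
      constructor
      · rintro ⟨h6, h7⟩
        by_cases h8 : p' = p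
        · exact Or.inl h8
        · exact Or.inr ⟨⟨h8, h6⟩, h7⟩
      · rintro (rfl | ⟨⟨_, h6⟩, h7⟩)
        · exact ⟨hp, hdtp⟩
        · exact ⟨h6, h7⟩
    rw [h5, Finset.sum_insert]
    simp [hA]
  rw [h2] at h1
  rw [h4] at hdeg
  omega

/-- If some coefficient vanishes to lower order at `t` than all the planes, the corresponding
point lies on one of the planes through the point of parameter `t`. -/
theorem Planes.exists_plane (P : Planes Z e r a0 b s k q c)
    {p : R} {z1 : ι} {x0 x1 : Fin 3 → ℂ}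
    (L : GoodLine Z r s q p z1 x0 x1) {t : ℂ} {z : ι} (hz : ¬ p ∣ r z)
    (hlt : (chi x0 (fun i => x1 i - x0 i) (r z)).rootMultiplicity t
      < (QQ s c p x0 x1).rootMultiplicity t) :
    ∃ p' ∈ s, p' ≠ p ∧ (chi x0 (fun i => x1 i - x0 i) p').eval t = 0 ∧ dt (q p') (Z z) = 0 := by
  classical
  by_contra hcon
  push Not at hcon
  set χ := chi x0 (fun i => x1 i - x0 i) with hχ
  set K := (s.erase p).filter (fun p' => (χ p').eval t = 0) with hK
  have hQ : QQ s c p x0 x1 = (∏ p' ∈ K, (χ p') ^ c p')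
      * ∏ p' ∈ (s.erase p).filter (fun p' => ¬ (χ p').eval t = 0), (χ p') ^ c p' := by
    unfold QQ
    rw [← Finset.prod_filter_mul_prod_filter_not (s.erase p) (fun p' => (χ p').eval t = 0)]
  have hQ0 : QQ s c p x0 x1 ≠ 0 := by
    unfold QQ
    rw [Finset.prod_ne_zero_iff]
    intro p' hp'
    exact pow_ne_zero _ (L.chi_ne (Finset.mem_of_mem_erase hp') (Finset.ne_of_mem_erase hp'))
  have h1 : (∏ p' ∈ (s.erase p).filter (fun p' => ¬ (χ p').eval t = 0),
      (χ p') ^ c p').rootMultiplicity t = 0 := by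
    apply Polynomial.rootMultiplicity_eq_zero
    intro h2
    rw [Polynomial.IsRoot.def, Polynomial.eval_prod, Finset.prod_eq_zero_iff] at h2
    obtain ⟨p', hp', h3⟩ := h2
    rw [Polynomial.eval_pow] at h3
    exact pow_ne_zero _ (Finset.mem_filter.1 hp').2 h3
  have h2 : (QQ s c p x0 x1).rootMultiplicity t
      = (∏ p' ∈ K, (χ p') ^ c p').rootMultiplicity t := by
    rw [hQ] at hQ0 ⊢
    rw [Polynomial.rootMultiplicity_mul hQ0, h1, add_zero]
  have h3 : ∏ p' ∈ K, (χ p') ^ c p' ∣ χ (r z) := by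
    have h4 := P.prod_dvd K ((Finset.filter_subset _ _).trans (Finset.erase_subset _ _)) c
      (f := r z) (by
        intro p' hp'
        rw [hK, Finset.mem_filter] at hp'
        exact P.dvd p' (Finset.mem_of_mem_erase hp'.1) z
          (hcon p' (Finset.mem_of_mem_erase hp'.1) (Finset.ne_of_mem_erase hp'.1) hp'.2))
    have h5 := map_dvd χ h4
    rw [map_prod] at h5
    simpa only [map_pow] using h5
  have h4 := Polynomial.rootMultiplicity_le_rootMultiplicity_of_dvd (L.chi_r_ne hz) h3 t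
  rw [h2] at hlt
  rw [hχ] at h4 hlt
  omega

/-- All multiplicities are one. -/
theorem Planes.mult_one (h : Conf Z e H) (d : Data Z e r a0 b) (P : Planes Z e r a0 b s k q c)
    (two : ∀ z : ι, ∃ w, w ≠ z) {p : R} (hp : p ∈ s) : c p = 1 := by
  classical
  by_contra hne1
  have hc1 := P.c1 p hp
  have hc2 : 2 ≤ c p := by omega
  have hcle := P.mult_le h d hp
  have hirr := P.irr p hp
  obtain ⟨z1, hz1, hz1'⟩ := P.exists_z1 h hp
  obtain ⟨x0, x1, L⟩ := P.exists_line h two hp hz1 hz1'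
  obtain ⟨t, ht⟩ := P.exists_t h d hp (by omega) hz1 hz1' L
  set v : Fin 3 → ℂ := fun i => x1 i - x0 i with hv
  set χ := chi x0 v with hχ
  set W := Finset.univ.filter (fun z => ¬ p ∣ r z) with hW
  obtain ⟨z2, hz2W, hz2min⟩ := W.exists_min_image (fun z => (χ (r z)).rootMultiplicity t)
    ⟨z1, by simpa [hW] using hz1⟩
  have hz2 : ¬ p ∣ r z2 := by simpa [hW] using hz2W
  set α := (χ (r z2)).rootMultiplicity t with hα
  have hα1 : α ≤ (χ (r z1)).rootMultiplicity t := hz2min z1 (by simpa [hW] using hz1)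
  have hαβ : α < (QQ s c p x0 x1).rootMultiplicity t := lt_of_le_of_lt hα1 ht
  set T := W.filter (fun z => (χ (r z)).rootMultiplicity t = α) with hT
  have hTW : ∀ z ∈ T, ¬ p ∣ r z := by
    intro z hz
    have := (Finset.mem_filter.1 hz).1
    simpa [hW] using this
  have hTplane : ∀ z ∈ T, ∃ p' ∈ s, p' ≠ p ∧ (χ p').eval t = 0 ∧ dt (q p') (Z z) = 0 := by
    intro z hz
    apply P.exists_plane L (hTW z hz)
    have := (Finset.mem_filter.1 hz).2
    rw [← hv, ← hχ, this]
    exact hαβ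
  -- planes through the same point of the line are dependent modulo `p`
  have hpair : ∀ p' ∈ s, ∀ p'' ∈ s, p' ≠ p → p'' ≠ p → (χ p').eval t = 0 →
      (χ p'').eval t = 0 → ∃ a b : ℂ, q p'' = a • q p' + b • q p := by
    intro p' hp' p'' hp'' hne' hne'' h1 h2
    by_contra hcon
    apply L.g4 p' hp' p'' hp'' hne' hne'' hcon
    have h3 := chi_pl x0 x1 (q p')
    have h4 := chi_pl x0 x1 (q p'')
    rw [P.hpl _ hp', ← hv, ← hχ] at h3
    rw [P.hpl _ hp'', ← hv, ← hχ] at h4
    rw [h3] at h1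
    rw [h4] at h2
    simp only [Polynomial.eval_add, Polynomial.eval_mul, Polynomial.eval_C,
      Polynomial.eval_X] at h1 h2
    -- (1 - t) A + t A' = 0 and (1 - t) B + t B' = 0
    by_cases ht0 : t = 0
    · rw [ht0, mul_zero, add_zero] at h1
      exact absurd h1 (L.g2 p' hp' hne')
    · have h5 : t * (eval x0 p' * eval x1 p'' - eval x0 p'' * eval x1 p') = 0 := by
        linear_combination eval x0 p' * h2 - eval x0 p'' * h1
      rcases mul_eq_zero.1 h5 with h6 | h6
      · exact absurd h6 ht0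
      · exact h6
  -- at most two points
  have hTcard : T.card ≤ 2 := by
    by_contra hcon
    push Not at hcon
    obtain ⟨x, y, w, hx, hy, hw, hxy, hxw, hyw⟩ := Finset.two_lt_card_iff.1 hcon
    obtain ⟨p1, hp1, hne1, hev1, hdt1⟩ := hTplane x hx
    have hall : ∀ y ∈ T, dt (q p1) (Z y) = 0 := by
      intro y hy
      obtain ⟨p2, hp2, hne2, hev2, hdt2⟩ := hTplane y hy
      obtain ⟨a, b', hab⟩ := hpair p2 hp2 p1 hp1 hne2 hne1 hev2 hev1
      rw [hab, dt_add_left, dt_smul, dt_smul, hdt2, P.dt_zero hp (hTW y hy)]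
      ring
    obtain ⟨a, ha⟩ := prop_of_three (h.ind3 x y w hxy hxw hyw) (hall x hx) (hall y hy)
      (hall w hw) (P.dt_zero hp (hTW x hx)) (P.dt_zero hp (hTW y hy)) (P.dt_zero hp (hTW w hw))
      (P.q_ne hp)
    exact P.not_prop hp hp1 hne1.symm a ha
  -- the point of the line
  obtain ⟨l, hl⟩ := L.g5 z2 t
  have hR1 : ∀ j : Fin 3, p ∣ ∑ z ∈ Finset.univ.filter (fun z => dt (q p) (Z z) = 0),
      r z * (zb (Z z) j * (zb (Z z) l) ^ e) := by
    intro j
    have h1 := plane_rel hirr (P.hpl p hp) d.rel (P.dvd p hp) (i := 0) (t := e + 1) (by omega)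
      (by omega) (Fin.cons (Pi.single j 1) (fun _ => Pi.single l 1))
    have h2 : ∀ z, ∏ k : Fin (e + 1), (∑ l', (Fin.cons (Pi.single j 1)
        (fun _ => Pi.single l 1) : Fin (e + 1) → Fin 3 → R) k l' * zb (Z z) l')
        = zb (Z z) j * (zb (Z z) l) ^ e := by
      intro z
      rw [Fin.prod_univ_succ]
      simp [Pi.single_apply]
    simp_rw [h2, pow_zero, mul_one] at h1
    exact h1
  have hR2 : p ∣ ∑ z ∈ Finset.univ.filter (fun z => dt (q p) (Z z) = 0),
      r z * (C (Z z (Fin.last 3)) * (zb (Z z) l) ^ e) := by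
    have h1 := plane_rel hirr (P.hpl p hp) d.rel (P.dvd p hp) (i := 1) (t := e) (by omega)
      (by omega) (fun _ => Pi.single l 1)
    have h2 : ∀ z, ∏ _k : Fin e, (∑ l', (Pi.single l 1 : Fin 3 → R) l' * zb (Z z) l')
        = (zb (Z z) l) ^ e := by
      intro z
      simp [Pi.single_apply]
    simp_rw [h2, pow_one, mul_assoc] at h1
    exact h1
  have hR : ∀ j : Fin 4, p ∣ ∑ z ∈ Finset.univ.filter (fun z => dt (q p) (Z z) = 0),
      r z * (C (Z z j) * (zb (Z z) l) ^ e) := by
    intro j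
    refine Fin.lastCases hR2 (fun j => ?_) j
    have h1 := dvd_add (hR1 j) (hR2.mul_left (X j))
    rw [Finset.mul_sum, ← Finset.sum_add_distrib] at h1
    convert h1 using 2
    rename_i z _
    simp only [zb]
    ring
  have hχp : χ p = 0 := GoodLine.chi_p P hp L
  have hdiv : ∀ z, (Polynomial.X - Polynomial.C t) ^ α ∣ χ (r z) := by
    intro z
    by_cases hz : p ∣ r z
    · have h1 := map_dvd χ hz
      rw [hχp, zero_dvd_iff] at h1
      rw [h1]
      exact dvd_zero _
    · rw [← Polynomial.le_rootMultiplicity_iff (L.chi_r_ne hz)]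
      exact hz2min z (by simpa [hW] using hz)
  choose ρ hρ using hdiv
  have hX0 : ((Polynomial.X - Polynomial.C t) ^ α : Polynomial ℂ) ≠ 0 :=
    pow_ne_zero _ (Polynomial.X_sub_C_ne_zero t)
  have hρT : ∀ z, (ρ z).eval t ≠ 0 → z ∈ T := by
    intro z hz
    by_cases hzp : p ∣ r z
    · exfalso
      have h1 := map_dvd χ hzp
      rw [hχp, zero_dvd_iff, hρ z] at h1
      rcases mul_eq_zero.1 h1 with h2 | h2
      · exact hX0 h2
      · apply hz
        rw [h2, Polynomial.eval_zero]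
    · have hzW : z ∈ W := by simpa [hW] using hzp
      rw [hT, Finset.mem_filter]
      refine ⟨hzW, le_antisymm ?_ (hz2min z hzW)⟩
      by_contra hcon
      push Not at hcon
      have h1 : (Polynomial.X - Polynomial.C t) ^ (α + 1) ∣ χ (r z) :=
        (Polynomial.le_rootMultiplicity_iff (L.chi_r_ne hzp)).1 hcon
      rw [hρ z, pow_succ] at h1
      have h2 := (mul_dvd_mul_iff_left hX0).1 h1
      rw [Polynomial.dvd_iff_isRoot] at h2
      exact hz h2
  have hρ2 : (ρ z2).eval t ≠ 0 := by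
    intro h0
    have h1 : (Polynomial.X - Polynomial.C t) ∣ ρ z2 := Polynomial.dvd_iff_isRoot.2 h0
    have h2 : (Polynomial.X - Polynomial.C t) ^ (α + 1) ∣ χ (r z2) := by
      rw [hρ z2, pow_succ]
      exact (mul_dvd_mul_iff_left hX0).2 h1
    have h3 := (Polynomial.le_rootMultiplicity_iff (L.chi_r_ne hz2)).2 h2
    rw [← hv, ← hχ, ← hα] at h3
    omega
  set cc : ι → ℂ := fun z => if dt (q p) (Z z) = 0 then
    (ρ z).eval t * (eval (fun i => x0 i + v i * t) (zb (Z z) l)) ^ e else 0 with hcc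
  have hccT : ∀ z, z ∉ T → cc z = 0 := by
    intro z hz
    simp only [hcc]
    split_ifs
    · have : (ρ z).eval t = 0 := by
        by_contra hne
        exact hz (hρT z hne)
      rw [this, zero_mul]
    · rfl
  have hsum : ∑ z, cc z • Z z = 0 := by
    funext j
    obtain ⟨f, hf⟩ := hR j
    have h1 := congrArg χ hf
    rw [map_mul, hχp, zero_mul, map_sum, Finset.sum_filter] at h1
    have h2 : ∀ z, (if dt (q p) (Z z) = 0 then χ (r z * (C (Z z j) * (zb (Z z) l) ^ e)) else 0)
        = (Polynomial.X - Polynomial.C t) ^ α * (if dt (q p) (Z z) = 0 then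
          ρ z * (Polynomial.C (Z z j) * (χ (zb (Z z) l)) ^ e) else 0) := by
      intro z
      split_ifs
      · rw [map_mul, map_mul, map_pow, hρ z, hχ, chi_C]
        ring
      · rw [mul_zero]
    simp_rw [h2] at h1
    rw [← Finset.mul_sum] at h1
    rcases mul_eq_zero.1 h1 with h3 | h3
    · exact absurd h3 hX0
    · have h4 := congrArg (Polynomial.eval t) h3
      rw [Polynomial.eval_finsetSum, Polynomial.eval_zero] at h4
      rw [Finset.sum_apply, Pi.zero_apply, ← h4]
      apply Finset.sum_congr rfl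
      intro z _
      simp only [hcc, Pi.smul_apply, smul_eq_mul]
      split_ifs
      · rw [Polynomial.eval_mul, Polynomial.eval_mul, Polynomial.eval_C, Polynomial.eval_pow,
          hχ, eval_chi]
        ring
      · simp
  have hz2T : z2 ∈ T := Finset.mem_filter.2 ⟨hz2W, rfl⟩
  have hcc2 : cc z2 ≠ 0 := by
    simp only [hcc, P.dt_zero hp hz2, if_true]
    exact mul_ne_zero hρ2 (pow_ne_zero _ hl)
  -- conclude
  have hsum2 : ∑ z ∈ T, cc z • Z z = 0 := by
    rw [← hsum]
    apply Finset.sum_subset (Finset.subset_univ _)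
    intro z _ hz
    rw [hccT z hz, zero_smul]
  rw [← Finset.add_sum_erase T _ hz2T] at hsum2
  have hcard1 : (T.erase z2).card ≤ 1 := by
    rw [Finset.card_erase_of_mem hz2T]; omega
  rcases Nat.lt_or_ge 0 (T.erase z2).card with hpos | h0
  · have h1 : (T.erase z2).card = 1 := by omega
    obtain ⟨w, hw⟩ := Finset.card_eq_one.1 h1
    have hwne : w ≠ z2 := by
      have : w ∈ T.erase z2 := by rw [hw]; exact Finset.mem_singleton_self w
      exact Finset.ne_of_mem_erase this
    rw [hw, Finset.sum_singleton] at hsum2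
    have h2 := LinearIndependent.pair_iff.1 (h.ind2 z2 w hwne.symm) _ _ hsum2
    exact hcc2 h2.1
  · have h1 : T.erase z2 = ∅ := Finset.card_eq_zero.1 (by omega)
    rw [h1, Finset.sum_empty, add_zero] at hsum2
    obtain ⟨w, hw⟩ := two z2
    have h2 := LinearIndependent.pair_iff.1 (h.ind2 z2 w hw.symm) (cc z2) 0 (by
      rw [hsum2, zero_smul, add_zero])
    exact hcc2 h2.1

end

end Pool.Agent.Work.MP_31dc3b_ag
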