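import Pool.Agent.Work.MP_31dc3b_ag.Val2
import Pool.Agent.Work.MP_31dc3b_ag.Deg

/-!
Global structure of the generic relation: planes and multiplicities.
-/

set_option autoImplicit false

open MvPolynomial

namespace Pool.Agent.Work.MP_31dc3b_ag

/-- Squarefree elements are products of pairwise non-associated irreducibles. -/
theorem exists_factors (a : R) (ha : a ≠ 0)
    (hsq : ∀ p a', Irreducible p → a = p * a' → ¬ p ∣ a') :
    ∃ (s : Finset R) (k : ℂ), k ≠ 0 ∧ (∀ p ∈ s, Irreducible p) ∧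
      (∀ p ∈ s, ∀ p' ∈ s, p ≠ p' → ¬ p ∣ p') ∧ a = C k * ∏ p ∈ s, p := by
  classical
  induction hn : a.totalDegree using Nat.strong_induction_on generalizing a with
  | _ n ih =>
    by_cases hu : IsUnit a
    · obtain ⟨k, hk, hk2⟩ := (isUnit_iff_eq_C_of_isReduced).1 hu
      exact ⟨∅, k, hk.ne_zero, by simp, by simp, by simpa using hk2⟩
    · obtain ⟨p, hp, a', ha'⟩ := WfDvdMonoid.exists_irreducible_factor hu ha
      have ha'0 : a' ≠ 0 := by
        rintro rfl
        rw [mul_zero] at ha'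
        exact ha ha'
      have hlt : a'.totalDegree < n := by
        rw [← hn, ha', totalDegree_mul_of_isDomain hp.ne_zero ha'0]
        have := one_le_totalDegree hp
        omega
      obtain ⟨s, k, hk, hs1, hs2, hs3⟩ := ih _ hlt a' ha'0 (by
        intro p' a'' hp' h1 h2
        apply hsq p' (p * a'') hp'
        · rw [ha', h1]; ring
        · exact h2.mul_left _) rfl
      have hpa' : ¬ p ∣ a' := hsq p a' hp ha'
      have hdiv : ∀ p' ∈ s, p' ∣ a' := by
        intro p' hp'
        rw [hs3]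
        exact (Finset.dvd_prod_of_mem _ hp').mul_left _
      have hps : ∀ p' ∈ s, ¬ p ∣ p' := fun p' hp' h => hpa' (h.trans (hdiv p' hp'))
      have hps2 : ∀ p' ∈ s, ¬ p' ∣ p := by
        intro p' hp' h
        exact hps p' hp' ((hs1 p' hp').associated_of_dvd hp h).symm.dvd
      have hnot : p ∉ s := fun h => hps p h dvd_rfl
      refine ⟨insert p s, k, hk, ?_, ?_, ?_⟩
      · intro p' hp'
        rcases Finset.mem_insert.1 hp' with rfl | h
        · exact hp
        · exact hs1 p' h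
      · intro p1 h1 p2 h2 hne
        rcases Finset.mem_insert.1 h1 with rfl | h1'
        · rcases Finset.mem_insert.1 h2 with rfl | h2'
          · exact absurd rfl hne
          · exact hps p2 h2'
        · rcases Finset.mem_insert.1 h2 with rfl | h2'
          · exact hps2 p1 h1'
          · exact hs2 p1 h1' p2 h2' hne
      · rw [Finset.prod_insert hnot, ha', hs3]
        ring

/-- The planes with their multiplicities. -/
structure Planes {ι : Type*} [Fintype ι] (Z : ι → Fin 4 → ℂ) (e : ℕ) (r : ι → R) (a0 : R)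
    (b : Fin 4 → R) (s : Finset R) (k : ℂ) (q : R → Fin 4 → ℂ) (c : R → ℕ) : Prop where
  k0 : k ≠ 0
  irr : ∀ p ∈ s, Irreducible p
  ndvd : ∀ p ∈ s, ∀ p' ∈ s, p ≠ p' → ¬ p ∣ p'
  prod : a0 = C k * ∏ p ∈ s, p
  c1 : ∀ p ∈ s, 1 ≤ c p
  hpl : ∀ p ∈ s, pl (q p) = p
  dvd : ∀ p ∈ s, ∀ z, dt (q p) (Z z) ≠ 0 → p ^ c p ∣ r z
  hpair : ∀ p ∈ s, ∀ v, p ∣ pair b v - C ((c p : ℂ) * dt (q p) v) * (C k * ∏ p' ∈ s.erase p, p')
  card : ∀ p ∈ s, ∀ t : Finset ι, (∀ z, z ∉ t → p ∣ r z) → e + 3 ≤ t.card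

section
variable {ι : Type*} [Fintype ι] {Z : ι → Fin 4 → ℂ} {e : ℕ} {H : R}
  {r : ι → R} {a0 : R} {b : Fin 4 → R}

theorem Conf.exists_planes (h : Conf Z e H) (d : Data Z e r a0 b)
    (two : ∀ z : ι, ∃ w, w ≠ z) : ∃ s k q c, Planes Z e r a0 b s k q c := by
  classical
  obtain ⟨s, k, hk, hs1, hs2, hs3⟩ := exists_factors a0 d.a0ne (by
    intro p a' hp ha
    obtain ⟨_, _, _, _, h1, _⟩ := h.prime_structure d two hp ha
    exact h1)
  have hea : ∀ p ∈ s, a0 = p * (C k * ∏ p' ∈ s.erase p, p') := by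
    intro p hp
    rw [hs3, ← Finset.mul_prod_erase s _ hp]
    ring
  have hex : ∀ p, ∃ (q : Fin 4 → ℂ) (c : ℕ), p ∈ s → 1 ≤ c ∧
      pl q = p ∧
      (∀ z, dt q (Z z) ≠ 0 → p ^ c ∣ r z) ∧
      (∀ v, p ∣ pair b v
        - C ((c : ℂ) * dt q v) * (C k * ∏ p' ∈ s.erase p, p')) := by
    intro p
    by_cases hp : p ∈ s
    · obtain ⟨q, c, h1, h2, _, h4, h5⟩ := h.prime_structure d two (hs1 p hp) (hea p hp)
      exact ⟨q, c, fun _ => ⟨h1, h2, h4, h5⟩⟩
    · exact ⟨0, 0, fun h0 => absurd h0 hp⟩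
  choose q c hqc using hex
  refine ⟨s, k, q, c, hk, hs1, hs2, hs3, fun p hp => (hqc p hp).1, fun p hp => (hqc p hp).2.1,
    fun p hp => (hqc p hp).2.2.1, fun p hp => (hqc p hp).2.2.2,
    fun p hp t ht => h.card_not_dvd d two (hs1 p hp) t ht⟩

variable {s : Finset R} {k : ℂ} {q : R → Fin 4 → ℂ} {c : R → ℕ}

theorem Planes.prod_dvd (P : Planes Z e r a0 b s k q c) (t : Finset R) (ht : t ⊆ s) (m : R → ℕ)
    {f : R} (hf : ∀ p ∈ t, p ^ m p ∣ f) : ∏ p ∈ t, p ^ m p ∣ f := by
  apply Finset.prod_dvd_of_isRelPrime _ hf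
  intro p hp p' hp' hne
  have h1 : IsRelPrime p p' := by
    rw [(P.irr p (ht hp)).isRelPrime_iff_not_dvd]
    exact P.ndvd p (ht hp) p' (ht hp') hne
  exact h1.pow

/-- polar part of the logarithmic derivative -/
noncomputable def polar (s : Finset R) (k : ℂ) (q : R → Fin 4 → ℂ) (c : R → ℕ) (v : Fin 4 → ℂ) : R := by
  classical
  exact ∑ p ∈ s, C ((c p : ℂ) * dt (q p) v) * (C k * ∏ p' ∈ s.erase p, p')

theorem Planes.exists_g (P : Planes Z e r a0 b s k q c) :
    ∃ g : Fin 4 → R, ∀ v, pair b v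
      = polar s k q c v + a0 * pair g v := by
  classical
  have h1 : ∀ v, a0 ∣ pair b v - polar s k q c v := by
    intro v
    rw [P.prod]
    have h2 : ∏ p ∈ s, p ∣ pair b v - polar s k q c v := by
      have h3 := P.prod_dvd s (le_refl s) (fun _ => 1)
        (f := pair b v - polar s k q c v) (by
        intro p hp
        rw [pow_one]
        unfold polar
        rw [← Finset.add_sum_erase s _ hp, ← sub_sub]
        apply dvd_sub (P.hpair p hp v)
        apply Finset.dvd_sum
        intro p' hp'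
        have hmem : p ∈ s.erase p' :=
          Finset.mem_erase.2 ⟨(Finset.ne_of_mem_erase hp').symm, hp⟩
        exact ((Finset.dvd_prod_of_mem _ hmem).mul_left _).mul_left _)
      simpa using h3
    have hk : IsUnit (C k : R) := (isUnit_iff_ne_zero.2 P.k0).map C
    exact (hk.mul_left_dvd).2 h2
  have h2 : ∀ i : Fin 4, a0 ∣ pair b (Pi.single i 1)
      - polar s k q c (Pi.single i 1) := fun i => h1 _
  choose g hg using h2
  refine ⟨g, fun v => ?_⟩
  have h3 : polar s k q c v = ∑ i, C (v i) * polar s k q c (Pi.single i 1) := by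
    unfold polar
    simp_rw [Finset.mul_sum]
    rw [Finset.sum_comm]
    apply Finset.sum_congr rfl
    intro p _
    have h4 : ∀ i, dt (q p) (Pi.single i 1) = q p i := by
      intro i; simp [dt, Pi.single_apply]
    simp_rw [h4]
    unfold dt
    rw [Finset.mul_sum, map_sum, Finset.sum_mul]
    apply Finset.sum_congr rfl
    intro i _
    simp only [C_mul]
    ring
  rw [h3]
  simp only [pair]
  rw [Finset.mul_sum, ← Finset.sum_add_distrib]
  apply Finset.sum_congr rfl
  intro i _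
  have h5 := hg i
  rw [pair_single] at h5
  linear_combination (C (v i)) * h5

end

end Pool.Agent.Work.MP_31dc3b_ag
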