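import Pool.Agent.Work.MP_31dc3b_ag.Struct

/-!
The explicit shape of the coefficients of the generic relation.
-/

set_option autoImplicit false

open MvPolynomial

namespace Pool.Agent.Work.MP_31dc3b_ag

section
variable {ι : Type*} [Fintype ι] {Z : ι → Fin 4 → ℂ} {e : ℕ} {H : R}
  {r : ι → R} {a0 : R} {b : Fin 4 → R}
variable {s : Finset R} {k : ℂ} {q : R → Fin 4 → ℂ} {c : R → ℕ}

theorem Planes.a0_eq [DecidableEq R] (P : Planes Z e r a0 b s k q c) {p : R} (hp : p ∈ s) :
    a0 = p * (C k * ∏ p' ∈ s.erase p, p') := by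
  rw [P.prod, ← Finset.mul_prod_erase s _ hp]
  ring

theorem Planes.log_prod [DecidableEq R] (P : Planes Z e r a0 b s k q c) (v : Fin 4 → ℂ)
    (t : Finset R) (ht : t ⊆ s) :
    a0 * Dz v (∏ p ∈ t, p ^ c p)
      = (∑ p ∈ t, (C ((c p : ℂ) * dt (q p) v) * (C k * ∏ p' ∈ s.erase p, p')
          - C ((c p : ℂ) * v (Fin.last 3)) * a0)) * ∏ p ∈ t, p ^ c p := by
  have h1 := Derivation.prod_eq (a0 • Dz v) t (fun p => p ^ c p)
    (fun p => C ((c p : ℂ) * dt (q p) v) * (C k * ∏ p' ∈ s.erase p, p')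
          - C ((c p : ℂ) * v (Fin.last 3)) * a0) (by
    intro p hp
    have hp' := ht hp
    have h2 := P.a0_eq hp'
    have h3 := Dz_pow_mul (Dz v) p 1 (c p)
    have h4 : Dz v p = C (dt (q p) v) - C (v (Fin.last 3)) * p := by
      have := Dz_pl v (q p)
      rw [P.hpl p hp'] at this
      exact this
    have h5 : Dz v (1 : R) = 0 := by
      have := Dz_C v 1
      rwa [C_1] at this
    rw [mul_one, h5, h4] at h3
    have h6 : (a0 • Dz v) (p ^ c p) = a0 * Dz v (p ^ c p) := rfl
    rw [h6]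
    set E := C k * ∏ p' ∈ s.erase p, p' with hE
    rw [h2]
    simp only [C_mul]
    linear_combination E * h3)
  exact h1

theorem polar_filter [DecidableEq R] (v : Fin 4 → ℂ) :
    polar s k q c v = ∑ p ∈ s.filter (fun p => dt (q p) v ≠ 0),
      C ((c p : ℂ) * dt (q p) v) * (C k * ∏ p' ∈ s.erase p, p') := by
  classical
  unfold polar
  rw [Finset.sum_filter]
  apply Finset.sum_congr rfl
  intro p _
  split_ifs with h
  · congr
    exact Subsingleton.elim _ _
  · push Not at h
    rw [h]; simp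

open Classical in
/-- The shape of the coefficients. -/
theorem Planes.shape (h : Conf Z e H) (d : Data Z e r a0 b) (P : Planes Z e r a0 b s k q c) :
    ∀ z, ∃ n : R, n ≠ 0 ∧ r z = n * ∏ p ∈ s.filter (fun p => dt (q p) (Z z) ≠ 0), p ^ c p ∧
      (Z z (Fin.last 3) ≠ 0 →
        e + 3 + n.totalDegree = ∑ p ∈ s.filter (fun p => dt (q p) (Z z) = 0), c p) := by
  obtain ⟨g, hg⟩ := P.exists_g
  have hn : ∀ z, ∃ n, r z = n * ∏ p ∈ s.filter (fun p => dt (q p) (Z z) ≠ 0), p ^ c p := by
    intro z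
    have h1 := P.prod_dvd (s.filter (fun p => dt (q p) (Z z) ≠ 0)) (Finset.filter_subset _ _) c
      (f := r z) (by
        intro p hp
        rw [Finset.mem_filter] at hp
        exact P.dvd p hp.1 z hp.2)
    obtain ⟨n, hn⟩ := h1
    exact ⟨n, by rw [hn, mul_comm]⟩
  choose n hn using hn
  have hn0 : ∀ z, n z ≠ 0 := by
    intro z h0
    apply d.rne z
    rw [hn, h0, zero_mul]
  have hprod0 : ∀ z, (∏ p ∈ s.filter (fun p => dt (q p) (Z z) ≠ 0), p ^ c p) ≠ 0 := by
    intro z h0
    apply d.rne z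
    rw [hn, h0, mul_zero]
  -- the eigenvalue equation
  have hD : ∀ z, Dz (Z z) (n z) = (pair g (Z z) + C (Z z (Fin.last 3) *
      ∑ p ∈ s.filter (fun p => dt (q p) (Z z) ≠ 0), (c p : ℂ))) * n z := by
    intro z
    have h1 := d.eqn z
    have h2 := P.log_prod (Z z) (s.filter (fun p => dt (q p) (Z z) ≠ 0))
      (Finset.filter_subset _ _)
    rw [Finset.sum_sub_distrib, ← polar_filter] at h2
    rw [hg, hn z, Derivation.leibniz] at h1
    simp only [smul_eq_mul] at h1
    set Q := ∏ p ∈ s.filter (fun p => dt (q p) (Z z) ≠ 0), p ^ c p with hQ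
    have h3 : ∑ p ∈ s.filter (fun p => dt (q p) (Z z) ≠ 0),
        C ((c p : ℂ) * Z z (Fin.last 3)) * a0
        = C (Z z (Fin.last 3) * ∑ p ∈ s.filter (fun p => dt (q p) (Z z) ≠ 0), (c p : ℂ)) * a0 := by
      rw [← Finset.sum_mul, ← map_sum, ← Finset.sum_mul, mul_comm (Z z (Fin.last 3))]
    rw [h3] at h2
    apply mul_left_cancel₀ d.a0ne
    apply mul_left_cancel₀ (hprod0 z)
    rw [← hQ]
    linear_combination h1 - n z * h2
  -- the polynomial part is constant
  have hconst : ∀ z, (pair g (Z z)).totalDegree = 0 := by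
    intro z
    have h1 := totalDegree_Dz_le (Z z) (n z)
    rw [hD] at h1
    by_cases h0 : pair g (Z z) + C (Z z (Fin.last 3) *
      ∑ p ∈ s.filter (fun p => dt (q p) (Z z) ≠ 0), (c p : ℂ)) = 0
    · have h2 : pair g (Z z) = C (-(Z z (Fin.last 3) *
        ∑ p ∈ s.filter (fun p => dt (q p) (Z z) ≠ 0), (c p : ℂ))) := by
        rw [C_neg]; linear_combination h0
      rw [h2, totalDegree_C]
    · rw [totalDegree_mul_of_isDomain h0 (hn0 z)] at h1
      have h2 : (pair g (Z z) + C (Z z (Fin.last 3) *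
        ∑ p ∈ s.filter (fun p => dt (q p) (Z z) ≠ 0), (c p : ℂ))).totalDegree = 0 := by omega
      rw [totalDegree_eq_zero_iff_eq_C] at h2
      set κ := coeff 0 (pair g (Z z) + C (Z z (Fin.last 3) *
        ∑ p ∈ s.filter (fun p => dt (q p) (Z z) ≠ 0), (c p : ℂ)))
      have h3 : pair g (Z z) = C (κ - (Z z (Fin.last 3) *
        ∑ p ∈ s.filter (fun p => dt (q p) (Z z) ≠ 0), (c p : ℂ))) := by
        rw [C_sub]; linear_combination h2
      rw [h3, totalDegree_C]
  have hgC : ∀ i, g i = C (coeff 0 (g i)) := by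
    have h1 : ∀ m : Fin 3 →₀ ℕ, m ≠ 0 → (fun i => coeff m (g i)) = 0 := by
      intro m hm
      apply h.span
      intro z
      have h2 := hconst z
      rw [totalDegree_eq_zero_iff_eq_C] at h2
      have h3 := congrArg (coeff m) h2
      rw [coeff_C, if_neg (Ne.symm hm), pair, coeff_sum] at h3
      rw [← h3]
      apply Finset.sum_congr rfl
      intro i _
      rw [mul_comm (g i), coeff_C_mul, mul_comm]
    intro i
    ext m
    rw [coeff_C]
    split_ifs with hm
    · rw [hm]
    · exact congrFun (h1 m (Ne.symm hm)) i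
  set γ : Fin 4 → ℂ := fun i => coeff 0 (g i) with hγ
  -- the sum relation
  have hsum : pl γ = C ((e : ℂ) + 3 - ∑ p ∈ s, (c p : ℂ)) := by
    have h1 := d.bsum
    have hb : ∀ i, b i = polar s k q c (Pi.single i 1) + a0 * g i := by
      intro i
      have := hg (Pi.single i 1)
      rwa [pair_single, pair_single] at this
    simp_rw [hb] at h1
    have h2 : ∑ i : Fin 3, polar s k q c (Pi.single i.castSucc 1) * X i
        + polar s k q c (Pi.single (Fin.last 3) 1) = C (∑ p ∈ s, (c p : ℂ)) * a0 := by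
      unfold polar
      have h4 : ∀ p i, dt (q p) (Pi.single i 1) = q p i := by
        intro p i; simp [dt, Pi.single_apply]
      simp_rw [h4, Finset.sum_mul]
      rw [Finset.sum_comm, ← Finset.sum_add_distrib, map_sum, Finset.sum_mul]
      apply Finset.sum_congr rfl
      intro p hp
      have h5 := P.a0_eq hp
      have h6 := P.hpl p hp
      have h7 : ∑ i : Fin 3, C (q p i.castSucc) * X i + C (q p (Fin.last 3)) = p := h6
      rw [h5]
      simp only [C_mul]
      set E := C k * ∏ p' ∈ s.erase p, p' with hE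
      rw [Fin.sum_univ_three] at h7 ⊢
      linear_combination (C (c p : ℂ)) * E * h7
    apply mul_left_cancel₀ d.a0ne
    have h3 : a0 * pl γ = ∑ i : Fin 3, (a0 * g i.castSucc) * X i + a0 * g (Fin.last 3) := by
      unfold pl
      rw [mul_add, Finset.mul_sum]
      congr 1
      · apply Finset.sum_congr rfl
        intro i _
        rw [hγ]
        simp only
        rw [← hgC]
        ring
      · rw [hγ]
        simp only
        rw [← hgC]
    rw [h3, C_sub]
    simp_rw [add_mul, Finset.sum_add_distrib] at h1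
    linear_combination h1 - h2
  have hγ2 : γ = Pi.single (Fin.last 3) ((e : ℂ) + 3 - ∑ p ∈ s, (c p : ℂ)) := by
    by_contra hne
    apply pl_ne_zero (sub_ne_zero.2 hne)
    have h1 : pl (γ - Pi.single (Fin.last 3) ((e : ℂ) + 3 - ∑ p ∈ s, (c p : ℂ)))
        = pl γ - C ((e : ℂ) + 3 - ∑ p ∈ s, (c p : ℂ)) := by
      generalize ((e : ℂ) + 3 - ∑ p ∈ s, (c p : ℂ)) = K
      unfold pl
      simp only [Fin.sum_univ_three, Pi.sub_apply, Pi.single_apply, C_sub]
      have h5 : ∀ i : Fin 3, i.castSucc ≠ Fin.last 3 := fun i => (Fin.castSucc_lt_last i).ne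
      simp only [h5, if_false, if_true, map_zero]
      ring
    rw [h1, hsum, sub_self]
  have hpairg : ∀ z, pair g (Z z) = C (Z z (Fin.last 3) * ((e : ℂ) + 3 - ∑ p ∈ s, (c p : ℂ))) := by
    intro z
    have h1 : pair g (Z z) = C (dt γ (Z z)) := by
      unfold pair dt
      rw [map_sum]
      apply Finset.sum_congr rfl
      intro i _
      rw [C_mul, hγ]
      simp only
      rw [← hgC]
    rw [h1, hγ2]
    congr 1
    unfold dt
    rw [Finset.sum_eq_single (Fin.last 3)]
    · simp [mul_comm]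
    · intro j _ hj
      rw [Pi.single_eq_of_ne hj, zero_mul]
    · intro h0; exact absurd (Finset.mem_univ _) h0
  intro z
  refine ⟨n z, hn0 z, hn z, fun hz => ?_⟩
  have h1 := hD z
  rw [hpairg, ← C_add, ← mul_add] at h1
  have h2 := totalDegree_of_Dz_eq (hn0 z) h1 hz
  have h3 : (∑ p ∈ s, (c p : ℂ)) = ∑ p ∈ s.filter (fun p => dt (q p) (Z z) = 0), (c p : ℂ)
      + ∑ p ∈ s.filter (fun p => dt (q p) (Z z) ≠ 0), (c p : ℂ) :=
    (Finset.sum_filter_add_sum_filter_not s _ _).symm
  have h4 : ((e + 3 + (n z).totalDegree : ℕ) : ℂ)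
      = ((∑ p ∈ s.filter (fun p => dt (q p) (Z z) = 0), c p : ℕ) : ℂ) := by
    push_cast
    linear_combination h2 + h3
  exact_mod_cast h4

end

end Pool.Agent.Work.MP_31dc3b_ag
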