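import Pool.Agent.Work.MP_31dc3b_ag.Gen

/-!
Poles of the logarithmic derivative: every irreducible factor of the denominator is the
polynomial of a plane containing many points of the configuration.
-/

set_option autoImplicit false

open MvPolynomial

namespace Pool.Agent.Work.MP_31dc3b_ag

/-- The standard pairing on four-space. -/
noncomputable def dt (q v : Fin 4 → ℂ) : ℂ := ∑ i, q i * v i

theorem not_dvd_C {p : R} (hp : Irreducible p) {c : ℂ} (hc : c ≠ 0) : ¬ p ∣ (C c : R) := by
  intro h
  exact hp.not_isUnit (isUnit_of_dvd_unit h ((isUnit_iff_ne_zero.2 hc).map C))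

theorem eval_pl (q : Fin 4 → ℂ) (x : Fin 3 → ℂ) :
    eval x (pl q) = ∑ i : Fin 3, q i.castSucc * x i + q (Fin.last 3) := by
  simp [pl]

theorem totalDegree_pl (q : Fin 4 → ℂ) : (pl q).totalDegree ≤ 1 := by
  unfold pl
  refine (totalDegree_add _ _).trans (max_le ?_ (by rw [totalDegree_C]; omega))
  refine (totalDegree_finsetSum _ _).trans (Finset.sup_le ?_)
  intro i _
  refine (totalDegree_mul _ _).trans ?_
  rw [totalDegree_C, totalDegree_X]

theorem pl_ne_zero {q : Fin 4 → ℂ} (hq : q ≠ 0) : pl q ≠ 0 := by
  intro h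
  apply hq
  have h0 : q (Fin.last 3) = 0 := by
    have := congrArg (eval 0) h
    rw [eval_pl] at this
    simpa using this
  funext i
  refine Fin.lastCases h0 (fun i => ?_) i
  have := congrArg (eval (Pi.single i 1)) h
  rw [eval_pl, h0] at this
  simpa [Pi.single_apply] using this

theorem pl_smul (c : ℂ) (q : Fin 4 → ℂ) : pl (c • q) = C c * pl q := by
  unfold pl
  simp only [Pi.smul_apply, smul_eq_mul, C_mul, mul_add, Finset.mul_sum]
  congr 1
  apply Finset.sum_congr rfl
  intro i _
  ring

theorem dt_smul (c : ℂ) (q v : Fin 4 → ℂ) : dt (c • q) v = c * dt q v := by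
  unfold dt
  rw [Finset.mul_sum]
  apply Finset.sum_congr rfl
  intro i _
  simp [mul_assoc]

theorem Dz_pl (v q : Fin 4 → ℂ) :
    Dz v (pl q) = C (dt q v) - C (v (Fin.last 3)) * pl q := by
  unfold pl dt
  rw [map_add, map_sum, Dz_C]
  simp only [Derivation.leibniz, Dz_C, Dz_X, smul_eq_mul, mul_zero, add_zero]
  rw [Fin.sum_univ_castSucc (f := fun i => q i * v i)]
  simp only [Fin.sum_univ_three, zb, C_add, C_mul]
  ring

theorem minor_eq (v u : Fin 4 → ℂ) (i j : Fin 3) :
    zb v i * zb u j - zb v j * zb u i
      = C (v i.castSucc * u j.castSucc - v j.castSucc * u i.castSucc)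
        - C (v i.castSucc * u (Fin.last 3) - v (Fin.last 3) * u i.castSucc) * X j
        + C (v j.castSucc * u (Fin.last 3) - v (Fin.last 3) * u j.castSucc) * X i := by
  simp only [zb, C_sub, C_mul]
  ring

theorem exists_minor {p : R} (hp : Irreducible p) {v u : Fin 4 → ℂ}
    (h : LinearIndependent ℂ ![v, u]) :
    ∃ i j : Fin 3, ¬ p ∣ zb v i * zb u j - zb v j * zb u i := by
  by_contra hcon
  push Not at hcon
  rw [LinearIndependent.pair_iff] at h
  by_cases hA : ∃ i : Fin 3, v i.castSucc * u (Fin.last 3) - v (Fin.last 3) * u i.castSucc ≠ 0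
  · obtain ⟨i, hi⟩ := hA
    have hjk : ∀ i : Fin 3, ∃ j k : Fin 3, j ≠ i ∧ k ≠ i ∧ j ≠ k := by decide
    obtain ⟨j, k, hji, hki, hjk⟩ := hjk i
    have hdeg : ∀ l, (zb v i * zb u l - zb v l * zb u i).totalDegree ≤ 1 := by
      intro l
      rw [minor_eq]
      refine (totalDegree_add _ _).trans (max_le ?_ ?_)
      · refine (totalDegree_sub _ _).trans (max_le (by rw [totalDegree_C]; omega) ?_)
        refine (totalDegree_mul _ _).trans ?_
        rw [totalDegree_C, totalDegree_X]
      · refine (totalDegree_mul _ _).trans ?_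
        rw [totalDegree_C, totalDegree_X]
    have hdiff : ∀ l l', l ≠ i → eval (Pi.single l' 1) (zb v i * zb u l - zb v l * zb u i)
        - eval 0 (zb v i * zb u l - zb v l * zb u i)
        = (if l = l' then -(v i.castSucc * u (Fin.last 3) - v (Fin.last 3) * u i.castSucc)
            else 0) + (if i = l' then
              (v l.castSucc * u (Fin.last 3) - v (Fin.last 3) * u l.castSucc) else 0) := by
      intro l l' hl
      rw [minor_eq]
      simp only [map_add, map_sub, map_mul, eval_C, eval_X, Pi.single_apply, Pi.zero_apply]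
      by_cases h1 : l = l'
      · by_cases h2 : i = l'
        · exact absurd (h1.trans h2.symm) hl
        · simp [h1, h2]
      · by_cases h2 : i = l'
        · simp [h1, h2]
        · simp [h1, h2]
    have hne : ∀ l, l ≠ i → zb v i * zb u l - zb v l * zb u i ≠ 0 := by
      intro l hl h0
      have := hdiff l l hl
      rw [h0, map_zero, map_zero, if_pos rfl, if_neg (Ne.symm hl)] at this
      apply hi
      linear_combination this
    obtain ⟨c1, hc1, h1⟩ := eq_C_mul_of_dvd hp (hne j hji) (hdeg j) (hcon i j)
    obtain ⟨c2, hc2, h2⟩ := eq_C_mul_of_dvd hp (hne k hki) (hdeg k) (hcon i k)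
    have h3 := hdiff j j hji
    have h4 := hdiff k j hki
    rw [if_pos rfl, if_neg (Ne.symm hji), h1] at h3
    rw [if_neg (Ne.symm hjk), if_neg (Ne.symm hji), h2] at h4
    simp only [map_mul, eval_C] at h3 h4
    have h5 : c2 * (eval (Pi.single j 1) p - eval 0 p) = 0 := by linear_combination h4
    have h6 : eval (Pi.single j 1) p - eval 0 p = 0 := by
      rcases mul_eq_zero.1 h5 with h7 | h7
      · exact absurd h7 hc2
      · exact h7
    apply hi
    linear_combination h3 - c1 * h6
  · push Not at hA
    have hB : ∀ i j : Fin 3, v i.castSucc * u j.castSucc - v j.castSucc * u i.castSucc = 0 := by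
      intro i j
      by_contra hne
      have h1 := hcon i j
      rw [minor_eq, hA i, hA j] at h1
      simp only [map_zero, zero_mul, sub_zero, add_zero] at h1
      exact not_dvd_C hp hne h1
    have hall : ∀ i j : Fin 4, v i * u j = v j * u i := by
      intro i j
      refine Fin.lastCases ?_ (fun i => ?_) i
      · refine Fin.lastCases ?_ (fun j => ?_) j
        · rfl
        · linear_combination -(hA j)
      · refine Fin.lastCases ?_ (fun j => ?_) j
        · linear_combination (hA i)
        · linear_combination (hB i j)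
    have hv : v = 0 := by
      funext k
      refine neg_eq_zero.1 (h (u k) (-(v k)) ?_).2
      funext j
      simp only [Pi.add_apply, Pi.smul_apply, smul_eq_mul, Pi.zero_apply]
      linear_combination hall j k
    have := h 1 0 (by rw [hv]; simp)
    exact one_ne_zero this.1

theorem pair_add (b : Fin 4 → R) (v w : Fin 4 → ℂ) : pair b (v + w) = pair b v + pair b w := by
  unfold pair
  rw [← Finset.sum_add_distrib]
  apply Finset.sum_congr rfl
  intro i _
  rw [Pi.add_apply, C_add, mul_add]

theorem pair_smul (b : Fin 4 → R) (c : ℂ) (v : Fin 4 → ℂ) : pair b (c • v) = C c * pair b v := by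
  unfold pair
  rw [Finset.mul_sum]
  apply Finset.sum_congr rfl
  intro i _
  rw [Pi.smul_apply, smul_eq_mul, C_mul]
  ring

theorem pair_single (b : Fin 4 → R) (i : Fin 4) : pair b (Pi.single i 1) = b i := by
  unfold pair
  rw [Finset.sum_eq_single i]
  · simp
  · intro j _ hj
    simp [hj]
  · intro h; exact absurd (Finset.mem_univ _) h

/-- Three independent vectors of four-space span the kernel of a linear form. -/
theorem exists_normal {x y w : Fin 4 → ℂ} (h : LinearIndependent ℂ ![x, y, w]) :
    ∃ q v : Fin 4 → ℂ, dt q v = 1 ∧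
      ∀ u : Fin 4 → ℂ, u - dt q u • v ∈ Submodule.span ℂ (Set.range ![x, y, w]) := by
  set P := Submodule.span ℂ (Set.range ![x, y, w]) with hP
  have hfr : Module.finrank ℂ P = 3 := by
    rw [hP, finrank_span_eq_card h]; simp
  have hlt : P < ⊤ := by
    rw [lt_top_iff_ne_top]
    intro htop
    rw [htop, finrank_top] at hfr
    simp at hfr
  obtain ⟨f, hf0, hf⟩ := Submodule.exists_le_ker_of_lt_top P hlt
  have hk : P = LinearMap.ker f := by
    apply Submodule.eq_of_le_of_finrank_eq hf
    have h1 := LinearMap.finrank_range_add_finrank_ker f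
    have h2 : LinearMap.range f = ⊤ := by
      rw [LinearMap.range_eq_top]
      exact LinearMap.surjective hf0
    rw [h2, finrank_top] at h1
    simp at h1
    omega
  obtain ⟨v, hv⟩ := LinearMap.surjective hf0 1
  have hdt : ∀ u, dt (fun i => f (Pi.single i 1)) u = f u := by
    intro u
    have h1 : u = ∑ i, u i • (Pi.single i 1 : Fin 4 → ℂ) := by
      funext j
      simp [Finset.sum_apply, Pi.single_apply]
    conv_rhs => rw [h1, map_sum]
    unfold dt
    apply Finset.sum_congr rfl
    intro i _
    rw [map_smul, smul_eq_mul, mul_comm]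
  refine ⟨fun i => f (Pi.single i 1), v, by rw [hdt, hv], ?_⟩
  intro u
  rw [hdt, hk, LinearMap.mem_ker, map_sub, map_smul, hv]
  simp

theorem Dz_pow_mul (D : Derivation ℂ R R) (p u : R) (j : ℕ) :
    p * D (p ^ j * u) = p ^ j * (C (j : ℂ) * D p * u + p * D u) := by
  rw [Derivation.leibniz, Derivation.leibniz_pow]
  simp only [smul_eq_mul]
  have h1 : (C (j : ℂ) : R) = (j : R) := by simp
  rw [h1]
  cases j with
  | zero => simp
  | succ j =>
    simp only [Nat.add_sub_cancel, nsmul_eq_mul]
    ring

end Pool.Agent.Work.MP_31dc3b_ag
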