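import Pool.Agent.Work.MP_31dc3b_ag.Val

/-!
Structure of the irreducible factors of the denominator.
-/

set_option autoImplicit false

open MvPolynomial

namespace Pool.Agent.Work.MP_31dc3b_ag

section
variable {ι : Type*} [Fintype ι] {Z : ι → Fin 4 → ℂ} {e : ℕ} {H : R}
  {r : ι → R} {a0 : R} {b : Fin 4 → R}

/-- For every prime `p` at least `e + 3` of the coefficients are not divisible by `p`. -/
theorem Conf.card_not_dvd (h : Conf Z e H) (d : Data Z e r a0 b) (two : ∀ z : ι, ∃ w, w ≠ z)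
    {p : R} (hp : Irreducible p) (s : Finset ι) (hs : ∀ z, z ∉ s → p ∣ r z) :
    e + 3 ≤ s.card := by
  classical
  have hpi : (Ideal.span {p}).IsPrime := (Ideal.span_singleton_prime hp.ne_zero).2 hp.prime
  have hrel := d.rel.map (Ideal.Quotient.mk (Ideal.span {p}))
  have hmk : ∀ f : R, Ideal.Quotient.mk (Ideal.span {p}) f = 0 ↔ p ∣ f := by
    intro f
    rw [Ideal.Quotient.eq_zero_iff_mem, Ideal.mem_span_singleton]
  obtain ⟨z0, hz0⟩ := d.prim p hp
  have hnp : ∀ z, z ≠ z0 → ∃ i j,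
      Ideal.Quotient.mk (Ideal.span {p}) (zb (Z z) i) * Ideal.Quotient.mk (Ideal.span {p}) (zb (Z z0) j)
      ≠ Ideal.Quotient.mk (Ideal.span {p}) (zb (Z z) j) *
        Ideal.Quotient.mk (Ideal.span {p}) (zb (Z z0) i) := by
    intro z hz
    obtain ⟨i, j, hij⟩ := exists_minor hp (h.ind2 z z0 hz)
    refine ⟨i, j, fun h0 => hij ?_⟩
    rw [← hmk, map_sub, map_mul, map_mul, h0, sub_self]
  obtain ⟨w0, hw0⟩ := two z0
  obtain ⟨i, j, hij⟩ := hnp w0 hw0
  have hy0 : ∃ i, Ideal.Quotient.mk (Ideal.span {p}) (zb (Z z0) i) ≠ 0 := by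
    by_contra hcon
    push Not at hcon
    apply hij
    rw [hcon i, hcon j, mul_zero, mul_zero]
  exact hrel.card_le s (fun z hz => (hmk _).2 (hs z hz)) z0
    (fun h0 => hz0 ((hmk _).1 h0)) hy0 (fun z _ hz => hnp z hz)

/-- Multiplicity data at a prime factor of the denominator. -/
theorem dvd_pair_sub {p : R} (hp : Irreducible p) {a' : R} {v : Fin 4 → ℂ} {f B u : R} {j : ℕ}
    (heq : (p * a') * Dz v f = B * f) (hf : f = p ^ j * u) (hu : ¬ p ∣ u) :
    p ∣ B - C (j : ℂ) * a' * Dz v p := by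
  have h1 := Dz_pow_mul (Dz v) p u j
  rw [hf] at heq
  have h2 : p ^ j * (a' * (C (j : ℂ) * Dz v p * u + p * Dz v u)) = p ^ j * (B * u) := by
    linear_combination heq - a' * h1
  have h3 := mul_left_cancel₀ (pow_ne_zero j hp.ne_zero) h2
  have h4 : p ∣ u * (B - C (j : ℂ) * a' * Dz v p) := ⟨a' * Dz v u, by linear_combination -h3⟩
  exact (hp.prime.dvd_or_dvd h4).resolve_left hu

/-- Structure of an irreducible factor of the denominator. -/
theorem Conf.prime_structure (h : Conf Z e H) (d : Data Z e r a0 b)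
    (two : ∀ z : ι, ∃ w, w ≠ z) {p a' : R} (hp : Irreducible p) (ha : a0 = p * a') :
    ∃ (q : Fin 4 → ℂ) (c : ℕ), 1 ≤ c ∧ pl q = p ∧ ¬ p ∣ a' ∧
      (∀ z, dt q (Z z) ≠ 0 → p ^ c ∣ r z) ∧
      (∀ v, p ∣ pair b v - C ((c : ℂ) * dt q v) * a') := by
  classical
  have hcard := h.card_not_dvd d two hp (Finset.univ.filter (fun z => ¬ p ∣ r z)) (by
    intro z hz
    simpa using hz)
  have h3 : 2 < (Finset.univ.filter (fun z => ¬ p ∣ r z)).card := by omega
  obtain ⟨x, y, w, hx, hy, hw, hxy, hxw, hyw⟩ := Finset.two_lt_card_iff.1 h3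
  have hdivW : ∀ z, ¬ p ∣ r z → p ∣ pair b (Z z) := by
    intro z hz
    have h4 : p ∣ pair b (Z z) * r z := by
      rw [← d.eqn z, ha, mul_assoc]
      exact dvd_mul_right _ _
    exact (hp.prime.dvd_or_dvd h4).resolve_right hz
  have hx' := hdivW x (by simpa using hx)
  have hy' := hdivW y (by simpa using hy)
  have hw' := hdivW w (by simpa using hw)
  obtain ⟨q, v, hqv, hspan⟩ := exists_normal (h.ind3 x y w hxy hxw hyw)
  have hP : ∀ u ∈ Submodule.span ℂ (Set.range ![Z x, Z y, Z w]), p ∣ pair b u := by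
    intro u hu
    refine Submodule.span_induction ?_ ?_ ?_ ?_ hu
    · rintro _ ⟨k, rfl⟩
      fin_cases k
      · exact hx'
      · exact hy'
      · exact hw'
    · simp [pair]
    · intro u1 u2 _ _ h1 h2
      rw [pair_add]
      exact dvd_add h1 h2
    · intro c u1 _ h1
      rw [pair_smul]
      exact h1.mul_left _
  have hmu : ∀ u, p ∣ pair b u - C (dt q u) * pair b v := by
    intro u
    have h1 := hP _ (hspan u)
    have h2 : pair b u = pair b (u - dt q u • v) + C (dt q u) * pair b v := by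
      rw [← pair_smul, ← pair_add, sub_add_cancel]
    rw [h2, add_sub_cancel_right]
    exact h1
  have hmu0 : ¬ p ∣ pair b v := by
    intro h0
    obtain ⟨i, hi⟩ := d.prim2 p hp ⟨a', ha⟩
    apply hi
    have h1 := hmu (Pi.single i 1)
    rw [pair_single] at h1
    exact (dvd_sub_left (h0.mul_left _)).1 h1
  have hq0 : q ≠ 0 := by
    rintro rfl
    simp [dt] at hqv
  -- the plane polynomial
  have hpl : p ∣ pl q := by
    have h1 : p ∣ pl q * pair b v := by
      have h2 : p ∣ ∑ i : Fin 3, (b i.castSucc - C (q i.castSucc) * pair b v) * X i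
          + (b (Fin.last 3) - C (q (Fin.last 3)) * pair b v) := by
        have h4 : ∀ i, p ∣ b i - C (q i) * pair b v := by
          intro i
          have h5 := hmu (Pi.single i 1)
          have h6 : dt q (Pi.single i 1) = q i := by simp [dt, Pi.single_apply]
          rwa [pair_single, h6] at h5
        refine dvd_add (Finset.dvd_sum fun i _ => (h4 _).mul_right _) (h4 _)
      have h7 : ∑ i : Fin 3, (b i.castSucc - C (q i.castSucc) * pair b v) * X i
          + (b (Fin.last 3) - C (q (Fin.last 3)) * pair b v)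
          = C ((e : ℂ) + 3) * a0 - pl q * pair b v := by
        rw [← d.bsum]
        simp only [pl, Fin.sum_univ_three]
        ring
      rw [h7] at h2
      have h8 : p ∣ C ((e : ℂ) + 3) * a0 := by
        rw [ha]
        exact (dvd_mul_right p a').mul_left _
      exact (dvd_sub_right h8).1 h2
    exact (hp.prime.dvd_or_dvd h1).resolve_right hmu0
  obtain ⟨c1, hc1, hc1p⟩ := eq_C_mul_of_dvd hp (pl_ne_zero hq0) (totalDegree_pl q) hpl
  set q' : Fin 4 → ℂ := c1⁻¹ • q with hq'
  set m : R := C c1 * pair b v with hm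
  have hplq' : pl q' = p := by
    rw [hq', pl_smul, hc1p, ← mul_assoc, ← C_mul, inv_mul_cancel₀ hc1, C_1, one_mul]
  have hmu' : ∀ u, p ∣ pair b u - C (dt q' u) * m := by
    intro u
    have h1 := hmu u
    have h2 : C (dt q' u) * m = C (dt q u) * pair b v := by
      rw [hm, hq', dt_smul, ← mul_assoc, ← C_mul]
      congr 2
      field_simp
    rw [h2]; exact h1
  have hm0 : ¬ p ∣ m := by
    intro h0
    rcases hp.prime.dvd_or_dvd h0 with h1 | h1
    · exact not_dvd_C hp hc1 h1
    · exact hmu0 h1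
  -- multiplicities
  have hmult : ∀ z, ∃ (j : ℕ) (u : R), r z = p ^ j * u ∧ ¬ p ∣ u := by
    intro z
    obtain ⟨u, hu1, hu2⟩ :=
      (FiniteMultiplicity.of_not_isUnit hp.not_isUnit (d.rne z)).exists_eq_pow_mul_and_not_dvd
    exact ⟨_, u, hu1, hu2⟩
  choose j u hju hu using hmult
  have hkey : ∀ z, dt q' (Z z) ≠ 0 → p ∣ m - C (j z : ℂ) * a' := by
    intro z hz
    have h1 : (p * a') * Dz (Z z) (r z) = pair b (Z z) * r z := by
      rw [← ha]; exact d.eqn z
    have h2 := dvd_pair_sub hp h1 (hju z) (hu z)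
    have h4 : Dz (Z z) p = C (dt q' (Z z)) - C (Z z (Fin.last 3)) * p := by
      rw [← hplq']; exact Dz_pl _ _
    rw [h4] at h2
    have h5 := hmu' (Z z)
    have h6 : p ∣ C (dt q' (Z z)) * (m - C (j z : ℂ) * a') := by
      obtain ⟨k1, hk1⟩ := h2
      obtain ⟨k2, hk2⟩ := h5
      refine ⟨k1 - k2 - C (j z : ℂ) * a' * C (Z z (Fin.last 3)), ?_⟩
      linear_combination hk1 - hk2
    rcases hp.prime.dvd_or_dvd h6 with h7 | h7
    · exact absurd h7 (not_dvd_C hp hz)
    · exact h7
  have hex : ∃ z0, dt q' (Z z0) ≠ 0 := by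
    by_contra hcon
    push Not at hcon
    have h1 : q' = 0 := h.span q' hcon
    apply hp.ne_zero
    rw [← hplq', h1]
    simp [pl]
  obtain ⟨z0, hz0⟩ := hex
  have hk0 := hkey z0 hz0
  have ha'0 : ¬ p ∣ a' := by
    intro h0
    exact hm0 ((dvd_sub_left (h0.mul_left _)).1 hk0)
  refine ⟨q', j z0, ?_, hplq', ha'0, ?_, ?_⟩
  · rw [Nat.one_le_iff_ne_zero]
    intro h0
    rw [h0] at hk0
    simp only [Nat.cast_zero, map_zero, zero_mul, sub_zero] at hk0
    exact hm0 hk0
  · intro z hz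
    have h1 := hkey z hz
    have h2 : p ∣ C ((j z : ℂ) - (j z0 : ℂ)) * a' := by
      have h4 := dvd_sub hk0 h1
      have h5 : m - C (j z0 : ℂ) * a' - (m - C (j z : ℂ) * a')
          = C ((j z : ℂ) - (j z0 : ℂ)) * a' := by
        rw [C_sub]; ring
      rw [h5] at h4
      exact h4
    have h6 : (j z : ℂ) - (j z0 : ℂ) = 0 := by
      by_contra hne
      rcases hp.prime.dvd_or_dvd h2 with h7 | h7
      · exact not_dvd_C hp hne h7
      · exact ha'0 h7
    have h7 : j z = j z0 := by
      have := sub_eq_zero.1 h6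
      exact_mod_cast this
    rw [hju z, h7]
    exact dvd_mul_right _ _
  · intro v'
    have h1 := hmu' v'
    have h2 : pair b v' - C ((j z0 : ℂ) * dt q' v') * a'
        = (pair b v' - C (dt q' v') * m) + C (dt q' v') * (m - C (j z0 : ℂ) * a') := by
      rw [C_mul]; ring
    rw [h2]
    exact dvd_add h1 (hk0.mul_left _)

end

end Pool.Agent.Work.MP_31dc3b_ag
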